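import Pool.Agent.D0H92.AG.Itin

set_option autoImplicit false

/-!
# Sums over separated points of products along a geometric progression

The product over `j < N` of `l` (if `B ^ j θ` is at a distance of at least `1 / (2 B)` from the integers; otherwise of
`1`), summed over a finite family of fractions whose differences have denominators `≤ W < B ^ L` prime to `B`, is at
most `(1 + 2 B l ^ K) ^ L - 1` if `K L ≤ N`.
-/

namespace Pool.Agent.D0H92.RG

open Finset Pool.Agent.D0H92.AG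

/-- the local factor -/
noncomputable def fl (B : ℕ) (l x : ℝ) : ℝ := if 1 ≤ 2 * (B : ℝ) * |x - round x| then l else 1

lemma fl_nonneg {B : ℕ} {l : ℝ} (hl : 0 ≤ l) (x : ℝ) : 0 ≤ fl B l x := by
  unfold fl; split_ifs <;> linarith

lemma fl_le_one {B : ℕ} {l : ℝ} (hl : l ≤ 1) (x : ℝ) : fl B l x ≤ 1 := by
  unfold fl; split_ifs <;> linarith

lemma fl_add_int (B : ℕ) (l x : ℝ) (n : ℤ) : fl B l (x + n) = fl B l x := by
  unfold fl
  rw [round_add_intCast]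
  push_cast
  rw [add_sub_add_right_eq_sub]

/-- the product -/
noncomputable def bk (B : ℕ) (l : ℝ) (L : ℕ) (θ : ℝ) : ℝ := ∏ j ∈ range L, fl B l ((B : ℝ) ^ j * θ)

lemma bk_nonneg {B : ℕ} {l : ℝ} (hl : 0 ≤ l) (L : ℕ) (θ : ℝ) : 0 ≤ bk B l L θ :=
  prod_nonneg fun _ _ => fl_nonneg hl _

lemma bk_le_one {B : ℕ} {l : ℝ} (hl : 0 ≤ l) (hl1 : l ≤ 1) (L : ℕ) (θ : ℝ) : bk B l L θ ≤ 1 :=
  prod_le_one (fun _ _ => fl_nonneg hl _) fun _ _ => fl_le_one hl1 _

lemma bk_add (B : ℕ) (l : ℝ) (L M : ℕ) (θ : ℝ) :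
    bk B l (L + M) θ = bk B l L θ * bk B l M ((B : ℝ) ^ L * θ) := by
  unfold bk
  rw [prod_range_add]
  congr 1
  refine prod_congr rfl fun j _ => ?_
  congr 1
  rw [pow_add]; ring

lemma bk_int (B : ℕ) (l : ℝ) (L : ℕ) (θ : ℝ) (n : ℤ) : bk B l L (θ + n) = bk B l L θ := by
  unfold bk
  refine prod_congr rfl fun j _ => ?_
  have : (B : ℝ) ^ j * (θ + n) = (B : ℝ) ^ j * θ + (((B : ℤ) ^ j * n : ℤ) : ℝ) := by
    push_cast; ring
  rw [this, fl_add_int]

lemma bk_mul (B : ℕ) (l : ℝ) (L K : ℕ) (θ : ℝ) :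
    bk B l (K * L) θ = ∏ i ∈ range K, bk B l L ((B : ℝ) ^ (i * L) * θ) := by
  induction K with
  | zero => simp [bk]
  | succ K ih => rw [Nat.succ_mul, bk_add, ih, prod_range_succ]

lemma bk_anti (B : ℕ) {l : ℝ} (hl : 0 ≤ l) (hl1 : l ≤ 1) {L N : ℕ} (h : L ≤ N) (θ : ℝ) :
    bk B l N θ ≤ bk B l L θ := by
  obtain ⟨M, rfl⟩ := Nat.exists_eq_add_of_le h
  rw [bk_add]
  exact mul_le_of_le_one_right (bk_nonneg hl _ _) (bk_le_one hl hl1 _ _)

lemma bk_pow_le (B : ℕ) {l : ℝ} (hl : 0 ≤ l) (hl1 : l ≤ 1) (L K : ℕ) (θ : ℝ) :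
    bk B l L θ ^ K ≤ ∏ j : Fin L, wl (l ^ K) (code B θ j) := by
  unfold bk
  rw [← Finset.prod_range (fun j => wl (l ^ K) (code B θ j)), ← prod_pow]
  refine prod_le_prod (fun j _ => pow_nonneg (fl_nonneg hl _) _) fun j _ => ?_
  unfold wl
  split_ifs with h
  · exact pow_le_one₀ (fl_nonneg hl _) (fl_le_one hl1 _)
  · refine pow_le_pow_left₀ (fl_nonneg hl _) ?_ _
    unfold fl
    rw [if_pos (code_far B θ j h)]

/-- a fraction with a denominator `≤ W` prime to `B` which is not an integer -/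
def Fr (B W : ℕ) (x : ℝ) : Prop :=
  ∃ w : ℕ, 0 < w ∧ w ≤ W ∧ Nat.Coprime w B ∧ ∃ u : ℤ, x = u / w ∧ ¬ (w : ℤ) ∣ u

lemma Fr.mul {B W : ℕ} {x : ℝ} (h : Fr B W x) (k : ℕ) : Fr B W ((B : ℝ) ^ k * x) := by
  obtain ⟨w, hw, hwW, hc, u, rfl, hu⟩ := h
  refine ⟨w, hw, hwW, hc, (B : ℤ) ^ k * u, ?_, ?_⟩
  · push_cast; ring
  · intro hd
    apply hu
    have h1 : IsCoprime (w : ℤ) ((B : ℤ) ^ k) := by
      have : Nat.Coprime w (B ^ k) := hc.pow_right k
      have h2 := Nat.isCoprime_iff_coprime.2 this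
      push_cast at h2
      exact h2
    exact h1.dvd_of_dvd_mul_left hd

lemma Fr.far {B W : ℕ} {x : ℝ} (h : Fr B W x) (Y : ℝ) (hY : (W : ℝ) < Y) (n : ℤ) : 1 < Y * |x - n| := by
  obtain ⟨w, hw, hwW, -, u, rfl, hu⟩ := h
  have hw0 : (0 : ℝ) < w := by exact_mod_cast hw
  have e : ((u : ℝ) / w) - n = ((u - n * w : ℤ) : ℝ) / w := by
    push_cast
    field_simp
  have hne : u - n * w ≠ 0 := by
    intro h0
    exact hu ⟨n, by linear_combination h0⟩
  have h1 : (1 : ℝ) ≤ |((u - n * w : ℤ) : ℝ)| := by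
    have : 1 ≤ |u - n * w| := Int.one_le_abs hne
    exact_mod_cast this
  rw [e, abs_div, abs_of_pos hw0, ← mul_div_assoc, lt_div_iff₀ hw0]
  have h2 : (w : ℝ) ≤ W := by exact_mod_cast hwW
  nlinarith

/-- **The sum over a separated family.** -/
theorem sum_bk (B : ℕ) (hB : 2 ≤ B) {l : ℝ} (hl : 0 ≤ l) (hl1 : l ≤ 1) {σ : Type} (S : Finset σ) (θ : σ → ℝ)
    (W : ℕ) (h1 : ∀ s ∈ S, Fr B W (θ s)) (h2 : ∀ s ∈ S, ∀ s' ∈ S, s ≠ s' → Fr B W (θ s - θ s'))
    (L K N : ℕ) (hL : (W : ℝ) < (B : ℝ) ^ L) (hK : 1 ≤ K) (hN : K * L ≤ N) :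
    ∑ s ∈ S, bk B l N (θ s) ≤ (1 + 2 * B * l ^ K) ^ L - 1 := by
  classical
  have hK0 : (0 : ℝ) < K := by exact_mod_cast hK
  set C : Finset (Fin L → ℤ) := Fintype.piFinset (fun _ : Fin L => Icc (-(B : ℤ)) B) with hC
  have hx0 : 0 ≤ l ^ K := pow_nonneg hl _
  -- one block
  have hblock : ∀ i, ∑ s ∈ S, bk B l L ((B : ℝ) ^ (i * L) * θ s) ^ K ≤ (1 + 2 * B * l ^ K) ^ L - 1 := by
    intro i
    set cd : σ → (Fin L → ℤ) := fun s j => code B ((B : ℝ) ^ (i * L) * θ s) j with hcd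
    have hinj : Set.InjOn cd S := by
      intro s hs s' hs' h
      by_contra hne
      have h3 : ∀ j < L, code B ((B : ℝ) ^ (i * L) * θ s) j = code B ((B : ℝ) ^ (i * L) * θ s') j :=
        fun j hj => congrFun h ⟨j, hj⟩
      have h4 := code_close B _ _ L h3
      have h5 := ((h2 s hs s' hs' hne).mul (i * L)).far ((B : ℝ) ^ L) hL
        (round ((B : ℝ) ^ (i * L) * θ s) - round ((B : ℝ) ^ (i * L) * θ s'))
      rw [mul_sub] at h5
      linarith
    have hmem : ∀ s ∈ S, cd s ∈ C.erase 0 := by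
      intro s hs
      rw [mem_erase]
      refine ⟨?_, ?_⟩
      · intro h0
        have h3 : ∀ j < L, code B ((B : ℝ) ^ (i * L) * θ s) j = 0 := fun j hj => congrFun h0 ⟨j, hj⟩
        have h4 := code_zero B _ L h3
        have h5 := ((h1 s hs).mul (i * L)).far ((B : ℝ) ^ L) hL (round ((B : ℝ) ^ (i * L) * θ s))
        linarith
      · rw [hC, Fintype.mem_piFinset]
        intro j
        exact code_bound B hB _ _
    have h0C : (0 : Fin L → ℤ) ∈ C := by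
      rw [hC, Fintype.mem_piFinset]
      intro j
      rw [mem_Icc]
      simp
    calc ∑ s ∈ S, bk B l L ((B : ℝ) ^ (i * L) * θ s) ^ K
        ≤ ∑ s ∈ S, ∏ j : Fin L, wl (l ^ K) (cd s j) := sum_le_sum fun s _ => bk_pow_le B hl hl1 L K _
      _ = ∑ m ∈ S.image cd, ∏ j : Fin L, wl (l ^ K) (m j) := by rw [sum_image hinj]
      _ ≤ ∑ m ∈ C.erase 0, ∏ j : Fin L, wl (l ^ K) (m j) := by
          apply sum_le_sum_of_subset_of_nonneg
          · intro m hm
            obtain ⟨s, hs, rfl⟩ := mem_image.1 hm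
            exact hmem s hs
          · intro m _ _
            exact prod_nonneg fun _ _ => wl_nonneg hx0 _
      _ = (∑ m ∈ C, ∏ j : Fin L, wl (l ^ K) (m j)) - 1 := by
          rw [← add_sum_erase _ _ h0C]
          simp [wl]
      _ = (1 + 2 * B * l ^ K) ^ L - 1 := by rw [sum_words]
  calc ∑ s ∈ S, bk B l N (θ s)
      ≤ ∑ s ∈ S, (∑ i ∈ range K, bk B l L ((B : ℝ) ^ (i * L) * θ s) ^ K) / K := by
        refine sum_le_sum fun s _ => ?_
        refine (bk_anti B hl hl1 hN _).trans ?_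
        rw [bk_mul]
        exact amgm K hK _ fun i => bk_nonneg hl _ _
    _ = (∑ i ∈ range K, ∑ s ∈ S, bk B l L ((B : ℝ) ^ (i * L) * θ s) ^ K) / K := by
        rw [← sum_div, sum_comm]
    _ ≤ (∑ i ∈ range K, ((1 + 2 * B * l ^ K) ^ L - 1)) / K := by
        apply div_le_div_of_nonneg_right _ hK0.le
        exact sum_le_sum fun i _ => hblock i
    _ = (1 + 2 * B * l ^ K) ^ L - 1 := by
        rw [sum_const, card_range, nsmul_eq_mul]
        field_simp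

end Pool.Agent.D0H92.RG
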