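import Pool.Agent.D0H92.AG.Four
import Pool.Agent.D0H92.RG.It

set_option autoImplicit false

/-!
# Exponential sums over sets of integers with missing digits
-/

namespace Pool.Agent.D0H92.RG

open Finset Pool.Agent.D0H92.AG

/-- the integer `c + g ∑ B ^ j d_j` -/
def val (c : ℤ) (g B : ℕ) {N : ℕ} (d : Fin N → ℕ) : ℤ := c + g * ∑ j : Fin N, (B : ℤ) ^ (j : ℕ) * d j

lemma ee_sum {ι : Type} (s : Finset ι) (f : ι → ℝ) : ee (∑ i ∈ s, f i) = ∏ i ∈ s, ee (f i) := by
  classical
  induction s using Finset.induction_on with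
  | empty => simp [ee_zero]
  | insert i s hi ih => rw [sum_insert hi, prod_insert hi, ee_add, ih]

lemma ee_int (n : ℤ) : ee (n : ℝ) = 1 := (ee_eq_one _).2 ⟨n, rfl⟩

lemma sum_ee (c : ℤ) (g B : ℕ) {N : ℕ} (A : Fin N → Finset ℕ) (θ : ℝ) :
    ∑ d ∈ Fintype.piFinset A, ee (θ * val c g B d) =
      ee (θ * c) * ∏ j, ∑ x ∈ A j, ee ((x : ℝ) * (θ * g * (B : ℝ) ^ (j : ℕ))) := by
  rw [Finset.prod_univ_sum, mul_sum]
  refine sum_congr rfl fun d _ => ?_
  rw [← ee_sum, ← ee_add]
  congr 1
  unfold val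
  push_cast
  rw [mul_add, mul_sum, mul_sum]
  congr 1
  refine sum_congr rfl fun j _ => ?_
  ring

/-- the number `1 - (2 / B) (1 - cos (π / (2 B B!)))` -/
noncomputable def lamB (B : ℕ) : ℝ := 1 - 2 / B * (1 - lam (B * B.factorial))

lemma two_le_mul (B : ℕ) (hB : 2 ≤ B) : 2 ≤ B * B.factorial :=
  hB.trans (Nat.le_mul_of_pos_right _ (Nat.factorial_pos _))

lemma lamB_nonneg (B : ℕ) (hB : 2 ≤ B) : 0 ≤ lamB B := by
  unfold lamB
  have h1 := lam_nonneg _ (two_le_mul B hB)
  have h2 : (2 : ℝ) ≤ B := by exact_mod_cast hB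
  have h3 : 2 / (B : ℝ) ≤ 1 := by rw [div_le_one (by linarith)]; exact h2
  have h4 : 0 ≤ 2 / (B : ℝ) := by positivity
  have h5 := lam_lt_one _ (two_le_mul B hB)
  nlinarith

lemma lamB_lt_one (B : ℕ) (hB : 2 ≤ B) : lamB B < 1 := by
  unfold lamB
  have h5 := lam_lt_one _ (two_le_mul B hB)
  have h2 : (2 : ℝ) ≤ B := by exact_mod_cast hB
  have h4 : 0 < 2 / (B : ℝ) := by positivity
  nlinarith

lemma digit_sum (B : ℕ) (hB : 2 ≤ B) (A : Finset ℕ) (hA : ∀ a ∈ A, a < B) (h2 : 2 ≤ A.card) (x : ℝ) :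
    ‖∑ d ∈ A, ee ((d : ℝ) * x)‖ ≤ A.card * fl B (lamB B) ((B.factorial : ℝ) * x) := by
  have hB2 : (2 : ℝ) ≤ B := by exact_mod_cast hB
  have htriv : ‖∑ d ∈ A, ee ((d : ℝ) * x)‖ ≤ A.card := by
    refine (norm_sum_le _ _).trans ?_
    simp [ee_norm]
  unfold fl
  split_ifs with hfar
  · obtain ⟨d, hd, d', hd', hne⟩ := Finset.one_lt_card.1 (by omega : 1 < A.card)
    wlog hlt : d < d' generalizing d d'
    · exact this d' hd' d hd hne.symm (by omega)
    obtain ⟨m, rfl⟩ : ∃ m, d' = d + m := ⟨d' - d, by omega⟩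
    have hm1 : 0 < m := by omega
    have hmB : m ≤ B := by have := hA _ hd'; omega
    obtain ⟨k, hk⟩ := Nat.dvd_factorial hm1 hmB
    have hk0 : 0 < k := by
      rcases Nat.eq_zero_or_pos k with h | h
      · rw [h, mul_zero] at hk
        exact absurd hk (Nat.factorial_pos _).ne'
      · exact h
    -- the distance of `m x` to the nearest integer
    have h1 : |(B.factorial : ℝ) * x - round ((B.factorial : ℝ) * x)| ≤ k * |m * x - round ((m : ℝ) * x)| := by
      have e1 := round_le ((B.factorial : ℝ) * x) (k * round ((m : ℝ) * x))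
      refine e1.trans (le_of_eq ?_)
      rw [hk]
      push_cast
      have : ((m : ℝ) * k * x - k * round ((m : ℝ) * x)) = k * (m * x - round ((m : ℝ) * x)) := by ring
      rw [this, abs_mul, abs_of_nonneg (Nat.cast_nonneg k : (0 : ℝ) ≤ (k : ℝ))]
    have hkB : (k : ℝ) ≤ B.factorial := by
      rw [hk]
      exact_mod_cast Nat.le_mul_of_pos_left k hm1
    have h3 : 1 ≤ 2 * ((B * B.factorial : ℕ) : ℝ) * |m * x - round ((m : ℝ) * x)| := by
      push_cast
      have h4 := abs_nonneg ((m : ℝ) * x - round ((m : ℝ) * x))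
      calc (1 : ℝ) ≤ 2 * (B : ℝ) * (k * |m * x - round ((m : ℝ) * x)|) := by
            refine hfar.trans ?_
            exact mul_le_mul_of_nonneg_left h1 (by positivity)
        _ ≤ 2 * (B : ℝ) * (B.factorial * |m * x - round ((m : ℝ) * x)|) := by
            apply mul_le_mul_of_nonneg_left _ (by positivity)
            exact mul_le_mul_of_nonneg_right hkB h4
        _ = _ := by ring
    have h4 := cf_far (B * B.factorial) (two_le_mul B hB) _ h3
    have h5 : ‖ee ((d : ℝ) * x) + ee (((d + m : ℕ) : ℝ) * x)‖ ≤ 2 * lam (B * B.factorial) := by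
      have e : ee ((d : ℝ) * x) + ee (((d + m : ℕ) : ℝ) * x) = ee ((d : ℝ) * x) * (1 + ee (m * x)) := by
        rw [mul_add, mul_one, ← ee_add]
        congr 2
        push_cast; ring
      rw [e, norm_mul, ee_norm, one_mul, norm_one_add]
      linarith
    have h6 : ‖∑ d ∈ A, ee ((d : ℝ) * x)‖ ≤ (A.card - 2 : ℝ) + 2 * lam (B * B.factorial) := by
      have hd'' : d + m ∈ A.erase d := mem_erase.2 ⟨by omega, hd'⟩
      rw [← add_sum_erase A _ hd, ← add_sum_erase (A.erase d) _ hd'', ← add_assoc]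
      refine (norm_add_le _ _).trans ?_
      have h7 : ‖∑ i ∈ (A.erase d).erase (d + m), ee ((i : ℝ) * x)‖ ≤ (A.card - 2 : ℝ) := by
        refine (norm_sum_le _ _).trans ?_
        simp only [ee_norm]
        rw [sum_const, nsmul_eq_mul, mul_one, card_erase_of_mem hd'', card_erase_of_mem hd]
        have : A.card - 1 - 1 = A.card - 2 := by omega
        rw [this, Nat.cast_sub h2]
        norm_num
      linarith
    have hcB : (A.card : ℝ) ≤ B := by
      have : A ⊆ range B := fun a ha => mem_range.2 (hA a ha)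
      have h8 := card_le_card this
      rw [card_range] at h8
      exact_mod_cast h8
    have hc0 : (0 : ℝ) < A.card := by exact_mod_cast (by omega : 0 < A.card)
    have h9 := lam_lt_one _ (two_le_mul B hB)
    unfold lamB
    have h10 : (A.card : ℝ) * (2 / B * (1 - lam (B * B.factorial))) ≤ 2 * (1 - lam (B * B.factorial)) := by
      rw [← mul_assoc]
      apply mul_le_mul_of_nonneg_right _ (by linarith)
      rw [mul_div_assoc', div_le_iff₀ (by linarith)]
      linarith
    linarith
  · linarith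

/-- the exponential sum over all the integers with digits in the given sets -/
lemma norm_sum (c : ℤ) (g B : ℕ) (hB : 2 ≤ B) {N : ℕ} (A : Fin N → Finset ℕ) (hA : ∀ j, ∀ a ∈ A j, a < B)
    (h2 : ∀ j, 2 ≤ (A j).card) (θ : ℝ) :
    ‖∑ d ∈ Fintype.piFinset A, ee (θ * val c g B d)‖ ≤
      (Fintype.piFinset A).card * bk B (lamB B) N (((g * B.factorial : ℕ) : ℝ) * θ) := by
  rw [sum_ee, norm_mul, ee_norm, one_mul, norm_prod, Fintype.card_piFinset]
  unfold bk
  rw [Finset.prod_range (fun j => fl B (lamB B) ((B : ℝ) ^ j * (((g * B.factorial : ℕ) : ℝ) * θ)))]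
  push_cast
  rw [← prod_mul_distrib]
  refine prod_le_prod (fun _ _ => norm_nonneg _) fun j _ => ?_
  refine (digit_sum B hB (A j) (hA j) (h2 j) _).trans (le_of_eq ?_)
  congr 2
  ring

/-- the same for the members in a residue class modulo `g B!` -/
lemma norm_sum_class (c : ℤ) (g B : ℕ) (hg : 1 ≤ g) (hB : 2 ≤ B) {N : ℕ} (A : Fin N → Finset ℕ)
    (hA : ∀ j, ∀ a ∈ A j, a < B) (h2 : ∀ j, 2 ≤ (A j).card) (ρ : ℤ) (θ : ℝ) :
    ‖∑ d ∈ (Fintype.piFinset A).filter (fun d => ((g * B.factorial : ℕ) : ℤ) ∣ val c g B d - ρ),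
      ee (θ * val c g B d)‖ ≤
      (Fintype.piFinset A).card * bk B (lamB B) N (((g * B.factorial : ℕ) : ℝ) * θ) := by
  set M := g * B.factorial with hM
  have hM0 : 0 < M := Nat.mul_pos hg (Nat.factorial_pos _)
  have hMr : (0 : ℝ) < M := by exact_mod_cast hM0
  have hMc : (M : ℂ) ≠ 0 := by exact_mod_cast hM0.ne'
  have h1 : ∑ d ∈ (Fintype.piFinset A).filter (fun d => (M : ℤ) ∣ val c g B d - ρ), ee (θ * val c g B d) =
      (∑ h ∈ range M, ee (-(h * ((ρ : ℝ) / M))) *
        ∑ d ∈ Fintype.piFinset A, ee ((θ + h / M) * val c g B d)) / M := by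
    rw [sum_filter, eq_div_iff hMc, Finset.sum_mul]
    have h3 : ∀ d ∈ Fintype.piFinset A,
        (if (M : ℤ) ∣ val c g B d - ρ then ee (θ * val c g B d) else 0) * (M : ℂ) =
        ∑ h ∈ range M, ee (-(h * ((ρ : ℝ) / M))) * ee ((θ + h / M) * val c g B d) := by
      intro d _
      have h4 := orth M hM0 (val c g B d - ρ)
      calc (if (M : ℤ) ∣ val c g B d - ρ then ee (θ * val c g B d) else 0) * (M : ℂ)
          = ee (θ * val c g B d) * (if (M : ℤ) ∣ val c g B d - ρ then (M : ℂ) else 0) := by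
            split_ifs <;> ring
        _ = ee (θ * val c g B d) * ∑ h ∈ range M, ee (h * (((val c g B d - ρ : ℤ) : ℝ) / M)) := by rw [h4]
        _ = _ := by
            rw [mul_sum]
            refine sum_congr rfl fun h _ => ?_
            rw [← ee_add, ← ee_add]
            congr 1
            push_cast
            ring
    rw [sum_congr rfl h3, sum_comm]
    refine sum_congr rfl fun h _ => ?_
    rw [mul_sum]
  rw [h1, norm_div, Complex.norm_natCast, div_le_iff₀ hMr]
  refine (norm_sum_le _ _).trans ?_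
  calc ∑ h ∈ range M, ‖ee (-(h * ((ρ : ℝ) / M))) * ∑ d ∈ Fintype.piFinset A, ee ((θ + h / M) * val c g B d)‖
      ≤ ∑ h ∈ range M, (Fintype.piFinset A).card * bk B (lamB B) N ((M : ℝ) * θ) := by
        refine sum_le_sum fun h _ => ?_
        rw [norm_mul, ee_norm, one_mul]
        refine (norm_sum c g B hB A hA h2 _).trans (le_of_eq ?_)
        congr 1
        have : (M : ℝ) * (θ + h / M) = M * θ + ((h : ℤ) : ℝ) := by
          push_cast
          field_simp
        rw [← hM, this, bk_int]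
    _ = _ := by rw [sum_const, card_range, nsmul_eq_mul]; ring

/-- some residue class contains many members -/
lemma exists_class (c : ℤ) (g B M : ℕ) (hM : 0 < M) {N : ℕ} (A : Fin N → Finset ℕ) :
    ∃ ρ : ℤ, ((Fintype.piFinset A).card : ℝ) ≤
      M * ((Fintype.piFinset A).filter (fun d => (M : ℤ) ∣ val c g B d - ρ)).card := by
  by_contra hcon
  push Not at hcon
  have hM0 : (0 : ℝ) < M := by exact_mod_cast hM
  have h1 : (Fintype.piFinset A).card =
      ∑ r ∈ range M, ((Fintype.piFinset A).filter (fun d => (M : ℤ) ∣ val c g B d - r)).card := by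
    rw [card_eq_sum_card_fiberwise (f := fun d => ((val c g B d) % M).toNat) (t := range M)]
    · refine sum_congr rfl fun r hr => ?_
      congr 1
      apply filter_congr
      intro d _
      have h2 := Int.emod_nonneg (val c g B d) (by omega : (M : ℤ) ≠ 0)
      rw [mem_range] at hr
      constructor
      · intro h
        have h3 : (val c g B d) % M = r := by omega
        exact (Int.ModEq.dvd (by
          unfold Int.ModEq
          rw [h3, Int.emod_eq_of_lt (by omega) (by omega)] : (r : ℤ) ≡ val c g B d [ZMOD M]))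
      · intro h
        have h3 : (r : ℤ) ≡ val c g B d [ZMOD M] := (Int.modEq_iff_dvd).2 h
        unfold Int.ModEq at h3
        rw [Int.emod_eq_of_lt (by omega) (by omega)] at h3
        omega
    · intro d _
      have h2 := Int.emod_nonneg (val c g B d) (by omega : (M : ℤ) ≠ 0)
      have h3 := Int.emod_lt_of_pos (val c g B d) (by omega : (0 : ℤ) < M)
      rw [mem_coe, mem_range]
      show ((val c g B d) % M).toNat < M
      omega
  have hne : (range M).Nonempty := ⟨0, mem_range.2 hM⟩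
  have h2 : ∑ r ∈ range M, (M : ℝ) * ((Fintype.piFinset A).filter (fun d => (M : ℤ) ∣ val c g B d - r)).card <
      ∑ r ∈ range M, ((Fintype.piFinset A).card : ℝ) :=
    sum_lt_sum_of_nonempty hne fun r _ => hcon r
  rw [← mul_sum, sum_const, card_range, nsmul_eq_mul] at h2
  have h3 : ((Fintype.piFinset A).card : ℝ) =
      ∑ r ∈ range M, (((Fintype.piFinset A).filter (fun d => (M : ℤ) ∣ val c g B d - r)).card : ℝ) := by
    exact_mod_cast h1
  rw [← h3] at h2
  exact lt_irrefl _ h2

end Pool.Agent.D0H92.RG
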