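import Pool.Agent.D0H92.RG.Loops

set_option autoImplicit false

/-!
# The rate of growth of a regular language
-/

namespace Pool.Agent.D0H92.RG

open Finset Pool.Agent.D0H92.AG

variable {σ : Type}

open Classical in
lemma lp_le (b : ℕ) (δ : σ → ℕ → σ) (l : ℕ) (s : σ) : (Lp b δ l s).card ≤ b ^ l := by
  unfold Lp
  exact (card_filter_le _ _).trans (le_of_eq (card_range _))

/-- `s` lies on an accepted path -/
def Useful (b : ℕ) (δ : σ → ℕ → σ) (G : σ → Prop) (s0 s : σ) : Prop :=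
  ∃ m1 w1 m2 w2, w1 < b ^ m1 ∧ run b δ m1 s0 w1 = s ∧ w2 < b ^ m2 ∧ G (run b δ m2 s w2)

open Classical in
/-- **The rate of growth.** -/
theorem exists_rate [Fintype σ] (b : ℕ) (hb : 2 ≤ b) (δ : σ → ℕ → σ) (G : σ → Prop) (s0 : σ) (m₀ : ℕ)
    (h : ((m₀ + 1) * b) ^ Fintype.card σ < ((range (b ^ m₀)).filter fun v => G (run b δ m₀ s0 v)).card) :
    ∃ Λ : ℝ, 1 < Λ ∧
      (∀ m, (((range (b ^ m)).filter fun v => G (run b δ m s0 v)).card : ℝ) ≤
        (((m : ℝ) + 1) * b) ^ Fintype.card σ * Λ ^ m) ∧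
      ∀ η : ℝ, 0 < η → ∃ (s : σ) (l : ℕ), Useful b δ G s0 s ∧ 1 ≤ l ∧ Λ ^ ((1 - η) * l) ≤ ((Lp b δ l s).card : ℝ) := by
  set S : Set ℝ := {r | ∃ (s : σ) (l : ℕ), Useful b δ G s0 s ∧ 1 ≤ l ∧ r = ((Lp b δ l s).card : ℝ) ^ (1 / (l : ℝ))} with hS
  have hb0 : (1 : ℝ) ≤ b := by exact_mod_cast (by omega : 1 ≤ b)
  have hbdd : BddAbove S := by
    refine ⟨b, ?_⟩
    rintro r ⟨s, l, -, hl, rfl⟩
    have hl0 : (0 : ℝ) < l := by exact_mod_cast (by omega : 0 < l)
    calc ((Lp b δ l s).card : ℝ) ^ (1 / (l : ℝ)) ≤ ((b : ℝ) ^ l) ^ (1 / (l : ℝ)) := by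
          refine Real.rpow_le_rpow (Nat.cast_nonneg _) ?_ (by positivity)
          exact_mod_cast lp_le b δ l s
      _ = b := by
          rw [← Real.rpow_natCast, ← Real.rpow_mul (by linarith), mul_one_div, div_self hl0.ne', Real.rpow_one]
  set Λ : ℝ := max 1 (sSup S) with hΛ
  have hΛ1 : 1 ≤ Λ := le_max_left _ _
  have hLp : ∀ s l, Useful b δ G s0 s → ((Lp b δ l s).card : ℝ) ≤ Λ ^ l := by
    intro s l hs
    rcases Nat.eq_zero_or_pos l with rfl | hl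
    · have := lp_le b δ 0 s
      rw [pow_zero] at this ⊢
      exact_mod_cast this
    · have hl0 : (0 : ℝ) < l := by exact_mod_cast hl
      have h1 : ((Lp b δ l s).card : ℝ) ^ (1 / (l : ℝ)) ≤ Λ :=
        (le_csSup hbdd ⟨s, l, hs, hl, rfl⟩).trans (le_max_right _ _)
      have h2 : ((Lp b δ l s).card : ℝ) = (((Lp b δ l s).card : ℝ) ^ (1 / (l : ℝ))) ^ l := by
        rw [← Real.rpow_natCast, ← Real.rpow_mul (Nat.cast_nonneg _), one_div_mul_cancel hl0.ne', Real.rpow_one]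
      rw [h2]
      exact pow_le_pow_left₀ (Real.rpow_nonneg (Nat.cast_nonneg _) _) h1 l
  have hcount : ∀ m, (((range (b ^ m)).filter fun v => G (run b δ m s0 v)).card : ℝ) ≤
      (((m : ℝ) + 1) * b) ^ Fintype.card σ * Λ ^ m := by
    intro m
    have h1 := wd_card b (by omega) δ G Λ hΛ1 (fun s => ∃ m1 w1, w1 < b ^ m1 ∧ run b δ m1 s0 w1 = s) (by
      rintro s d ⟨m1, w1, h1, h2⟩ hd
      refine ⟨m1 + 1, w1 + b ^ m1 * d, ?_, ?_⟩
      · rw [pow_succ]
        calc w1 + b ^ m1 * d < b ^ m1 + b ^ m1 * d := by omega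
          _ = b ^ m1 * (d + 1) := by ring
          _ ≤ b ^ m1 * b := Nat.mul_le_mul_left _ hd
      · rw [run_concat b (by omega) δ m1 1 s0 w1 d h1, h2, run_succ, run_zero, Nat.mod_eq_of_lt hd])
      (by
        rintro s l ⟨m1, w1, h1, h2⟩ ⟨m2, w2, h3, h4⟩
        exact hLp s l ⟨m1, w1, m2, w2, h1, h2, h3, h4⟩)
      (Fintype.card σ) univ card_univ m s0 ⟨0, 0, by simp, rfl⟩
    refine le_trans (le_of_eq ?_) h1
    unfold Wd
    congr 1
    congr 1
    apply filter_congr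
    intro v _
    simp
  have hgt : 1 < Λ := by
    rcases hΛ1.lt_or_eq with h1 | h1
    · exact h1
    · exfalso
      have h2 := hcount m₀
      rw [← h1, one_pow, mul_one] at h2
      have h3 : ((((m₀ + 1) * b) ^ Fintype.card σ : ℕ) : ℝ) <
          (((range (b ^ m₀)).filter fun v => G (run b δ m₀ s0 v)).card : ℝ) := by exact_mod_cast h
      push_cast at h3
      linarith
  refine ⟨Λ, hgt, hcount, fun η hη => ?_⟩
  have hΛS : Λ = sSup S := by
    rw [hΛ] at hgt ⊢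
    rcases max_cases 1 (sSup S) with ⟨h1, -⟩ | ⟨h1, -⟩
    · rw [h1] at hgt; exact absurd hgt (lt_irrefl _)
    · exact h1
  have hne : S.Nonempty := by
    by_contra hcon
    rw [Set.not_nonempty_iff_eq_empty] at hcon
    rw [hΛS, hcon, Real.sSup_empty] at hgt
    linarith
  have h1 : Λ ^ (1 - η) < sSup S := by
    rw [← hΛS]
    conv_rhs => rw [← Real.rpow_one Λ]
    exact Real.rpow_lt_rpow_of_exponent_lt hgt (by linarith)
  obtain ⟨r, ⟨s, l, hs, hl, rfl⟩, hr⟩ := exists_lt_of_lt_csSup hne h1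
  refine ⟨s, l, hs, hl, ?_⟩
  have hl0 : (0 : ℝ) < l := by exact_mod_cast (by omega : 0 < l)
  have h2 : ((Lp b δ l s).card : ℝ) = (((Lp b δ l s).card : ℝ) ^ (1 / (l : ℝ))) ^ (l : ℝ) := by
    rw [← Real.rpow_mul (Nat.cast_nonneg _), one_div_mul_cancel hl0.ne', Real.rpow_one]
  rw [h2, Real.rpow_mul (by linarith)]
  exact Real.rpow_le_rpow (Real.rpow_nonneg (by linarith) _) hr.le hl0.le

/-- the words made of loops -/
lemma run_loops (b : ℕ) (hb : 1 ≤ b) (δ : σ → ℕ → σ) (s : σ) (l : ℕ) : ∀ {N : ℕ} (d : Fin N → ℕ),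
    (∀ j, d j < b ^ l ∧ run b δ l s (d j) = s) →
    ∑ j : Fin N, (b ^ l) ^ (j : ℕ) * d j < b ^ (l * N) ∧
      run b δ (l * N) s (∑ j : Fin N, (b ^ l) ^ (j : ℕ) * d j) = s := by
  intro N
  induction N with
  | zero => intro d _; simp [run_zero]
  | succ N ih =>
    intro d hd
    obtain ⟨i1, i2⟩ := ih (fun j => d j.succ) (fun j => hd _)
    rw [Fin.sum_univ_succ]
    have e : ∑ i : Fin N, (b ^ l) ^ ((i.succ : Fin (N + 1)) : ℕ) * d i.succ =
        b ^ l * ∑ i : Fin N, (b ^ l) ^ (i : ℕ) * d i.succ := by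
      rw [mul_sum]
      refine sum_congr rfl fun i _ => ?_
      rw [Fin.val_succ, pow_succ]
      ring
    rw [e]
    simp only [Fin.val_zero, pow_zero, one_mul]
    set X := ∑ i : Fin N, (b ^ l) ^ (i : ℕ) * d i.succ with hX
    obtain ⟨d1, d2⟩ := hd 0
    have e2 : l * (N + 1) = l + l * N := by ring
    rw [e2]
    refine ⟨?_, ?_⟩
    · rw [pow_add]
      calc d 0 + b ^ l * X < b ^ l + b ^ l * X := by omega
        _ = b ^ l * (X + 1) := by ring
        _ ≤ b ^ l * b ^ (l * N) := Nat.mul_le_mul_left _ i1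
    · rw [run_concat b hb δ l (l * N) s (d 0) X d1, d2, i2]

end Pool.Agent.D0H92.RG
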