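import Pool.Agent.D0H92.RG.Gap
import Pool.Agent.D0H92.RG.Rate

set_option autoImplicit false
set_option linter.unusedSectionVars false

/-!
# Prime-free intervals around the elements of automatic sets
-/

namespace Pool.Agent.D0H92.RG

open Finset Filter Pool.Agent.D0H92.AG

/-- comparison of the values of the function `Rr` -/
lemma Rr_compare (C : ℝ) (hC : 1 ≤ C) : ∃ t₀ : ℝ, ∀ t s : ℝ, t₀ ≤ t → t ≤ s → s ≤ C * t →
    0 < Rr t ∧ Rr s ≤ 8 * C * Rr t ∧ Rr t ≤ 4 * Rr s := by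
  have h1 := Real.tendsto_log_atTop
  have h2 : Tendsto (fun x : ℝ => Real.log (Real.log x)) atTop atTop := h1.comp h1
  have h3 : Tendsto (fun x : ℝ => Real.log (Real.log (Real.log x))) atTop atTop := h1.comp h2
  obtain ⟨t₀, ht₀⟩ := eventually_atTop.1 ((eventually_ge_atTop (1 : ℝ)).and
    ((h1.eventually_ge_atTop (Real.log C + 1)).and ((h2.eventually_ge_atTop 1).and
      (h3.eventually_ge_atTop 1))))
  refine ⟨t₀, fun t s ht hts hs => ?_⟩
  obtain ⟨a1, a2, a3, a4⟩ := ht₀ t ht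
  set u := Real.log t with hu
  set v := Real.log u with hv
  set w := Real.log v with hw
  have hCl : 0 ≤ Real.log C := Real.log_nonneg hC
  have hu1 : 1 ≤ u := by linarith
  have hu0 : 0 < u := by linarith
  have hv0 : 0 < v := by linarith
  have ht0 : 0 < t := by linarith
  have hs0 : 0 < s := by linarith
  have b1 : u ≤ Real.log s := Real.log_le_log ht0 hts
  have b2 : Real.log s ≤ 2 * u := by
    have := Real.log_le_log hs0 hs
    rw [Real.log_mul (by linarith) ht0.ne'] at this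
    linarith
  have hls : 0 < Real.log s := by linarith
  have c1 : v ≤ Real.log (Real.log s) := Real.log_le_log hu0 b1
  have l2 := Real.log_two_lt_d9
  have c2 : Real.log (Real.log s) ≤ 2 * v := by
    have := Real.log_le_log hls b2
    rw [Real.log_mul (by norm_num) hu0.ne'] at this
    linarith
  have d2 : Real.log (Real.log (Real.log s)) ≤ 2 * w := by
    have := Real.log_le_log (by linarith : 0 < Real.log (Real.log s)) c2
    rw [Real.log_mul (by norm_num) hv0.ne'] at this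
    linarith
  have d1 : w ≤ Real.log (Real.log (Real.log s)) := Real.log_le_log hv0 c1
  have e1 : Rr t = t * u ^ 2 * w / v ^ 2 := rfl
  have e2 : Rr s = s * Real.log s ^ 2 * Real.log (Real.log (Real.log s)) / (Real.log (Real.log s)) ^ 2 := rfl
  have hw0 : 0 < w := by linarith
  have hls2 : 0 < Real.log (Real.log s) := by linarith
  have hls3 : 0 < Real.log (Real.log (Real.log s)) := by linarith
  refine ⟨by rw [e1]; positivity, ?_, ?_⟩
  · rw [e1, e2]
    calc s * Real.log s ^ 2 * Real.log (Real.log (Real.log s)) / (Real.log (Real.log s)) ^ 2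
        ≤ (C * t) * (2 * u) ^ 2 * (2 * w) / v ^ 2 := by
          refine div_le_div₀ (by positivity) ?_ (by positivity) (pow_le_pow_left₀ hv0.le c1 2)
          refine mul_le_mul (mul_le_mul hs (pow_le_pow_left₀ hls.le b2 2) (by positivity) (by positivity))
            d2 hls3.le (by positivity)
      _ = 8 * C * (t * u ^ 2 * w / v ^ 2) := by ring
  · rw [e1, e2]
    calc t * u ^ 2 * w / v ^ 2 = 4 * (t * u ^ 2 * w / (2 * v) ^ 2) := by field_simp; ring
      _ ≤ 4 * (s * Real.log s ^ 2 * Real.log (Real.log (Real.log s)) / (Real.log (Real.log s)) ^ 2) := by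
          refine mul_le_mul_of_nonneg_left ?_ (by norm_num)
          refine div_le_div₀ (by positivity) ?_ (by positivity) (pow_le_pow_left₀ hls2.le c2 2)
          exact mul_le_mul (mul_le_mul hts (pow_le_pow_left₀ hu0.le b1 2) (by positivity) hs0.le)
            d1 hw0.le (by positivity)

/-- the two sides of the count -/
lemma count_ineq {A V cL Λ η : ℝ} {b K l N m c₀ : ℕ} (hA : 1 ≤ A) (hη : 0 < η) (hη1 : η ≤ 1)
    (hΛ : 1 < Λ) (hb : 1 ≤ b) (hU : A ≤ (((m + 1 : ℕ) + 1) * b : ℝ) ^ K * Λ ^ (m + 1))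
    (hc : Λ ^ ((1 - η / 4) * l) ≤ cL) (hV : (cL ^ N) ^ (1 - η / 4) ≤ V)
    (hN : (m : ℝ) ≤ l * N + c₀)
    (hbig : K * Real.log ((m + 2) * b) + (c₀ + 1) * Real.log Λ ≤ η / 2 * Real.log Λ * m) :
    A ^ (1 - η) ≤ V := by
  have hΛ0 : 0 < Λ := by linarith
  have hlΛ : 0 < Real.log Λ := Real.log_pos hΛ
  have hcL0 : 0 < cL := lt_of_lt_of_le (Real.rpow_pos_of_pos hΛ0 _) hc
  have hb0 : (1 : ℝ) ≤ b := by exact_mod_cast hb
  refine le_trans ?_ hV
  rw [← Real.log_le_log_iff (Real.rpow_pos_of_pos (by linarith) _) (Real.rpow_pos_of_pos (by positivity) _),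
    Real.log_rpow (by linarith), Real.log_rpow (by positivity), Real.log_pow]
  have h1 : Real.log A ≤ K * Real.log ((m + 2) * b) + (m + 1) * Real.log Λ := by
    have := Real.log_le_log (by linarith : 0 < A) hU
    rw [Real.log_mul (by positivity) (by positivity), Real.log_pow, Real.log_pow] at this
    push_cast at this
    have e : ((m : ℝ) + 1 + 1) * b = (m + 2) * b := by ring
    rw [e] at this
    exact this
  have h2 : (1 - η / 4) * l * Real.log Λ ≤ Real.log cL := by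
    have := Real.log_le_log (Real.rpow_pos_of_pos hΛ0 _) hc
    rwa [Real.log_rpow hΛ0] at this
  have hm0 : (0 : ℝ) ≤ m := Nat.cast_nonneg m
  have hK0 : 0 ≤ (K : ℝ) * Real.log ((m + 2) * b) := by
    refine mul_nonneg (Nat.cast_nonneg _) (Real.log_nonneg ?_)
    nlinarith
  have h3 : (1 - η) * Real.log A ≤ (1 - η) * (K * Real.log ((m + 2) * b) + (m + 1) * Real.log Λ) :=
    mul_le_mul_of_nonneg_left h1 (by linarith)
  have h4 : (1 - η / 4) * (N * ((1 - η / 4) * l * Real.log Λ)) ≤ (1 - η / 4) * (N * Real.log cL) :=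
    mul_le_mul_of_nonneg_left (mul_le_mul_of_nonneg_left h2 (Nat.cast_nonneg _)) (by linarith)
  have h5 : (1 - η / 2) * (Real.log Λ * (m - c₀)) ≤ (1 - η / 4) * (N * ((1 - η / 4) * l * Real.log Λ)) := by
    have e1 : (1 - η / 4) * (N * ((1 - η / 4) * l * Real.log Λ)) = (1 - η / 4) ^ 2 * (Real.log Λ * (l * N)) := by ring
    rw [e1]
    have e2 : (1 - η / 2) ≤ (1 - η / 4) ^ 2 := by nlinarith
    have e3 : Real.log Λ * ((m : ℝ) - c₀) ≤ Real.log Λ * (l * N) :=
      mul_le_mul_of_nonneg_left (by linarith) hlΛ.le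
    have e4 : 0 ≤ Real.log Λ * ((l : ℝ) * N) := by positivity
    calc (1 - η / 2) * (Real.log Λ * (m - c₀)) ≤ (1 - η / 2) * (Real.log Λ * (l * N)) :=
          mul_le_mul_of_nonneg_left e3 (by linarith)
      _ ≤ _ := mul_le_mul_of_nonneg_right e2 e4
  have h6 : (1 - η) * (K * Real.log ((m + 2) * b) + (m + 1) * Real.log Λ) ≤
      (1 - η / 2) * (Real.log Λ * (m - c₀)) := by
    have e1 : (1 - η) * (K * Real.log ((m + 2) * b)) ≤ K * Real.log ((m + 2) * b) :=
      mul_le_of_le_one_left hK0 (by linarith)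
    have e2 : (0 : ℝ) ≤ c₀ * Real.log Λ := by positivity
    nlinarith
  linarith

lemma ev_big (b K c₀ : ℕ) (hb : 1 ≤ b) (Λ η : ℝ) (hΛ : 1 < Λ) (hη : 0 < η) : ∀ᶠ m : ℕ in atTop,
    (K : ℝ) * Real.log ((m + 2) * b) + (c₀ + 1) * Real.log Λ ≤ η / 2 * Real.log Λ * m := by
  have hlΛ : 0 < Real.log Λ := Real.log_pos hΛ
  have hb0 : (0 : ℝ) < b := by exact_mod_cast (by omega : 0 < b)
  have hcast : Tendsto (fun m : ℕ => ((m : ℝ) + 2) * b) atTop atTop :=
    (tendsto_atTop_add_const_right _ _ tendsto_natCast_atTop_atTop).atTop_mul_const hb0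
  obtain ⟨ε, hε⟩ : ∃ ε : ℝ, ε = η * Real.log Λ / (8 * (K + 1) * b) := ⟨_, rfl⟩
  have hε0 : 0 < ε := by rw [hε]; positivity
  have h1 := Real.isLittleO_log_id_atTop.def hε0
  filter_upwards [hcast.eventually h1, tendsto_natCast_atTop_atTop.eventually_ge_atTop (4 * (c₀ + 1) / η),
    eventually_ge_atTop 2] with m h2 h3 h4
  have hm : (2 : ℝ) ≤ m := by exact_mod_cast h4
  have hb1 : (1 : ℝ) ≤ b := by exact_mod_cast hb
  have hpos : 1 ≤ ((m : ℝ) + 2) * b := by nlinarith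
  rw [id, Real.norm_eq_abs, Real.norm_eq_abs, abs_of_nonneg (Real.log_nonneg hpos), abs_of_pos (by linarith)] at h2
  have h5 : (K : ℝ) * Real.log ((m + 2) * b) ≤ η / 4 * Real.log Λ * m := by
    calc (K : ℝ) * Real.log ((m + 2) * b) ≤ K * (ε * ((m + 2) * b)) :=
          mul_le_mul_of_nonneg_left h2 (Nat.cast_nonneg _)
      _ ≤ (K + 1) * (ε * ((2 * m) * b)) := by
          refine mul_le_mul (by linarith) ?_ (by positivity) (by positivity)
          refine mul_le_mul_of_nonneg_left ?_ hε0.le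
          exact mul_le_mul_of_nonneg_right (by linarith) hb0.le
      _ = η / 4 * Real.log Λ * m := by rw [hε]; field_simp; ring
  have h6 : ((c₀ : ℝ) + 1) * Real.log Λ ≤ η / 4 * Real.log Λ * m := by
    rw [div_le_iff₀ hη] at h3
    nlinarith
  linarith

open Classical in
lemma mem_Lp {σ : Type} {b : ℕ} {δ : σ → ℕ → σ} {l : ℕ} {s : σ} {d : ℕ} :
    d ∈ Lp b δ l s ↔ d < b ^ l ∧ run b δ l s d = s := by
  unfold Lp
  rw [mem_filter, mem_range]

/-- **Automatic sets.** -/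
theorem automatic2 {σ : Type} [Finite σ] (b : ℕ) (hb : 2 ≤ b) (M : DFA ℕ σ)
    (hS : ∀ k : ℕ, ∃ᶠ N : ℕ in atTop,
      Real.log N ^ k < ({v : ℕ | v < N ∧ Nat.digits b v ∈ M.accepts}.ncard : ℝ)) (g : ℕ) (hg : 1 ≤ g)
    (η : ℝ) (hη : 0 < η) :
    ∃ κ : ℝ, 0 < κ ∧ ∀ᶠ x : ℝ in atTop, ∀ c : ℤ,
      ({n : ℕ | (n : ℝ) ≤ x ∧ Nat.digits b n ∈ M.accepts}.ncard : ℝ) ^ (1 - η) ≤
      ({n : ℕ | (n : ℝ) ≤ x ∧ Nat.digits b n ∈ M.accepts ∧
        GapAt (κ * Rr (Real.log x)) (Real.exp (2 * Real.log x / Real.log (Real.log x))) (g * n + c)}.ncard : ℝ) := by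
  classical
  have := Fintype.ofFinite σ
  obtain ⟨m₀, hm₀⟩ := exists_growth b hb M (Fintype.card (σ × σ)) hS
  have e1 : ∀ m, {v : ℕ | v < b ^ m ∧ Nat.digits b v ∈ M.accepts} =
      (((range (b ^ m)).filter fun v =>
        (run b (pad M.step) m (M.start, M.start) v).2 ∈ M.accept : Finset ℕ) : Set ℕ) := by
    intro m
    ext v
    rw [Set.mem_ofPred_eq, mem_coe, mem_filter, mem_range]
    constructor
    · rintro ⟨h1, h2⟩
      exact ⟨h1, (pad_accepts b hb M m v h1).2 h2⟩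
    · rintro ⟨h1, h2⟩
      exact ⟨h1, (pad_accepts b hb M m v h1).1 h2⟩
  rw [e1, Set.ncard_coe_finset] at hm₀
  obtain ⟨Λ, hΛ, hcount, hrate⟩ := exists_rate b hb (pad M.step) (fun s => s.2 ∈ M.accept) (M.start, M.start) m₀ (by
    convert hm₀ using 2)
  have hcount' : ∀ m : ℕ, ({v : ℕ | v < b ^ m ∧ Nat.digits b v ∈ M.accepts}.ncard : ℝ) ≤
      (((m : ℝ) + 1) * b) ^ Fintype.card (σ × σ) * Λ ^ m := by
    intro m
    rw [e1, Set.ncard_coe_finset]
    convert hcount m using 3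
  obtain ⟨η₁, hη₁⟩ : ∃ η₁, η₁ = min η 1 := ⟨_, rfl⟩
  have hη₁0 : 0 < η₁ := by rw [hη₁]; exact lt_min hη one_pos
  have hη₁1 : η₁ ≤ 1 := by rw [hη₁]; exact min_le_right _ _
  have hη₁2 : η₁ ≤ η := by rw [hη₁]; exact min_le_left _ _
  obtain ⟨s, l, ⟨m1, w1, m2, w2, hw1, hr1, hw2, hG⟩, hl, hrl⟩ := hrate (η₁ / 4) (by positivity)
  have hl1 : (1 : ℝ) ≤ l := by exact_mod_cast hl
  have hC2 : 2 ≤ (Lp b (pad M.step) l s).card := by
    have h1 : (1 : ℝ) < (Lp b (pad M.step) l s).card := by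
      refine lt_of_lt_of_le ?_ hrl
      refine Real.one_lt_rpow hΛ ?_
      nlinarith
    have h2 : 1 < (Lp b (pad M.step) l s).card := by exact_mod_cast h1
    omega
  have hB : 2 ≤ b ^ l := by
    calc 2 ≤ b := hb
      _ = b ^ 1 := (pow_one b).symm
      _ ≤ b ^ l := Nat.pow_le_pow_right (by omega) hl
  obtain ⟨κ, hκ, h⟩ := digit_gap (b ^ l) (g * b ^ m1) hB (Nat.mul_pos hg (by positivity)) (η₁ / 4) (by positivity)
  have hb0 : (0 : ℝ) < b := by exact_mod_cast (by omega : 0 < b)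
  have hlb : (0.69 : ℝ) ≤ Real.log b := by
    have h1 := Real.log_two_gt_d9
    have h2 := Real.log_le_log (by norm_num : (0 : ℝ) < 2) (by exact_mod_cast hb : (2 : ℝ) ≤ b)
    linarith
  obtain ⟨C₁, hC₁⟩ : ∃ C₁ : ℝ, C₁ = 4 * (l * (m1 + m2 + l + 2) * Real.log b) := ⟨_, rfl⟩
  have hC₁1 : 1 ≤ C₁ := by
    rw [hC₁]
    have : (1 : ℝ) ≤ l * (m1 + m2 + l + 2) := by
      have h1 : (1 : ℝ) ≤ (m1 + m2 + l + 2) := by
        have : (0 : ℝ) ≤ m1 := Nat.cast_nonneg _
        have : (0 : ℝ) ≤ m2 := Nat.cast_nonneg _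
        linarith
      nlinarith
    nlinarith
  obtain ⟨t₀, hR⟩ := Rr_compare C₁ hC₁1
  obtain ⟨t₁, hR'⟩ := Rr_compare 2 (by norm_num)
  refine ⟨κ / (32 * C₁), by positivity, ?_⟩
  -- the choice of `m` and `N`
  have hm : Tendsto (fun x : ℝ => Nat.log b ⌊x⌋₊) atTop atTop :=
    (tendsto_atTop_atTop_of_monotone (Nat.log_monotone (b := b)) fun n =>
      ⟨b ^ n, (Nat.log_pow (by omega) n).ge⟩).comp tendsto_nat_floor_atTop
  have hN : Tendsto (fun x : ℝ => (Nat.log b ⌊x⌋₊ - m1 - m2) / l) atTop atTop := by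
    refine (Nat.tendsto_div_const_atTop (by omega)).comp ?_
    exact (tendsto_sub_atTop_nat m2).comp ((tendsto_sub_atTop_nat m1).comp hm)
  have hNr : Tendsto (fun x : ℝ => (((Nat.log b ⌊x⌋₊ - m1 - m2) / l : ℕ) : ℝ)) atTop atTop :=
    tendsto_natCast_atTop_atTop.comp hN
  filter_upwards [hN.eventually h, hm.eventually (ev_big b (Fintype.card (σ × σ)) (m1 + m2 + l) (by omega) Λ η₁ hΛ hη₁0),
    hNr.eventually_ge_atTop t₀, hNr.eventually_ge_atTop (Real.exp 1), Real.tendsto_log_atTop.eventually_ge_atTop t₁,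
    hm.eventually_ge_atTop (m1 + m2 + l), eventually_gt_atTop 1,
    Real.tendsto_log_atTop.eventually_ge_atTop (Real.exp 1)] with x h1 h2 h3 h3' h4 h5 hx1 hlx1 c
  set m := Nat.log b ⌊x⌋₊ with hmdef
  set N := (m - m1 - m2) / l with hNdef
  have hx0 : 0 < x := by linarith
  have hxfl : 1 ≤ ⌊x⌋₊ := Nat.le_floor (by push_cast; linarith)
  have hbm : ((b : ℝ) ^ m) ≤ x := by
    have e2 : b ^ m ≤ ⌊x⌋₊ := Nat.pow_log_le_self b (by omega)
    calc ((b : ℝ) ^ m) ≤ (⌊x⌋₊ : ℝ) := by exact_mod_cast e2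
      _ ≤ x := Nat.floor_le hx0.le
  have hbm' : ⌊x⌋₊ < b ^ (m + 1) := Nat.lt_pow_succ_log_self (by omega) _
  have hNm : l * N ≤ m - m1 - m2 := Nat.mul_div_le _ _
  have hNm' : m - m1 - m2 < l * N + l := by
    have := Nat.lt_mul_div_succ (m - m1 - m2) (by omega : 0 < l)
    rw [← hNdef] at this
    calc m - m1 - m2 < l * (N + 1) := this
      _ = l * N + l := by ring
  have hlx : 0 < Real.log x := Real.log_pos hx1
  have hlogm : (m : ℝ) * Real.log b ≤ Real.log x := by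
    have := Real.log_le_log (by positivity) hbm
    rwa [Real.log_pow] at this
  have hlogm' : Real.log x ≤ (m + 1) * Real.log b := by
    have e2 : x ≤ (b : ℝ) ^ (m + 1) := by
      have e3 : x < ⌊x⌋₊ + 1 := Nat.lt_floor_add_one x
      have e4 : ((⌊x⌋₊ : ℝ) + 1) ≤ (b : ℝ) ^ (m + 1) := by exact_mod_cast hbm'
      linarith
    have := Real.log_le_log hx0 e2
    rw [Real.log_pow] at this
    push_cast at this
    exact this
  have hNr1 : 1 ≤ N := by
    have e2 : (1 : ℝ) < N := lt_of_lt_of_le (Real.one_lt_exp_iff.2 one_pos) h3'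
    have e3 : 1 < N := by exact_mod_cast e2
    omega
  have hN1 : (1 : ℝ) ≤ N := by exact_mod_cast hNr1
  -- comparison of `N` and `log x`
  have hN2 : (N : ℝ) ≤ 2 * Real.log x := by
    have e2 : (N : ℝ) ≤ m := by
      have : N ≤ l * N := Nat.le_mul_of_pos_left _ (by omega)
      exact_mod_cast (by omega : N ≤ m)
    nlinarith
  have hN3 : 2 * Real.log x ≤ C₁ * N := by
    have e2 : ((m : ℝ) + 1) ≤ l * N + m1 + m2 + l + 1 := by
      have : m + 1 ≤ l * N + m1 + m2 + l + 1 := by omega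
      exact_mod_cast this
    have e3 : ((l : ℝ) * N + m1 + m2 + l + 1) ≤ 2 * (l * (m1 + m2 + l + 2)) * N := by
      have a1 : (0 : ℝ) ≤ m1 := Nat.cast_nonneg _
      have a2 : (0 : ℝ) ≤ m2 := Nat.cast_nonneg _
      have a3 : ((m1 : ℝ) + m2 + l + 1) ≤ (l * (m1 + m2 + l + 2)) * N := by
        calc ((m1 : ℝ) + m2 + l + 1) ≤ 1 * (m1 + m2 + l + 2) * 1 := by linarith
          _ ≤ (l * (m1 + m2 + l + 2)) * N :=
              mul_le_mul (mul_le_mul_of_nonneg_right hl1 (by linarith)) hN1 (by norm_num) (by positivity)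
      have a4 : (l : ℝ) * N ≤ (l * (m1 + m2 + l + 2)) * N := by
        refine mul_le_mul_of_nonneg_right ?_ (by linarith)
        exact le_mul_of_one_le_right (by linarith) (by linarith)
      linarith
    calc 2 * Real.log x ≤ 2 * ((m + 1) * Real.log b) := by linarith
      _ ≤ 2 * ((2 * (l * (m1 + m2 + l + 2)) * N) * Real.log b) := by
          refine mul_le_mul_of_nonneg_left ?_ (by norm_num)
          exact mul_le_mul_of_nonneg_right (e2.trans e3) (by linarith)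
      _ = C₁ * N := by rw [hC₁]; ring
  obtain ⟨hR1, hR2, -⟩ := hR N (2 * Real.log x) h3 hN2 hN3
  obtain ⟨-, -, hR3⟩ := hR' (Real.log x) (2 * Real.log x) h4 (by linarith) le_rfl
  have hRec : κ / (32 * C₁) * Rr (Real.log x) ≤ κ * Rr N := by
    calc κ / (32 * C₁) * Rr (Real.log x) ≤ κ / (32 * C₁) * (4 * (8 * C₁ * Rr N)) := by
          refine mul_le_mul_of_nonneg_left ?_ (by positivity)
          linarith
      _ = κ * Rr N := by field_simp; ring
  have hexp : Real.exp (N / Real.log N) ≤ Real.exp (2 * Real.log x / Real.log (Real.log x)) := by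
    refine Real.exp_le_exp.2 ?_
    have hNe : Real.exp 1 ≤ (N : ℝ) := h3'
    have e2 := Real.log_div_self_antitoneOn (show (N : ℝ) ∈ {x | Real.exp 1 ≤ x} from hNe)
      (show 2 * Real.log x ∈ {x | Real.exp 1 ≤ x} from hNe.trans hN2) hN2
    simp only at e2
    have hlN : 0 < Real.log N := Real.log_pos (lt_of_lt_of_le (Real.one_lt_exp_iff.2 one_pos) hNe)
    have hl2 : 0 < Real.log (2 * Real.log x) :=
      Real.log_pos (lt_of_lt_of_le (Real.one_lt_exp_iff.2 one_pos) (hNe.trans hN2))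
    have hllx : 0 < Real.log (Real.log x) :=
      Real.log_pos (lt_of_lt_of_le (Real.one_lt_exp_iff.2 one_pos) hlx1)
    have e3 : (N : ℝ) / Real.log N ≤ 2 * Real.log x / Real.log (2 * Real.log x) := by
      rw [div_le_div_iff₀ hlN hl2]
      rw [div_le_div_iff₀ (by positivity) (by linarith)] at e2
      linarith
    refine e3.trans ?_
    refine div_le_div_of_nonneg_left (by positivity) hllx ?_
    exact Real.log_le_log hlx (by linarith)
  -- the members
  set C := Lp b (pad M.step) l s with hC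
  have hCmem : ∀ d ∈ C, d < b ^ l ∧ run b (pad M.step) l s d = s := by
    intro d hd
    rw [hC] at hd
    exact mem_Lp.1 hd
  obtain ⟨W, hW1, hW2, hW3⟩ := h1 (fun _ => C) (fun _ d hd => (hCmem d hd).1) (fun _ => hC2)
    (c + g * (w1 + b ^ (m1 + l * N) * w2 : ℕ))
  set f : (Fin N → ℕ) → ℕ := fun d =>
    (w1 + b ^ m1 * (∑ j : Fin N, (b ^ l) ^ (j : ℕ) * d j)) + b ^ (m1 + l * N) * w2 with hf
  have hfd : ∀ d ∈ W, f d < b ^ (m1 + l * N + m2) ∧ Nat.digits b (f d) ∈ M.accepts := by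
    intro d hd
    have hd1 := Fintype.mem_piFinset.1 (hW1 hd)
    obtain ⟨r1, r2⟩ := run_loops b (by omega) (pad M.step) s l d (fun j => hCmem _ (hd1 j))
    set X := ∑ j : Fin N, (b ^ l) ^ (j : ℕ) * d j with hX
    have c3 : w1 + b ^ m1 * X < b ^ (m1 + l * N) := by
      rw [pow_add b m1]
      calc w1 + b ^ m1 * X < b ^ m1 + b ^ m1 * X := by omega
        _ = b ^ m1 * (X + 1) := by ring
        _ ≤ b ^ m1 * b ^ (l * N) := Nat.mul_le_mul_left _ r1
    have c4 : (w1 + b ^ m1 * X) + b ^ (m1 + l * N) * w2 < b ^ (m1 + l * N + m2) := by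
      rw [pow_add b (m1 + l * N)]
      calc (w1 + b ^ m1 * X) + b ^ (m1 + l * N) * w2 < b ^ (m1 + l * N) + b ^ (m1 + l * N) * w2 := by omega
        _ = b ^ (m1 + l * N) * (w2 + 1) := by ring
        _ ≤ b ^ (m1 + l * N) * b ^ m2 := Nat.mul_le_mul_left _ hw2
    refine ⟨c4, ?_⟩
    rw [← pad_accepts b hb M _ _ c4]
    rw [run_concat b (by omega) _ (m1 + l * N) m2 _ _ w2 c3, run_concat b (by omega) _ m1 (l * N) _ w1 X hw1,
      hr1, r2]
    exact hG
  have hfx : ∀ d ∈ W, (f d : ℝ) ≤ x := by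
    intro d hd
    have e2 := (hfd d hd).1
    have e3 : b ^ (m1 + l * N + m2) ≤ b ^ m := Nat.pow_le_pow_right (by omega) (by omega)
    calc (f d : ℝ) ≤ ((b ^ m : ℕ) : ℝ) := by exact_mod_cast (e2.le.trans e3)
      _ ≤ x := by push_cast; exact hbm
  have hinj : Set.InjOn f W := by
    intro d hd d' hd' heq
    have hd1 := Fintype.mem_piFinset.1 (hW1 hd)
    have hd2 := Fintype.mem_piFinset.1 (hW1 hd')
    have e2 : b ^ m1 * (∑ j : Fin N, (b ^ l) ^ (j : ℕ) * d j) = b ^ m1 * (∑ j : Fin N, (b ^ l) ^ (j : ℕ) * d' j) := by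
      have : w1 + b ^ m1 * (∑ j : Fin N, (b ^ l) ^ (j : ℕ) * d j) =
          w1 + b ^ m1 * (∑ j : Fin N, (b ^ l) ^ (j : ℕ) * d' j) := Nat.add_right_cancel heq
      exact Nat.add_left_cancel this
    have e3 := Nat.eq_of_mul_eq_mul_left (by positivity : 0 < b ^ m1) e2
    exact digits_inj (b ^ l) (by positivity) d d' (fun j => (hCmem _ (hd1 j)).1) (fun j => (hCmem _ (hd2 j)).1) e3
  have hfinA : {n : ℕ | (n : ℝ) ≤ x ∧ Nat.digits b n ∈ M.accepts}.Finite :=
    (Set.finite_le_nat ⌊x⌋₊).subset fun n hn => Nat.le_floor hn.1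
  have hfin : {n : ℕ | (n : ℝ) ≤ x ∧ Nat.digits b n ∈ M.accepts ∧
      GapAt (κ / (32 * C₁) * Rr (Real.log x)) (Real.exp (2 * Real.log x / Real.log (Real.log x)))
        (g * n + c)}.Finite :=
    hfinA.subset fun n hn => ⟨hn.1, hn.2.1⟩
  have hsub : ((W.image f : Finset ℕ) : Set ℕ) ⊆ {n : ℕ | (n : ℝ) ≤ x ∧ Nat.digits b n ∈ M.accepts ∧
      GapAt (κ / (32 * C₁) * Rr (Real.log x)) (Real.exp (2 * Real.log x / Real.log (Real.log x))) (g * n + c)} := by
    intro n hn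
    rw [mem_coe, mem_image] at hn
    obtain ⟨d, hd, rfl⟩ := hn
    refine ⟨hfx d hd, (hfd d hd).2, ?_⟩
    have e2 : ((g : ℤ) * ((f d : ℕ) : ℤ) + c : ℤ) =
        val (c + g * (w1 + b ^ (m1 + l * N) * w2 : ℕ)) (g * b ^ m1) (b ^ l) d := by
      rw [hf]
      unfold val
      push_cast
      ring
    rw [e2]
    intro k hk
    obtain ⟨k1, q, k2, k3, k4⟩ := hW3 d hd k (hk.trans hRec)
    exact ⟨k1, q, k2, k3.trans hexp, k4⟩
  have hcard := Set.ncard_le_ncard hsub hfin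
  rw [Set.ncard_coe_finset, card_image_of_injOn hinj] at hcard
  have hcardr : (W.card : ℝ) ≤ ({n : ℕ | (n : ℝ) ≤ x ∧ Nat.digits b n ∈ M.accepts ∧
      GapAt (κ / (32 * C₁) * Rr (Real.log x)) (Real.exp (2 * Real.log x / Real.log (Real.log x)))
        (g * n + c)}.ncard : ℝ) := by exact_mod_cast hcard
  have hW2' : (((C.card : ℝ)) ^ N) ^ (1 - η₁ / 4) ≤ W.card := by
    rw [Fintype.card_piFinset, prod_const, card_univ, Fintype.card_fin] at hW2
    push_cast at hW2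
    exact hW2
  have hC1 : (1 : ℝ) ≤ C.card := by exact_mod_cast (by omega : 1 ≤ C.card)
  have hWpos : (0 : ℝ) < W.card := lt_of_lt_of_le (Real.rpow_pos_of_pos (by positivity) _) hW2'
  -- the upper bound
  have hA1 : (1 : ℝ) ≤ ({n : ℕ | (n : ℝ) ≤ x ∧ Nat.digits b n ∈ M.accepts}.ncard : ℝ) := by
    have e2 : (W.image f).card ≤ {n : ℕ | (n : ℝ) ≤ x ∧ Nat.digits b n ∈ M.accepts}.ncard := by
      rw [← Set.ncard_coe_finset]
      exact Set.ncard_le_ncard (fun n hn => ⟨(hsub hn).1, (hsub hn).2.1⟩) hfinA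
    rw [card_image_of_injOn hinj] at e2
    have e3 : 1 ≤ W.card := by
      have : 0 < W.card := by exact_mod_cast hWpos
      omega
    exact_mod_cast e3.trans e2
  have hAU : ({n : ℕ | (n : ℝ) ≤ x ∧ Nat.digits b n ∈ M.accepts}.ncard : ℝ) ≤
      (((m + 1 : ℕ) + 1) * b : ℝ) ^ (Fintype.card (σ × σ)) * Λ ^ (m + 1) := by
    refine le_trans ?_ (hcount' (m + 1))
    have e2 : {n : ℕ | (n : ℝ) ≤ x ∧ Nat.digits b n ∈ M.accepts} ⊆
        {v : ℕ | v < b ^ (m + 1) ∧ Nat.digits b v ∈ M.accepts} := by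
      intro n hn
      refine ⟨?_, hn.2⟩
      exact (Nat.le_floor hn.1).trans_lt hbm'
    have e3 : {v : ℕ | v < b ^ (m + 1) ∧ Nat.digits b v ∈ M.accepts}.Finite :=
      (Set.finite_lt_nat (b ^ (m + 1))).subset fun v hv => hv.1
    exact_mod_cast Set.ncard_le_ncard e2 e3
  have hfinal := count_ineq (V := (W.card : ℝ)) (cL := (C.card : ℝ)) (c₀ := m1 + m2 + l) (l := l) (N := N) hA1
    hη₁0 hη₁1 hΛ (by omega : 1 ≤ b) hAU hrl hW2' (by
      have : m ≤ l * N + (m1 + m2 + l) := by omega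
      exact_mod_cast this) h2
  calc ({n : ℕ | (n : ℝ) ≤ x ∧ Nat.digits b n ∈ M.accepts}.ncard : ℝ) ^ (1 - η)
      ≤ ({n : ℕ | (n : ℝ) ≤ x ∧ Nat.digits b n ∈ M.accepts}.ncard : ℝ) ^ (1 - η₁) :=
        Real.rpow_le_rpow_of_exponent_le hA1 (by linarith)
    _ ≤ W.card := hfinal
    _ ≤ _ := hcardr

end Pool.Agent.D0H92.RG
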