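import Pool.Agent.H256R2.SC.V1
import Pool.Agent.D0H92.RG.Dig

set_option autoImplicit false
set_option linter.unusedSectionVars false

/-!
# Functions of the colours in Fourier series
-/

namespace Pool.Agent.D0H92.RG

open Finset Pool.Agent.D0H92.AG Pool.Agent.H256R2.SC

variable {κ : Type} [Fintype κ] [DecidableEq κ]

lemma col_congr {PP : Finset ℕ} {res : ℕ → κ → ℤ}
    (hinj : ∀ p ∈ PP, ∀ k l, k ≠ l → ¬ ((p : ℤ) ∣ res p k - res p l)) {v w : ℤ} {i : Fin PP.card}
    (h : ((emb PP i : ℕ) : ℤ) ∣ v - w) : colr PP res v i = colr PP res w i := by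
  have key : ∀ v w : ℤ, ((emb PP i : ℕ) : ℤ) ∣ v - w → ∀ k, colr PP res v i = some k →
      colr PP res w i = some k := by
    intro v w h k hk
    rw [colr_eq hinj] at hk ⊢
    have := dvd_sub hk h
    have e : v - res (emb PP i) k - (v - w) = w - res (emb PP i) k := by ring
    rwa [e] at this
  have h' : ((emb PP i : ℕ) : ℤ) ∣ w - v := by
    have := (dvd_neg (a := ((emb PP i : ℕ) : ℤ))).2 h
    rwa [neg_sub] at this
  cases hv : colr PP res v i with
  | some k => exact (key v w h k hv).symm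
  | none =>
    cases hw : colr PP res w i with
    | none => rfl
    | some k =>
      have := key w v h' k hw
      rw [hv] at this
      exact absurd this (by simp)

open Classical in
/-- the Fourier coefficients of the indicator functions of the colours at one prime -/
noncomputable def La (PP : Finset ℕ) (res : ℕ → κ → ℤ) (i : Fin PP.card) (a : ℕ) (c : Option κ) : ℂ :=
  (∑ w ∈ (range (emb PP i)).filter (fun w : ℕ => colr PP res (w : ℤ) i = c),
    ee (-(a * ((w : ℝ) / (emb PP i : ℕ))))) / (emb PP i : ℕ)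

section

variable {PP : Finset ℕ} (hP : ∀ p ∈ PP, p.Prime) {res : ℕ → κ → ℤ}
    (hinj : ∀ p ∈ PP, ∀ k l, k ≠ l → ¬ ((p : ℤ) ∣ res p k - res p l))

include hP in
lemma emb_pos (i : Fin PP.card) : 0 < emb PP i := (hP _ (emb_mem PP i)).pos

/-- the representative of `v` -/
lemma rep (p : ℕ) (hp : 0 < p) (v : ℤ) : (v % p).toNat < p ∧ (p : ℤ) ∣ v - ((v % p).toNat : ℕ) ∧
    ∀ w : ℕ, w < p → (p : ℤ) ∣ v - w → w = (v % p).toNat := by
  have h1 := Int.emod_nonneg v (by omega : (p : ℤ) ≠ 0)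
  have h2 := Int.emod_lt_of_pos v (by omega : (0 : ℤ) < p)
  refine ⟨by omega, ?_, ?_⟩
  · rw [Int.toNat_of_nonneg h1]
    exact Int.dvd_self_sub_emod
  · intro w hw hd
    have h3 : v % p = w := by
      have h4 : (w : ℤ) ≡ v [ZMOD p] := (Int.modEq_iff_dvd).2 hd
      unfold Int.ModEq at h4
      rw [Int.emod_eq_of_lt (by omega) (by omega)] at h4
      exact h4.symm
    omega

include hP hinj in
lemma ind_expand (v : ℤ) (i : Fin PP.card) (c : Option κ) :
    (if colr PP res v i = c then (1 : ℂ) else 0) =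
      ∑ a ∈ range (emb PP i), La PP res i a c * ee (a * ((v : ℝ) / (emb PP i : ℕ))) := by
  classical
  set p := (emb PP i : ℕ) with hp
  have hp0 : 0 < p := emb_pos hP i
  have hpc : (p : ℂ) ≠ 0 := by exact_mod_cast hp0.ne'
  have h1 : ∀ a ∈ range p, La PP res i a c * ee (a * ((v : ℝ) / p)) =
      (∑ w ∈ (range p).filter (fun w : ℕ => colr PP res (w : ℤ) i = c), ee (a * (((v - w : ℤ) : ℝ) / p))) / p := by
    intro a _
    unfold La
    rw [div_mul_eq_mul_div, Finset.sum_mul]
    congr 1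
    refine sum_congr (by rw [hp]) fun w _ => ?_
    rw [← ee_add]
    congr 1
    rw [← hp]
    push_cast
    ring
  rw [sum_congr rfl h1, ← sum_div, sum_comm]
  have h2 : ∀ w ∈ (range p).filter (fun w : ℕ => colr PP res (w : ℤ) i = c),
      ∑ a ∈ range p, ee (a * (((v - w : ℤ) : ℝ) / p)) = if (p : ℤ) ∣ v - w then (p : ℂ) else 0 :=
    fun w _ => orth p hp0 (v - w)
  rw [sum_congr rfl h2]
  obtain ⟨r1, r2, r3⟩ := rep p hp0 v
  set w₀ := (v % p).toNat with hw₀
  have h3 : colr PP res v i = colr PP res (w₀ : ℤ) i := col_congr hinj r2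
  rw [eq_div_iff hpc]
  rw [sum_filter]
  rw [sum_eq_single w₀]
  · rw [if_pos r2, ← h3]
    split_ifs <;> simp
  · intro w hw hne
    have h4 : ¬ (p : ℤ) ∣ v - w := fun hd => hne (r3 w (mem_range.1 hw) hd)
    rw [if_neg h4]
    simp
  · intro h
    exact absurd (mem_range.2 r1) h

include hP in
lemma sum_La (i : Fin PP.card) (a : ℕ) (ha : a < emb PP i) :
    ∑ c : Option κ, La PP res i a c = if a = 0 then 1 else 0 := by
  classical
  set p := (emb PP i : ℕ) with hp
  have hp0 : 0 < p := emb_pos hP i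
  have hpc : (p : ℂ) ≠ 0 := by exact_mod_cast hp0.ne'
  unfold La
  rw [← sum_div]
  have h1 := sum_fiberwise (range p) (fun w : ℕ => colr PP res (w : ℤ) i)
    (fun w => ee (-(a * ((w : ℝ) / p))))
  have h2 : ∑ w ∈ range p, ee (-(a * ((w : ℝ) / p))) = if (p : ℤ) ∣ -(a : ℤ) then (p : ℂ) else 0 := by
    rw [← orth p hp0 (-(a : ℤ))]
    refine sum_congr rfl fun w _ => ?_
    congr 1
    push_cast
    ring
  have h3 : ∑ c : Option κ, ∑ w ∈ (range (emb PP i)).filter (fun w : ℕ => colr PP res (w : ℤ) i = c),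
      ee (-(a * ((w : ℝ) / (emb PP i : ℕ)))) = ∑ w ∈ range p, ee (-(a * ((w : ℝ) / p))) := by
    rw [← h1]
  rw [h3, h2]
  have h4 : (p : ℤ) ∣ -(a : ℤ) ↔ a = 0 := by
    rw [dvd_neg, Int.natCast_dvd_natCast]
    constructor
    · intro h
      exact Nat.eq_zero_of_dvd_of_lt h ha
    · rintro rfl
      exact dvd_zero _
  by_cases h5 : a = 0
  · rw [if_pos h5, if_pos (h4.2 h5), div_self hpc]
  · rw [if_neg h5, if_neg (fun h => h5 (h4.1 h)), zero_div]

include hP hinj in
lemma La_some (i : Fin PP.card) (a : ℕ) (k : κ) :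
    La PP res i a (some k) =
      ee (-(a * ((((res (emb PP i) k) % (emb PP i : ℕ)).toNat : ℝ) / (emb PP i : ℕ)))) / (emb PP i : ℕ) := by
  classical
  set p := (emb PP i : ℕ) with hp
  have hp0 : 0 < p := emb_pos hP i
  obtain ⟨r1, r2, r3⟩ := rep p hp0 (res p k)
  set w₀ := ((res p k) % p).toNat with hw₀
  unfold La
  congr 1
  have h1 : (range (emb PP i)).filter (fun w : ℕ => colr PP res (w : ℤ) i = some k) = {w₀} := by
    ext w
    rw [mem_filter, mem_range, mem_singleton, colr_eq hinj]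
    constructor
    · rintro ⟨h2, h3⟩
      apply r3 w h2
      have := (dvd_neg (a := (p : ℤ))).2 h3
      rwa [neg_sub] at this
    · rintro rfl
      refine ⟨r1, ?_⟩
      have := (dvd_neg (a := (p : ℤ))).2 r2
      rwa [neg_sub] at this
  rw [h1, sum_singleton]

include hP hinj in
lemma La_some_norm (i : Fin PP.card) (a : ℕ) (k : κ) :
    ‖La PP res i a (some k)‖ = 1 / (emb PP i : ℕ) := by
  rw [La_some hP hinj, norm_div, ee_norm, Complex.norm_natCast]

include hP hinj in
lemma La_zero (i : Fin PP.card) (c : Option κ) :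
    La PP res i 0 c = (wt (1 / ((emb PP i : ℕ) : ℝ)) c : ℝ) := by
  have hs : ∀ k, La PP res i 0 (some k) = ((1 / ((emb PP i : ℕ) : ℝ) : ℝ) : ℂ) := by
    intro k
    rw [La_some hP hinj]
    simp [ee_zero]
  cases c with
  | some k => exact hs k
  | none =>
    have h1 := sum_La (res := res) hP i 0 (emb_pos hP i)
    rw [if_pos rfl, Fintype.sum_option] at h1
    simp only [hs] at h1
    rw [sum_const, card_univ, nsmul_eq_mul] at h1
    have h2 : La PP res i 0 none = 1 - (Fintype.card κ : ℂ) * ((1 / ((emb PP i : ℕ) : ℝ) : ℝ) : ℂ) :=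
      eq_sub_of_add_eq h1
    rw [h2]
    simp only [wt]
    push_cast
    ring

include hP hinj in
lemma La_none_norm (i : Fin PP.card) (a : ℕ) (ha : a < emb PP i) (ha0 : a ≠ 0) :
    ‖La PP res i a none‖ ≤ (Fintype.card κ : ℝ) * (1 / (emb PP i : ℕ)) := by
  have h1 := sum_La (res := res) hP i a ha
  rw [if_neg ha0, Fintype.sum_option] at h1
  have h2 : La PP res i a none = - ∑ k, La PP res i a (some k) := eq_neg_of_add_eq_zero_left h1
  rw [h2, norm_neg]
  refine (norm_sum_le _ _).trans ?_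
  simp only [La_some_norm hP hinj]
  rw [sum_const, card_univ, nsmul_eq_mul]

/-- the Fourier coefficient of a function of the colours -/
noncomputable def Fh (PP : Finset ℕ) (res : ℕ → κ → ℤ) (F : Col PP.card κ → ℝ) (a : Fin PP.card → ℕ) : ℂ :=
  ∑ x : Col PP.card κ, (F x : ℂ) * ∏ i, La PP res i (a i) (x i)

/-- the frequencies -/
noncomputable def theta (PP : Finset ℕ) (P0 b : ℕ) (a : Fin PP.card → ℕ) : ℝ :=
  (b : ℝ) / P0 + ∑ i, (a i : ℝ) / (emb PP i : ℕ)

/-- the frequencies at the sieving primes -/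
noncomputable def II (PP : Finset ℕ) : Finset (Fin PP.card → ℕ) := Fintype.piFinset fun i => range (emb PP i)

include hP hinj in
lemma expand (F : Col PP.card κ → ℝ) (v : ℤ) :
    ((F (colr PP res v) : ℝ) : ℂ) =
      ∑ a ∈ II PP, Fh PP res F a * ee (∑ i, (a i : ℝ) / (emb PP i : ℕ) * v) := by
  have h1 : ((F (colr PP res v) : ℝ) : ℂ) =
      ∑ x : Col PP.card κ, (F x : ℂ) * ∏ i, (if colr PP res v i = x i then (1 : ℂ) else 0) := by
    rw [sum_eq_single (colr PP res v)]
    · simp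
    · intro x _ hx
      obtain ⟨i, hi⟩ : ∃ i, x i ≠ colr PP res v i := by
        by_contra hcon
        push Not at hcon
        exact hx (funext hcon)
      rw [prod_eq_zero (mem_univ i) (if_neg (Ne.symm hi)), mul_zero]
    · intro h
      exact absurd (mem_univ _) h
  rw [h1]
  have h2 : ∀ x : Col PP.card κ, (F x : ℂ) * ∏ i, (if colr PP res v i = x i then (1 : ℂ) else 0) =
      ∑ a ∈ II PP, (F x : ℂ) * (∏ i, La PP res i (a i) (x i)) * ee (∑ i, (a i : ℝ) / (emb PP i : ℕ) * v) := by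
    intro x
    have h3 : ∏ i, (if colr PP res v i = x i then (1 : ℂ) else 0) =
        ∏ i, ∑ a ∈ range (emb PP i), La PP res i a (x i) * ee (a * ((v : ℝ) / (emb PP i : ℕ))) :=
      prod_congr rfl fun i _ => ind_expand hP hinj v i (x i)
    rw [h3, Finset.prod_univ_sum, mul_sum]
    refine sum_congr rfl fun a _ => ?_
    rw [prod_mul_distrib, ee_sum, mul_assoc]
    congr 2
    refine prod_congr rfl fun i _ => ?_
    congr 1
    ring
  rw [sum_congr rfl fun x _ => h2 x, sum_comm]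
  refine sum_congr rfl fun a _ => ?_
  unfold Fh
  rw [Finset.sum_mul]

include hP hinj in
/-- **Transfer.** -/
theorem trans_four {α : Type} (S : Finset α) (v : α → ℤ) (P0 : ℕ) (hP0 : 0 < P0) (r0 : ℤ)
    (F : Col PP.card κ → ℝ) (T : ℝ) (ψ : ℝ → ℝ) (hψ : ∀ θ, ‖∑ s ∈ S, ee (θ * v s)‖ ≤ T * ψ θ) :
    |∑ s ∈ S.filter (fun s => (P0 : ℤ) ∣ v s - r0), F (colr PP res (v s)) -
        S.card / P0 * EE (fun i => 1 / ((emb PP i : ℕ) : ℝ)) F| ≤
      T / P0 * ∑ t ∈ (range P0 ×ˢ II PP).erase (0, 0), ‖Fh PP res F t.2‖ * ψ (theta PP P0 t.1 t.2) := by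
  classical
  have hP0c : (P0 : ℂ) ≠ 0 := by exact_mod_cast hP0.ne'
  have hP0r : (0 : ℝ) < P0 := by exact_mod_cast hP0
  have h1 : ((∑ s ∈ S.filter (fun s => (P0 : ℤ) ∣ v s - r0), F (colr PP res (v s)) : ℝ) : ℂ) =
      (∑ t ∈ range P0 ×ˢ II PP, ee (-(t.1 * ((r0 : ℝ) / P0))) * Fh PP res F t.2 *
        ∑ s ∈ S, ee (theta PP P0 t.1 t.2 * v s)) / P0 := by
    rw [eq_div_iff hP0c]
    push_cast
    rw [sum_filter, Finset.sum_mul]
    have h2 : ∀ s ∈ S, (if (P0 : ℤ) ∣ v s - r0 then ((F (colr PP res (v s)) : ℝ) : ℂ) else 0) * (P0 : ℂ) =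
        ∑ t ∈ range P0 ×ˢ II PP, ee (-(t.1 * ((r0 : ℝ) / P0))) * Fh PP res F t.2 *
          ee (theta PP P0 t.1 t.2 * v s) := by
      intro s _
      have h3 := orth P0 hP0 (v s - r0)
      calc (if (P0 : ℤ) ∣ v s - r0 then ((F (colr PP res (v s)) : ℝ) : ℂ) else 0) * (P0 : ℂ)
          = (if (P0 : ℤ) ∣ v s - r0 then (P0 : ℂ) else 0) * ((F (colr PP res (v s)) : ℝ) : ℂ) := by
            split_ifs <;> ring
        _ = (∑ h ∈ range P0, ee (h * (((v s - r0 : ℤ) : ℝ) / P0))) *
              ∑ a ∈ II PP, Fh PP res F a * ee (∑ i, (a i : ℝ) / (emb PP i : ℕ) * v s) := by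
            rw [h3, expand hP hinj F (v s)]
        _ = _ := by
            rw [sum_mul_sum, sum_product]
            refine sum_congr rfl fun h _ => ?_
            refine sum_congr rfl fun a _ => ?_
            have e1 : ee (theta PP P0 h a * v s) =
                ee (h * ((v s : ℝ) / P0)) * ee (∑ i, (a i : ℝ) / (emb PP i : ℕ) * v s) := by
              rw [← ee_add]
              congr 1
              unfold theta
              rw [add_mul, Finset.sum_mul]
              ring
            have e2 : ee (h * (((v s - r0 : ℤ) : ℝ) / P0)) = ee (-(h * ((r0 : ℝ) / P0))) * ee (h * ((v s : ℝ) / P0)) := by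
              rw [← ee_add]
              congr 1
              push_cast
              ring
            rw [e1, e2]
            ring
    rw [sum_congr rfl h2, sum_comm]
    refine sum_congr rfl fun t _ => ?_
    rw [mul_sum]
  -- the main term
  have h0mem : ((0 : ℕ), (0 : Fin PP.card → ℕ)) ∈ range P0 ×ˢ II PP := by
    rw [mem_product, mem_range]
    refine ⟨hP0, ?_⟩
    unfold II
    rw [Fintype.mem_piFinset]
    intro i
    rw [mem_range]
    exact emb_pos hP i
  have hF0 : Fh PP res F 0 = (EE (fun i => 1 / ((emb PP i : ℕ) : ℝ)) F : ℝ) := by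
    unfold Fh EE
    push_cast
    refine sum_congr rfl fun x _ => ?_
    rw [mul_comm]
    congr 1
    refine prod_congr rfl fun i _ => ?_
    rw [Pi.zero_apply, La_zero hP hinj]
  have hth0 : theta PP P0 0 0 = 0 := by
    unfold theta
    simp
  have h4 : ((∑ s ∈ S.filter (fun s => (P0 : ℤ) ∣ v s - r0), F (colr PP res (v s)) -
        S.card / P0 * EE (fun i => 1 / ((emb PP i : ℕ) : ℝ)) F : ℝ) : ℂ) =
      (∑ t ∈ (range P0 ×ˢ II PP).erase (0, 0), ee (-(t.1 * ((r0 : ℝ) / P0))) * Fh PP res F t.2 *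
        ∑ s ∈ S, ee (theta PP P0 t.1 t.2 * v s)) / P0 := by
    rw [Complex.ofReal_sub, h1, ← add_sum_erase _ _ h0mem]
    simp only [hF0, hth0, Nat.cast_zero, zero_mul, neg_zero, ee_zero, one_mul, sum_const, nsmul_eq_mul, mul_one]
    push_cast
    ring
  have h5 := congrArg norm h4
  rw [Complex.norm_real, Real.norm_eq_abs, norm_div, Complex.norm_natCast] at h5
  rw [h5, div_le_iff₀ hP0r]
  refine (norm_sum_le _ _).trans ?_
  have h6 : T / P0 * (∑ t ∈ (range P0 ×ˢ II PP).erase (0, 0), ‖Fh PP res F t.2‖ * ψ (theta PP P0 t.1 t.2)) * P0 =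
      ∑ t ∈ (range P0 ×ˢ II PP).erase (0, 0), ‖Fh PP res F t.2‖ * (T * ψ (theta PP P0 t.1 t.2)) := by
    rw [mul_sum, Finset.sum_mul]
    refine sum_congr rfl fun t _ => ?_
    field_simp
  rw [h6]
  refine sum_le_sum fun t _ => ?_
  rw [norm_mul, norm_mul, ee_norm, one_mul]
  exact mul_le_mul_of_nonneg_left (hψ _) (norm_nonneg _)

end

end Pool.Agent.D0H92.RG
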