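import Pool.Agent.H256R2.SC.J
import Pool.Agent.D0H92.RG.Trans

set_option autoImplicit false
set_option linter.unusedSectionVars false

/-!
# The Fourier coefficients of the weight of the covering sieve
-/

namespace Pool.Agent.D0H92.RG

open Finset Pool.Agent.H256R2.SC

variable {n : ℕ} {κ : Type} [Fintype κ] [DecidableEq κ]

/-- the majorant of the local coefficients at a nonzero frequency -/
noncomputable def Gt (u g : ℝ) (c : Option κ) : ℝ :=
  match c with
  | none => 2 * (u * g)
  | some _ => 1

/-- the local weights at a nonzero frequency -/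
noncomputable def bT (u g t : ℝ) (c : Option κ) : ℝ :=
  match c with
  | none => 8 * (1 + t) * (u * g)
  | some _ => 4 * (1 + t) * g

lemma sum_bT (g t : ℝ) : ∑ c : Option κ, bT (Fintype.card κ : ℝ) g t c =
    12 * (1 + t) * ((Fintype.card κ : ℝ) * g) := by
  rw [Fintype.sum_option]
  simp only [bT]
  rw [sum_const, card_univ, nsmul_eq_mul]
  ring

/-- the local inequality at a nonzero frequency -/
theorem local_T (g t : ℝ) (hg : 0 ≤ g) (ht : 0 ≤ t) (hug : (Fintype.card κ : ℝ) * g ≤ 1 / 2) (k₀ : κ)
    (Y : Option κ → ℝ) :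
    ∑ c, wt g c * (Gt (Fintype.card κ : ℝ) g c * (if c = some k₀ then 1 + t else 1)) *
        (∑ a, psi1 g a c * Y a) ^ 2 ≤
      ∑ a, bT (Fintype.card κ : ℝ) g t a * (Y a) ^ 2 := by
  set u : ℝ := (Fintype.card κ : ℝ) with hu
  have hu0 : 0 ≤ u := Nat.cast_nonneg _
  set S := ∑ k, Y (some k) with hS
  set R := ∑ k, (Y (some k)) ^ 2 with hR
  have hR0 : 0 ≤ R := sum_nonneg fun _ _ => sq_nonneg _
  have hSR : S ^ 2 ≤ u * R := by
    have := sq_sum_le_card_mul_sum_sq (s := (univ : Finset κ)) (f := fun k => Y (some k))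
    rwa [card_univ] at this
  set A := Y none - g * S with hA
  have hug0 : 0 ≤ u * g := mul_nonneg hu0 hg
  have hA2 : A ^ 2 ≤ 2 * (Y none) ^ 2 + 2 * (g ^ 2 * (u * R)) := by
    have h1 : g ^ 2 * S ^ 2 ≤ g ^ 2 * (u * R) := mul_le_mul_of_nonneg_left hSR (sq_nonneg _)
    have h2 : A ^ 2 ≤ 2 * (Y none) ^ 2 + 2 * (g ^ 2 * S ^ 2) := by
      rw [hA]; nlinarith [sq_nonneg (Y none + g * S)]
    linarith
  rw [Fintype.sum_option, inner_none, show ∑ a : Option κ, bT u g t a * (Y a) ^ 2 =
    bT u g t none * (Y none) ^ 2 + ∑ k, bT u g t (some k) * (Y (some k)) ^ 2 from Fintype.sum_option _]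
  have e1 : wt g (none : Option κ) * (Gt u g (none : Option κ) * (if (none : Option κ) = some k₀ then 1 + t else 1)) *
      (Y none - g * ∑ k, Y (some k)) ^ 2 ≤ 2 * (u * g) * A ^ 2 := by
    simp only [wt, Gt, reduceCtorEq, if_false, mul_one]
    rw [← hA, ← hu]
    apply mul_le_mul_of_nonneg_right _ (sq_nonneg _)
    nlinarith
  have e2 : ∀ l : κ, wt g (some l) * (Gt u g (some l) * (if (some l : Option κ) = some k₀ then 1 + t else 1)) *
      (∑ a, psi1 g a (some l) * Y a) ^ 2 ≤ g * (1 + t) * (2 * A ^ 2 + 2 * (Y (some l)) ^ 2) := by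
    intro l
    rw [inner_some, ← hA]
    simp only [wt, Gt, one_mul]
    have h1 : (A + Y (some l)) ^ 2 ≤ 2 * A ^ 2 + 2 * (Y (some l)) ^ 2 := by
      nlinarith [sq_nonneg (A - Y (some l))]
    have h2 : g * (if (some l : Option κ) = some k₀ then 1 + t else 1) ≤ g * (1 + t) := by
      apply mul_le_mul_of_nonneg_left _ hg
      split_ifs <;> linarith
    exact mul_le_mul h2 h1 (sq_nonneg _) (by positivity)
  have e3 : ∑ l : κ, wt g (some l) * (Gt u g (some l) * (if (some l : Option κ) = some k₀ then 1 + t else 1)) *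
      (∑ a, psi1 g a (some l) * Y a) ^ 2 ≤ g * (1 + t) * (2 * (u * A ^ 2) + 2 * R) := by
    refine (sum_le_sum fun l _ => e2 l).trans (le_of_eq ?_)
    rw [← mul_sum, sum_add_distrib, sum_const, card_univ, nsmul_eq_mul, ← mul_sum, ← hR, ← hu]
    ring
  have e4 : ∑ x : κ, bT u g t (some x) * (Y (some x)) ^ 2 = 4 * (1 + t) * g * R := by
    simp only [bT]
    rw [← mul_sum]
  rw [e4]
  simp only [bT]
  have h5 : u * A ^ 2 * g ≤ u * g * (2 * (Y none) ^ 2) + R * (g / 2) := by
    have h6 : u * g * A ^ 2 ≤ u * g * (2 * (Y none) ^ 2 + 2 * (g ^ 2 * (u * R))) :=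
      mul_le_mul_of_nonneg_left hA2 hug0
    have h7 : u * g * (2 * (g ^ 2 * (u * R))) ≤ R * (g / 2) := by
      have h8 : (u * g) ^ 2 ≤ 1 / 4 := by nlinarith
      have h9 : u * g * (2 * (g ^ 2 * (u * R))) = (u * g) ^ 2 * (2 * (g * R)) := by ring
      rw [h9]
      have h10 : 0 ≤ g * R := mul_nonneg hg hR0
      nlinarith
    nlinarith
  have h11 : 0 ≤ g * R := mul_nonneg hg hR0
  have h12 : 0 ≤ u * g * (Y none) ^ 2 := mul_nonneg hug0 (sq_nonneg _)
  have h13 : g * (1 + t) * (2 * (u * A ^ 2) + 2 * R) = (1 + t) * (2 * (u * A ^ 2 * g) + 2 * (g * R)) := by ring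
  rw [h13] at e3
  have h14 : (1 + t) * (2 * (u * A ^ 2 * g) + 2 * (g * R)) ≤
      (1 + t) * (2 * (u * g * (2 * (Y none) ^ 2) + R * (g / 2)) + 2 * (g * R)) := by
    apply mul_le_mul_of_nonneg_left _ (by linarith)
    linarith
  have h15 : 2 * (u * g) * A ^ 2 ≤ 2 * (u * g * (2 * (Y none) ^ 2) + R * (g / 2)) := by
    linarith
  nlinarith [mul_nonneg ht h11, mul_nonneg ht h12]

section
variable {p g : Fin n → ℝ} {h : Finset (Fin n) → ℝ} {z K : ℝ}

/-- no colours at the indices in `T` -/
def offT (T : Finset (Fin n)) (D : Col n κ) : Col n κ := fun i => if i ∈ T then none else D i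

lemma fib_offT (T : Finset (Fin n)) (D : Col n κ) (k : κ) : fib (offT T D) k ⊆ fib D k := by
  intro i hi
  rw [H256R2.SC.mem_fib] at hi ⊢
  unfold offT at hi
  split_ifs at hi
  exact hi

lemma abs_al (H : Hyp p g h z K) {s t : Finset (Fin n)} (hst : s ⊆ t) : |al h t| ≤ |al h s| := by
  unfold al
  by_cases hs : s = ∅
  · rw [if_pos hs, abs_one]
    have := al_abs_le H.h0 H.h1 t
    unfold al at this
    exact this
  · have ht : t ≠ ∅ := by
      rintro rfl
      exact hs (Finset.subset_empty.1 hst)
    rw [if_neg hs, if_neg ht, abs_neg, abs_neg, abs_mul, abs_mul, abs_pow, abs_pow, abs_neg, abs_one, one_pow,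
      one_pow, one_mul, one_mul, abs_of_nonneg (H.h0 _), abs_of_nonneg (H.h0 _)]
    exact H.anti s t (nonempty_iff_ne_empty.2 hs) hst

lemma qq_offT (H : Hyp p g h z K) (T : Finset (Fin n)) (D : Col n κ) : qq p (offT T D) ≤ qq p D := by
  unfold qq
  refine prod_le_prod (fun i _ => ?_) fun i _ => ?_
  · cases offT T D i with
    | none => simp [nu1]
    | some k => simp only [nu1]; linarith [H.p1 i]
  · unfold offT
    split_ifs
    · cases D i with
      | none => exact le_rfl
      | some k => simp only [nu1]; exact (H.p1 i).le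
    · exact le_rfl

lemma yT_offT (H : Hyp p g h z K) (Q : ℝ) (T : Finset (Fin n)) (D : Col n κ) :
    (yT p h Q D) ^ 2 ≤ (yT p h Q (offT T D)) ^ 2 := by
  unfold yT
  by_cases hD : qq p D ≤ Q
  · rw [if_pos hD, if_pos ((qq_offT H T D).trans hD), sq_le_sq]
    unfold yy
    rw [abs_prod, abs_prod]
    exact prod_le_prod (fun _ _ => abs_nonneg _) fun k _ => abs_al H (fib_offT T D k)
  · rw [if_neg hD]
    have : (0 : ℝ) ^ 2 = 0 := by norm_num
    rw [this]
    exact sq_nonneg _

/-- removing the colours at the indices in `T` -/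
theorem erase_sum (H : Hyp p g h z K) (Q t : ℝ) (ht : 0 ≤ t) (T : Finset (Fin n)) (k₀ : κ) :
    ∑ D : Col n κ, (∏ i, (if i ∈ T then bT (Fintype.card κ : ℝ) (g i) t (D i) else bet (g i) t k₀ (D i))) *
        (yT p h Q D) ^ 2 ≤
      (∏ i ∈ T, 12 * (1 + t) * ((Fintype.card κ : ℝ) * g i)) *
        ∑ D : Col n κ, (∏ i, bet (g i) t k₀ (D i)) * (yT p h Q D) ^ 2 := by
  classical
  set u : ℝ := (Fintype.card κ : ℝ) with hu
  have hu0 : 0 ≤ u := Nat.cast_nonneg _
  have hg0 : ∀ i, 0 ≤ g i := fun i => (H.g0 i).le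
  have hbet0 : ∀ i (c : Option κ), 0 ≤ bet (g i) t k₀ c := by
    intro i c
    have := hg0 i
    cases c with
    | none => simp only [bet]; positivity
    | some l => simp only [bet]; split_ifs <;> positivity
  have hbT0 : ∀ i (c : Option κ), 0 ≤ bT u (g i) t c := by
    intro i c
    have := hg0 i
    cases c with
    | none => simp only [bT]; positivity
    | some l => simp only [bT]; positivity
  set β : Fin n → Option κ → ℝ := fun i c => if i ∈ T then bT u (g i) t c else bet (g i) t k₀ c with hβ
  have hβ0 : ∀ i c, 0 ≤ β i c := by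
    intro i c
    rw [hβ]
    simp only
    split_ifs
    · exact hbT0 i c
    · exact hbet0 i c
  -- the indicator of `D' = offT T D`
  have hind : ∀ D : Col n κ, (yT p h Q (offT T D)) ^ 2 =
      ∑ D' : Col n κ, (∏ i, (if D' i = offT T D i then (1 : ℝ) else 0)) * (yT p h Q D') ^ 2 := by
    intro D
    rw [sum_eq_single (offT T D)]
    · simp
    · intro D' _ hne
      obtain ⟨i, hi⟩ : ∃ i, D' i ≠ offT T D i := by
        by_contra hcon
        push Not at hcon
        exact hne (funext hcon)
      rw [prod_eq_zero (mem_univ i) (if_neg hi), zero_mul]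
    · intro h
      exact absurd (mem_univ _) h
  have hloc : ∀ (i : Fin n) (D' : Col n κ), ∑ c : Option κ, β i c *
      (if D' i = (if i ∈ T then none else c) then (1 : ℝ) else 0) ≤
      (if i ∈ T then 12 * (1 + t) * (u * g i) else 1) * bet (g i) t k₀ (D' i) := by
    intro i D'
    by_cases hi : i ∈ T
    · simp only [hi, if_true, hβ]
      rw [← Finset.sum_mul, sum_bT, ← hu]
      have h1 : (0 : ℝ) ≤ 12 * (1 + t) * (u * g i) := by have := hg0 i; positivity
      apply mul_le_mul_of_nonneg_left _ h1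
      by_cases h2 : D' i = none
      · rw [if_pos h2, h2]
        simp only [bet]
        have := hg0 i
        have : 0 ≤ 3 * t * g i := by positivity
        linarith
      · rw [if_neg h2]
        exact hbet0 _ _
    · simp only [hi, if_false, hβ, one_mul]
      rw [sum_eq_single (D' i)]
      · simp
      · intro c _ hc
        rw [if_neg (Ne.symm hc), mul_zero]
      · intro h
        exact absurd (mem_univ _) h
  calc ∑ D : Col n κ, (∏ i, β i (D i)) * (yT p h Q D) ^ 2
      ≤ ∑ D : Col n κ, (∏ i, β i (D i)) * (yT p h Q (offT T D)) ^ 2 := by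
        refine sum_le_sum fun D _ => ?_
        exact mul_le_mul_of_nonneg_left (yT_offT H Q T D) (prod_nonneg fun i _ => hβ0 i _)
    _ = ∑ D' : Col n κ, (∑ D : Col n κ, ∏ i, (β i (D i) *
          (if D' i = (if i ∈ T then none else D i) then (1 : ℝ) else 0))) * (yT p h Q D') ^ 2 := by
        simp_rw [hind, mul_sum]
        rw [sum_comm]
        refine sum_congr rfl fun D' _ => ?_
        rw [Finset.sum_mul]
        refine sum_congr rfl fun D _ => ?_
        rw [prod_mul_distrib, mul_assoc]
        rfl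
    _ = ∑ D' : Col n κ, (∏ i, ∑ c : Option κ, (β i c *
          (if D' i = (if i ∈ T then none else c) then (1 : ℝ) else 0))) * (yT p h Q D') ^ 2 := by
        refine sum_congr rfl fun D' _ => ?_
        congr 1
        have h2 := Finset.prod_univ_sum (fun _ : Fin n => (Finset.univ : Finset (Option κ)))
          (fun i c => β i c * (if D' i = (if i ∈ T then none else c) then (1 : ℝ) else 0))
        rw [Fintype.piFinset_univ] at h2
        exact h2.symm
    _ ≤ ∑ D' : Col n κ, (∏ i, (if i ∈ T then 12 * (1 + t) * (u * g i) else 1) * bet (g i) t k₀ (D' i)) *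
          (yT p h Q D') ^ 2 := by
        refine sum_le_sum fun D' _ => ?_
        apply mul_le_mul_of_nonneg_right _ (sq_nonneg _)
        refine prod_le_prod (fun i _ => ?_) fun i _ => hloc i D'
        refine sum_nonneg fun c _ => mul_nonneg (hβ0 i c) ?_
        split_ifs <;> norm_num
    _ = _ := by
        rw [mul_sum]
        refine sum_congr rfl fun D' _ => ?_
        rw [prod_mul_distrib, prod_ite, prod_const_one, mul_one, mul_assoc]
        congr 2
        exact Finset.filter_mem_eq_inter.trans (Finset.univ_inter T)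

/-- **The weighted second moment with damping at the indices in `T`.** -/
theorem second_T (H : Hyp p g h z K) (Q t : ℝ) (ht : 0 ≤ t) (htg : ∀ i, 3 * t * g i ≤ 1)
    (hug : ∀ i, (Fintype.card κ : ℝ) * g i ≤ 1 / 2) (T : Finset (Fin n)) (k₀ : κ) :
    EE g (fun x => (∏ i, ((if i ∈ T then Gt (Fintype.card κ : ℝ) (g i) (x i) else 1) *
        (if x i = some k₀ then 1 + t else 1))) * (VV g (yT p h Q : Col n κ → ℝ) x) ^ 2) ≤
      (∏ i ∈ T, 12 * (1 + t) * ((Fintype.card κ : ℝ) * g i)) *
        (Real.exp ((2 + 6 * t) * ∑ i, g i) * Zs κ g h) := by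
  set u : ℝ := (Fintype.card κ : ℝ) with hu
  have hu0 : 0 ≤ u := Nat.cast_nonneg _
  have hg0 : ∀ i, 0 ≤ g i := fun i => (H.g0 i).le
  have hw : ∀ i (c : Option κ), 0 ≤ wt (g i) c := fun i c => wt_nonneg (hg0 i) ((hug i).trans (by norm_num)) c
  have hbet0 : ∀ i (c : Option κ), 0 ≤ bet (g i) t k₀ c := by
    intro i c
    have := hg0 i
    cases c with
    | none => simp only [bet]; positivity
    | some l => simp only [bet]; split_ifs <;> positivity
  have h1 := tensor_upper (κ := κ) g
    (fun i c => (if i ∈ T then Gt u (g i) c else 1) * (if c = some k₀ then 1 + t else 1))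
    (fun i c => if i ∈ T then bT u (g i) t c else bet (g i) t k₀ c) hw
    (by
      intro i c
      have := hg0 i
      apply mul_nonneg
      · split_ifs
        · cases c with
          | none => simp only [Gt]; positivity
          | some l => simp only [Gt]; norm_num
        · norm_num
      · split_ifs <;> linarith)
    (by
      intro i c
      have := hg0 i
      split_ifs
      · cases c with
        | none => simp only [bT]; positivity
        | some l => simp only [bT]; positivity
      · exact hbet0 i c)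
    (by
      intro i Y
      by_cases hi : i ∈ T
      · simp only [hi, if_true]
        exact local_T (g i) t (hg0 i) ht (hug i) k₀ Y
      · simp only [hi, if_false, one_mul]
        exact local_wt (g i) t (hg0 i) ht (htg i) k₀ Y) (yT p h Q)
  refine h1.trans ((erase_sum H Q t ht T k₀).trans ?_)
  have hT0 : 0 ≤ ∏ i ∈ T, 12 * (1 + t) * (u * g i) := prod_nonneg fun i _ => by
    have := hg0 i
    positivity
  apply mul_le_mul_of_nonneg_left _ hT0
  refine le_trans ?_ (weighted_sum H t ht k₀)
  refine sum_le_sum fun D _ => ?_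
  apply mul_le_mul_of_nonneg_left _ (prod_nonneg fun i _ => hbet0 i _)
  unfold yT
  split_ifs
  · exact le_rfl
  · simpa using sq_nonneg (yy h D)

end

end Pool.Agent.D0H92.RG
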