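import Pool.Agent.D0H92.RG.Coef

set_option autoImplicit false
set_option linter.unusedSectionVars false

/-!
# The covering sieve with small Fourier coefficients
-/

namespace Pool.Agent.D0H92.RG

open Finset Pool.Agent.H256R2.SC

variable {n : ℕ} {κ : Type} [Fintype κ] [DecidableEq κ]

/-- the weight of the covering sieve -/
noncomputable def FF (p g : Fin n → ℝ) (h : Finset (Fin n) → ℝ) (Q : ℝ) (J : ℕ) (x : Col n κ) : ℝ :=
  (VV g (yT p h Q : Col n κ → ℝ) x) ^ 2 * (1 - ∑ k, SS J k x)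

section
variable {p g : Fin n → ℝ} {h : Finset (Fin n) → ℝ} {z K : ℝ}

/-- the mean value in the model -/
theorem model_lower (H : Hyp p g h z K)
    (Q δ t : ℝ) (J : ℕ) (hJ : Even J) (ht : 0 < t) (hQz : 1 ≤ Q)
    (htg : ∀ i, 3 * t * g i ≤ 1) (hug : ∀ i, (Fintype.card κ : ℝ) * g i ≤ 1)
    (hδ : ∀ D : Col n κ, qq p D ≤ Q → 2 * ∑ i with D i ≠ none, g i ≤ δ)
    (hug4 : (Fintype.card κ : ℝ) * δ ≤ 1 / 4)
    (htail : (Fintype.card κ + 1 : ℝ) * (δ ^ 2 + Real.exp (2 * (Fintype.card κ : ℝ) * K / Real.log z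
      - Real.log (Q / z) / Real.log z)) ≤ 1 / 8)
    (hmom : (Fintype.card κ : ℝ) * (1 / t) ^ J * Real.exp ((2 + 6 * t) * ∑ i, g i) ≤ 1 / 8) :
    Zs κ g h / 2 ≤ EE g (FF p g h Q J : Col n κ → ℝ) := by
  set u : ℝ := (Fintype.card κ : ℝ) with hu
  have hu0 : 0 ≤ u := Nat.cast_nonneg _
  have hQ0 : 0 < Q := by linarith
  have hz0 : 0 < z := by linarith [H.z1]
  set E : ℝ := Real.exp (2 * u * K / Real.log z - Real.log (Q / z) / Real.log z) with hE
  set Z : ℝ := Zs κ g h with hZ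
  have hZ1 : 1 ≤ Z := Zs_ge_one H
  have hE0 : 0 < E := Real.exp_pos _
  have hT : ∑ D : Col n κ with Q / z < qq p D, (yy h D) ^ 2 * nu g D ≤ E * Z :=
    tail_bound H (Q / z) (by positivity)
  have hE8 : E ≤ 1 / 8 := by
    have : δ ^ 2 + E ≤ (u + 1) * (δ ^ 2 + E) := by nlinarith [sq_nonneg δ]
    nlinarith [sq_nonneg δ]
  have hT8 : E * Z ≤ 1 / 8 * Z := by nlinarith
  set V : Col n κ → ℝ := VV g (yT p h Q) with hV
  have hlow : 3 / 4 * Z ≤ EE g (fun x => (V x) ^ 2) :=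
    second_lower H Q δ (E * Z) hug hδ hug4 hQ0 hT hT8
  have hup : ∀ k, EE g (fun x => (V x) ^ 2 * SS J k x) ≤
      δ ^ 2 * Z + E * Z + (1 / t) ^ J * (Real.exp ((2 + 6 * t) * ∑ i, g i) * Z) := fun k =>
    second_upper H Q δ t (E * Z) J hJ ht htg hug hQ0 hδ hT k
  have e1 : EE g (FF p g h Q J : Col n κ → ℝ) =
      EE g (fun x => (V x) ^ 2) - ∑ k, EE g (fun x => (V x) ^ 2 * SS J k x) := by
    rw [← EE_sum, ← EE_sub]
    congr 1
    funext x
    unfold FF
    rw [← Finset.mul_sum]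
    ring
  rw [e1]
  have e2 : ∑ k : κ, EE g (fun x => (V x) ^ 2 * SS J k x) ≤
      u * (δ ^ 2 * Z + E * Z + (1 / t) ^ J * (Real.exp ((2 + 6 * t) * ∑ i, g i) * Z)) := by
    refine (Finset.sum_le_sum (fun k _ => hup k)).trans ?_
    rw [Finset.sum_const, Finset.card_univ, nsmul_eq_mul]
  have e3 : u * (δ ^ 2 * Z + E * Z) ≤ 1 / 8 * Z := by
    have : u * (δ ^ 2 + E) ≤ 1 / 8 := by nlinarith [sq_nonneg δ]
    nlinarith
  have e4 : u * ((1 / t) ^ J * (Real.exp ((2 + 6 * t) * ∑ i, g i) * Z)) ≤ 1 / 8 * Z := by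
    nlinarith
  nlinarith

lemma ind_nonneg (D x : Col n κ) : 0 ≤ ind D x := by unfold ind; split_ifs <;> norm_num

lemma ind_le_one (D x : Col n κ) : ind D x ≤ 1 := by unfold ind; split_ifs <;> norm_num

lemma Lv_bound {p : Fin n → ℝ} {Q B : ℝ} {F : Col n κ → ℝ} (hF : Lv p Q B F) (x : Col n κ) : |F x| ≤ B := by
  obtain ⟨f, h1, h2, -⟩ := hF
  rw [h1]
  refine (abs_sum_le_sum_abs _ _).trans (le_trans ?_ h2)
  refine sum_le_sum fun D _ => ?_
  rw [abs_mul, abs_of_nonneg (ind_nonneg D x)]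
  exact mul_le_of_le_one_right (abs_nonneg _) (ind_le_one D x)

/-- the levels of `V` and of the weight -/
lemma levels (H : Hyp p g h z K) (Q : ℝ) (J : ℕ) (hQz : 1 ≤ Q) (hpz : ∀ i, p i ≤ z) (hg1 : ∀ i, g i ≤ 1)
    (hs : 2 * (Fintype.card κ : ℝ) * ∑ i, 1 / (p i) ^ 2 ≤ 1) :
    Lv p Q (3 * Q ^ 2) (VV g (yT p h Q : Col n κ → ℝ)) ∧
      ∃ Bd : ℝ, Lv p (Q ^ 2 * z ^ J) Bd (FF p g h Q J : Col n κ → ℝ) := by
  set u : ℝ := (Fintype.card κ : ℝ) with hu
  have hQ0 : 0 < Q := by linarith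
  have hp1 : ∀ i, 1 ≤ p i := fun i => (H.p1 i).le
  have hzJ : (1:ℝ) ≤ z ^ J := one_le_pow₀ H.z1.le
  have hVL : Lv p Q (3 * Q ^ 2) (VV g (yT p h Q : Col n κ → ℝ)) := by
    refine Lv_mono le_rfl (count_assign (κ := κ) p hp1 hs Q hQ0) ?_
    refine Lv_VV p g hp1 (fun i => (H.g0 i).le) hg1 (yT p h Q) ?_ Q ?_
    · intro D
      unfold yT
      split_ifs
      · exact yy_abs_le H.h0 H.h1 D
      · simp
    · intro D hD
      by_contra hc
      exact hD (by unfold yT; rw [if_neg hc])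
  refine ⟨hVL, 9 * Q ^ 4 * (1 + u * (n + 1) ^ J), ?_⟩
  have hSL : Lv p (z ^ J) (1 + u * (n + 1) ^ J) (fun x : Col n κ => 1 - ∑ k, SS J k x) := by
    have e1 : Lv p (z ^ J) 1 (fun _ : Col n κ => (1:ℝ)) :=
      Lv_mono hzJ (by simp) (Lv_const p 1)
    have e2 := Lv_sum (p := p) (Q := z ^ J) (univ : Finset κ) (fun _ => ((n:ℝ) + 1) ^ J)
      (fun k => (SS J k : Col n κ → ℝ)) (fun k _ => Lv_SS p hp1 z hpz H.z1.le J k)
    have e3 := Lv_sub e1 e2
    refine Lv_mono le_rfl ?_ e3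
    rw [Finset.sum_const, Finset.card_univ, nsmul_eq_mul]
  have e1 := Lv_mul hp1 (Lv_mul hp1 hVL hVL) hSL
  have e2 : (FF p g h Q J : Col n κ → ℝ) =
      fun x => VV g (yT p h Q : Col n κ → ℝ) x * VV g (yT p h Q : Col n κ → ℝ) x * (1 - ∑ k, SS J k x) := by
    funext x; unfold FF; ring
  rw [e2]
  exact Lv_mono (le_of_eq (by ring)) (le_of_eq (by ring)) e1

lemma sum_SS_nonneg (J : ℕ) (hJ : Even J) (x : Col n κ) (k : κ) : 0 ≤ SS J k x := by
  refine le_trans ?_ (SS_lower J hJ k x)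
  split_ifs <;> norm_num

lemma FF_le (J : ℕ) (hJ : Even J) (Q : ℝ) (hV : ∀ x : Col n κ, |VV g (yT p h Q : Col n κ → ℝ) x| ≤ 3 * Q ^ 2)
    (x : Col n κ) : FF p g h Q J x ≤ 9 * Q ^ 4 := by
  unfold FF
  have h1 : 1 - ∑ k, SS J k x ≤ 1 := by
    have : 0 ≤ ∑ k : κ, SS J k x := sum_nonneg fun k _ => sum_SS_nonneg J hJ x k
    linarith
  have h2 : (VV g (yT p h Q : Col n κ → ℝ) x) ^ 2 ≤ 9 * Q ^ 4 := by
    have h3 := pow_le_pow_left₀ (abs_nonneg _) (hV x) 2
    rw [sq_abs] at h3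
    refine h3.trans (le_of_eq (by ring))
  calc (VV g (yT p h Q : Col n κ → ℝ) x) ^ 2 * (1 - ∑ k, SS J k x)
      ≤ (VV g (yT p h Q : Col n κ → ℝ) x) ^ 2 * 1 := mul_le_mul_of_nonneg_left h1 (sq_nonneg _)
    _ ≤ _ := by linarith

lemma cov_of_pos (J : ℕ) (hJ : Even J) (Q : ℝ) (x : Col n κ) (hx : 0 < FF p g h Q J x) (k : κ) :
    ∃ i, x i = some k := by
  by_contra hk
  push Not at hk
  unfold FF at hx
  have h1 : 0 < 1 - ∑ k, SS J k x := by
    by_contra hc
    push Not at hc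
    have := mul_nonpos_of_nonneg_of_nonpos (sq_nonneg (VV g (yT p h Q : Col n κ → ℝ) x)) hc
    linarith
  have h2 : SS J k x ≤ ∑ l, SS J l x :=
    Finset.single_le_sum (fun l _ => sum_SS_nonneg J hJ x l) (Finset.mem_univ k)
  have h3 := SS_lower J hJ k x
  rw [if_pos hk] at h3
  linarith

/-- the absolute value of the weight -/
lemma abs_FF_le [Nonempty κ] (J : ℕ) (hJ : Even J) (Q : ℝ) (x : Col n κ) :
    |FF p g h Q J x| ≤ ∑ k : κ, 3 * ((∏ i, (if x i = some k then 1 + 3 else (1 : ℝ))) *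
      (VV g (yT p h Q : Col n κ → ℝ) x) ^ 2) := by
  unfold FF
  rw [abs_mul, abs_of_nonneg (sq_nonneg _)]
  have h0 : ∀ k : κ, (1 : ℝ) ≤ ∏ i, (if x i = some k then 1 + 3 else (1 : ℝ)) := by
    intro k
    have : (∏ _i : Fin n, (1 : ℝ)) ≤ ∏ i, (if x i = some k then 1 + 3 else (1 : ℝ)) :=
      prod_le_prod (fun _ _ => by norm_num) fun i _ => by split_ifs <;> norm_num
    simpa using this
  have h1 : ∀ k : κ, SS J k x ≤ 2 * ∏ i, (if x i = some k then 1 + 3 else (1 : ℝ)) := by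
    intro k
    have hS : SS J k x ≤ (if ∀ i, x i ≠ some k then (1 : ℝ) else 0) +
        (1 / 3) ^ J * ∏ i, (if x i = some k then 1 + 3 else (1 : ℝ)) := by
      convert SS_upper J hJ 3 (by norm_num) k x
    refine hS.trans ?_
    have h3 : ((1 : ℝ) / 3) ^ J ≤ 1 := pow_le_one₀ (by norm_num) (by norm_num)
    have h6 := h0 k
    obtain ⟨A, hA⟩ : ∃ A, A = ((1 : ℝ) / 3) ^ J := ⟨_, rfl⟩
    obtain ⟨P, hP⟩ : ∃ P, P = ∏ i, (if x i = some k then 1 + 3 else (1 : ℝ)) := ⟨_, rfl⟩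
    rw [← hP] at h6
    rw [← hA] at h3
    rw [← hA, ← hP]
    have h4 : A * P ≤ P := mul_le_of_le_one_left (by linarith) h3
    split_ifs <;> linarith
  have h5 : |1 - ∑ k, SS J k x| ≤ ∑ k : κ, 3 * ∏ i, (if x i = some k then 1 + 3 else (1 : ℝ)) := by
    have hS0 : 0 ≤ ∑ k : κ, SS J k x := sum_nonneg fun k _ => sum_SS_nonneg J hJ x k
    have hS1 : ∑ k : κ, SS J k x ≤ ∑ k : κ, 2 * ∏ i, (if x i = some k then 1 + 3 else (1 : ℝ)) :=
      sum_le_sum fun k _ => h1 k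
    have h6 : (1 : ℝ) ≤ ∑ k : κ, ∏ i, (if x i = some k then 1 + 3 else (1 : ℝ)) := by
      obtain ⟨k₀⟩ := ‹Nonempty κ›
      refine (h0 k₀).trans ?_
      exact single_le_sum (f := fun k : κ => ∏ i, (if x i = some k then 1 + 3 else (1 : ℝ)))
        (fun k _ => by linarith [h0 k]) (mem_univ k₀)
    rw [← mul_sum] at hS1 ⊢
    rw [abs_le]
    constructor <;> linarith
  calc (VV g (yT p h Q : Col n κ → ℝ) x) ^ 2 * |1 - ∑ k, SS J k x|
      ≤ (VV g (yT p h Q : Col n κ → ℝ) x) ^ 2 * ∑ k : κ, 3 * ∏ i, (if x i = some k then 1 + 3 else (1 : ℝ)) :=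
        mul_le_mul_of_nonneg_left h5 (sq_nonneg _)
    _ = _ := by
        rw [mul_sum]
        refine sum_congr rfl fun k _ => ?_
        ring

end

open Pool.Agent.D0H92.AG in
/-- **The Fourier coefficients of the weight.** -/
theorem Fh_bound [Nonempty κ] {PP : Finset ℕ} (hP : ∀ p ∈ PP, p.Prime) {res : ℕ → κ → ℤ}
    (hinj : ∀ p ∈ PP, ∀ k l, k ≠ l → ¬ ((p : ℤ) ∣ res p k - res p l))
    {h : Finset (Fin PP.card) → ℝ} {z K : ℝ}
    (H : Hyp (fun i => ((emb PP i : ℕ) : ℝ)) (fun i => 1 / ((emb PP i : ℕ) : ℝ)) h z K)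
    (Q : ℝ) (J : ℕ) (hJ : Even J) (htg : ∀ i, 3 * 3 * (1 / ((emb PP i : ℕ) : ℝ)) ≤ 1)
    (hug : ∀ i, (Fintype.card κ : ℝ) * (1 / ((emb PP i : ℕ) : ℝ)) ≤ 1 / 2)
    (a : Fin PP.card → ℕ) (ha : a ∈ II PP) :
    ‖Fh PP res (FF (fun i => ((emb PP i : ℕ) : ℝ)) (fun i => 1 / ((emb PP i : ℕ) : ℝ)) h Q J) a‖ ≤
      3 * (Fintype.card κ : ℝ) * (Real.exp (20 * ∑ i : Fin PP.card, 1 / ((emb PP i : ℕ) : ℝ)) *
        Zs κ (fun i => 1 / ((emb PP i : ℕ) : ℝ)) h) *
        ∏ i with a i ≠ 0, 48 * ((Fintype.card κ : ℝ) * (1 / ((emb PP i : ℕ) : ℝ))) := by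
  classical
  set u : ℝ := (Fintype.card κ : ℝ) with hu
  have hu0 : 0 ≤ u := Nat.cast_nonneg _
  set g : Fin PP.card → ℝ := fun i => 1 / ((emb PP i : ℕ) : ℝ) with hg
  set p : Fin PP.card → ℝ := fun i => ((emb PP i : ℕ) : ℝ) with hp
  have hg0 : ∀ i, 0 ≤ g i := fun i => (H.g0 i).le
  set T : Finset (Fin PP.card) := univ.filter fun i => a i ≠ 0 with hT
  have hw : ∀ i (c : Option κ), 0 ≤ wt (g i) c := fun i c => wt_nonneg (hg0 i) ((hug i).trans (by norm_num)) c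
  have hai : ∀ i, a i < emb PP i := by
    intro i
    unfold II at ha
    exact mem_range.1 (Fintype.mem_piFinset.1 ha i)
  -- the local bound
  have hloc : ∀ i (c : Option κ), ‖La PP res i (a i) c‖ ≤
      wt (g i) c * (if i ∈ T then Gt u (g i) c else 1) := by
    intro i c
    by_cases hi : a i = 0
    · have hiT : i ∉ T := by rw [hT, mem_filter]; simp [hi]
      rw [if_neg hiT, hi, La_zero hP hinj, mul_one, Complex.norm_real, Real.norm_eq_abs,
        abs_of_nonneg (hw i c)]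
    · have hiT : i ∈ T := by rw [hT, mem_filter]; exact ⟨mem_univ _, hi⟩
      rw [if_pos hiT]
      cases c with
      | some k =>
        rw [La_some_norm hP hinj]
        simp only [wt, Gt, mul_one]
        exact le_rfl
      | none =>
        refine (La_none_norm hP hinj i (a i) (hai i) hi).trans ?_
        simp only [wt, Gt]
        have h1 : u * g i ≤ 1 / 2 := hug i
        have h2 : 0 ≤ u * g i := mul_nonneg hu0 (hg0 i)
        change u * g i ≤ (1 - u * g i) * (2 * (u * g i))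
        nlinarith
  have hF : ‖Fh PP res (FF p g h Q J) a‖ ≤
      ∑ x : Col PP.card κ, |FF p g h Q J x| * ∏ i, (wt (g i) (x i) * (if i ∈ T then Gt u (g i) (x i) else 1)) := by
    unfold Fh
    refine (norm_sum_le _ _).trans (sum_le_sum fun x _ => ?_)
    rw [norm_mul, Complex.norm_real, Real.norm_eq_abs, norm_prod]
    exact mul_le_mul_of_nonneg_left (prod_le_prod (fun _ _ => norm_nonneg _) fun i _ => hloc i (x i))
      (abs_nonneg _)
  refine hF.trans ?_
  have hG0 : ∀ i (c : Option κ), 0 ≤ (if i ∈ T then Gt u (g i) c else 1) := by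
    intro i c
    have := hg0 i
    split_ifs
    · cases c with
      | none => simp only [Gt]; positivity
      | some l => simp only [Gt]; norm_num
    · norm_num
  calc ∑ x : Col PP.card κ, |FF p g h Q J x| * ∏ i, (wt (g i) (x i) * (if i ∈ T then Gt u (g i) (x i) else 1))
      ≤ ∑ x : Col PP.card κ, (∑ k : κ, 3 * ((∏ i, (if x i = some k then 1 + 3 else (1 : ℝ))) *
          (VV g (yT p h Q : Col PP.card κ → ℝ) x) ^ 2)) *
          ∏ i, (wt (g i) (x i) * (if i ∈ T then Gt u (g i) (x i) else 1)) := by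
        refine sum_le_sum fun x _ => ?_
        exact mul_le_mul_of_nonneg_right (abs_FF_le J hJ Q x)
          (prod_nonneg fun i _ => mul_nonneg (hw i _) (hG0 i _))
    _ = ∑ k : κ, 3 * EE g (fun x => (∏ i, ((if i ∈ T then Gt u (g i) (x i) else 1) *
          (if x i = some k then 1 + 3 else 1))) * (VV g (yT p h Q : Col PP.card κ → ℝ) x) ^ 2) := by
        simp_rw [Finset.sum_mul]
        rw [sum_comm]
        refine sum_congr rfl fun k _ => ?_
        unfold EE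
        rw [mul_sum]
        refine sum_congr rfl fun x _ => ?_
        beta_reduce
        rw [prod_mul_distrib, prod_mul_distrib]
        ring
    _ ≤ ∑ _k : κ, 3 * ((∏ i ∈ T, 12 * (1 + 3) * (u * g i)) *
          (Real.exp ((2 + 6 * 3) * ∑ i, g i) * Zs κ g h)) := by
        refine sum_le_sum fun k _ => ?_
        apply mul_le_mul_of_nonneg_left _ (by norm_num)
        exact second_T H Q 3 (by norm_num) htg hug T k
    _ = _ := by
        rw [sum_const, card_univ, nsmul_eq_mul, ← hu]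
        have e1 : (2 + 6 * 3 : ℝ) = 20 := by norm_num
        have e2 : (12 * (1 + 3) : ℝ) = 48 := by norm_num
        rw [e1, e2]
        ring

open Pool.Agent.D0H92.AG in
/-- the Fourier coefficients vanish above the level -/
theorem Fh_zero {PP : Finset ℕ} (hP : ∀ p ∈ PP, p.Prime) {res : ℕ → κ → ℤ}
    {F : Col PP.card κ → ℝ} {Q Bd : ℝ} (hF : Lv (fun i => ((emb PP i : ℕ) : ℝ)) Q Bd F)
    (a : Fin PP.card → ℕ) (ha : a ∈ II PP) (hbig : Q < ∏ i with a i ≠ 0, ((emb PP i : ℕ) : ℝ)) :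
    Fh PP res F a = 0 := by
  classical
  obtain ⟨f, h1, -, h3⟩ := hF
  have hai : ∀ i, a i < emb PP i := by
    intro i
    unfold II at ha
    exact mem_range.1 (Fintype.mem_piFinset.1 ha i)
  unfold Fh
  have h4 : ∀ x : Col PP.card κ, (F x : ℂ) * ∏ i, La PP res i (a i) (x i) =
      ∑ D : Col PP.card κ, (f D : ℂ) * ∏ i, ((if D i ≠ none → x i = D i then (1 : ℂ) else 0) * La PP res i (a i) (x i)) := by
    intro x
    rw [h1]
    push_cast
    rw [Finset.sum_mul]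
    refine sum_congr rfl fun D _ => ?_
    rw [ind_eq_prod, prod_mul_distrib, mul_assoc, Complex.ofReal_prod]
    congr 2
    refine prod_congr rfl fun i _ => ?_
    split_ifs <;> simp
  rw [sum_congr rfl fun x _ => h4 x, sum_comm]
  refine sum_eq_zero fun D _ => ?_
  rw [← mul_sum]
  by_cases hD : f D = 0
  · rw [hD]; simp
  have hq := h3 D hD
  obtain ⟨i, hi1, hi2⟩ : ∃ i, a i ≠ 0 ∧ D i = none := by
    by_contra hcon
    push Not at hcon
    have h5 : ∏ i with a i ≠ 0, ((emb PP i : ℕ) : ℝ) ≤ qq (fun i => ((emb PP i : ℕ) : ℝ)) D := by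
      unfold qq
      rw [prod_nu1]
      have hsub : (univ.filter fun i => a i ≠ 0) ⊆ supp D := by
        intro i hi
        rw [mem_filter] at hi
        exact mem_supp.2 (hcon i hi.2)
      rw [← prod_sdiff hsub]
      apply le_mul_of_one_le_left
      · exact prod_nonneg fun i _ => Nat.cast_nonneg _
      · have : (∏ _i ∈ supp D \ (univ.filter fun i => a i ≠ 0), (1 : ℝ)) ≤
            ∏ i ∈ supp D \ (univ.filter fun i => a i ≠ 0), ((emb PP i : ℕ) : ℝ) :=
          prod_le_prod (fun _ _ => by norm_num) fun i _ => by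
            exact_mod_cast (hP _ (emb_mem PP i)).one_lt.le
        rwa [prod_const_one] at this
    linarith
  have h6 : ∑ x : Col PP.card κ, ∏ i, ((if D i ≠ none → x i = D i then (1 : ℂ) else 0) * La PP res i (a i) (x i)) =
      ∏ i, ∑ c : Option κ, ((if D i ≠ none → c = D i then (1 : ℂ) else 0) * La PP res i (a i) c) := by
    have h2 := Finset.prod_univ_sum (fun _ : Fin PP.card => (Finset.univ : Finset (Option κ)))
      (fun i c => (if D i ≠ none → c = D i then (1 : ℂ) else 0) * La PP res i (a i) c)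
    rw [Fintype.piFinset_univ] at h2
    exact h2.symm
  rw [h6, prod_eq_zero (mem_univ i), mul_zero]
  have h7 := sum_La (res := res) hP i (a i) (hai i)
  rw [if_neg hi1] at h7
  rw [← h7]
  refine sum_congr rfl fun c _ => ?_
  rw [if_pos (fun h => absurd hi2 h), one_mul]

end Pool.Agent.D0H92.RG
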