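import Pool.Agent.D0H92.RG.Freq
import Pool.Agent.D0H92.AG.Num

set_option autoImplicit false
set_option linter.unusedSectionVars false

/-!
# The sum over all the frequencies is small
-/

namespace Pool.Agent.D0H92.RG

open Finset Filter Pool.Agent.D0H92.AG Pool.Agent.H256R2.SC

/-- powers of a number below `1` -/
lemma pow_le_exp {l : ℝ} (hl : 0 ≤ l) (K : ℕ) : l ^ K ≤ Real.exp (-((1 - l) * K)) := by
  have h1 : l ≤ Real.exp (-(1 - l)) := by
    have := Real.add_one_le_exp (-(1 - l))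
    linarith
  calc l ^ K ≤ Real.exp (-(1 - l)) ^ K := pow_le_pow_left₀ hl h1 K
    _ = Real.exp (-((1 - l) * K)) := by rw [← Real.exp_nat_mul]; congr 1; ring

/-- the length of a block -/
noncomputable def Ls (s : ℝ) : ℕ := ⌈9 * s⌉₊ + 1

lemma Ls_le {s : ℝ} (hs : 1 ≤ s) : (Ls s : ℝ) ≤ 11 * s := by
  unfold Ls
  have := Nat.ceil_lt_add_one (show (0 : ℝ) ≤ 9 * s by linarith)
  push_cast
  linarith

lemma Ls_pos (s : ℝ) : 0 < Ls s := Nat.succ_pos _

lemma Ks_ge {s : ℝ} (hs : 1 ≤ s) (N : ℕ) : (N : ℝ) / (11 * s) - 1 ≤ ((N / Ls s : ℕ) : ℝ) := by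
  have h0 : (0 : ℝ) < Ls s := by exact_mod_cast Ls_pos s
  have h1 : (N : ℝ) / (11 * s) ≤ N / Ls s :=
    div_le_div_of_nonneg_left (Nat.cast_nonneg _) h0 (Ls_le hs)
  have h2 : (N : ℝ) / Ls s < ((N / Ls s : ℕ) : ℝ) + 1 := by
    rw [div_lt_iff₀ h0]
    have h3 := Nat.lt_succ_self (N / Ls s)
    have h4 : N < (N / Ls s + 1) * Ls s := by
      rw [mul_comm]
      exact Nat.lt_mul_div_succ N (Ls_pos s)
    exact_mod_cast h4
  linarith

section
variable {PP : Finset ℕ} (hP : ∀ p ∈ PP, p.Prime)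

include hP in
lemma piece {B P0 M N : ℕ} (hB : 2 ≤ B) {l : ℝ} (hl : 0 ≤ l) (hl1 : l ≤ 1) (hP0 : 0 < P0)
    (hM0 : Nat.Coprime M P0) (hMp : ∀ p ∈ PP, Nat.Coprime M p) (hBM : B ∣ M) (hPp : ∀ p ∈ PP, Nat.Coprime P0 p)
    {D s R : ℝ} (hD : 1 ≤ D) (hDs : D ≤ s) (hP0D : (P0 : ℝ) ≤ Real.exp (2 * D)) (hR : R ≤ Real.exp (2 * s))
    (hR0 : 0 ≤ R) (hLN : Ls s ≤ N) :
    ∑ t ∈ ((range P0 ×ˢ II PP).erase (0, 0)).filter (fun t => (qT PP t.2 : ℝ) ≤ R),
      bk B l N (M * theta PP P0 t.1 t.2) ≤ (1 + 2 * B * l ^ (N / Ls s)) ^ (Ls s) - 1 := by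
  refine freq_sum hP hB hl hl1 hP0 hM0 hMp hBM hPp R (Ls s) (N / Ls s) ?_ ?_ (Nat.div_mul_le_self _ _)
  · have h1 : P0 * R ^ 2 ≤ Real.exp (6 * s) := by
      have h2 : R ^ 2 ≤ Real.exp (4 * s) := by
        calc R ^ 2 ≤ Real.exp (2 * s) ^ 2 := pow_le_pow_left₀ hR0 hR 2
          _ = Real.exp (4 * s) := by rw [← Real.exp_nat_mul]; congr 1; push_cast; ring
      calc P0 * R ^ 2 ≤ Real.exp (2 * D) * Real.exp (4 * s) :=
            mul_le_mul hP0D h2 (sq_nonneg _) (Real.exp_pos _).le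
        _ = Real.exp (2 * D + 4 * s) := (Real.exp_add _ _).symm
        _ ≤ Real.exp (6 * s) := Real.exp_le_exp.2 (by linarith)
    refine h1.trans_lt ?_
    have h3 : (2 : ℝ) ^ (Ls s) ≤ (B : ℝ) ^ (Ls s) :=
      pow_le_pow_left₀ (by norm_num) (by exact_mod_cast hB) _
    refine lt_of_lt_of_le ?_ h3
    have h4 : (2 : ℝ) ^ (Ls s) = Real.exp (Ls s * Real.log 2) := by
      rw [Real.exp_nat_mul, Real.exp_log (by norm_num)]
    rw [h4]
    apply Real.exp_lt_exp.2
    have h5 : 9 * s + 1 ≤ Ls s := by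
      unfold Ls
      push_cast
      linarith [Nat.le_ceil (9 * s)]
    have h6 := Real.log_two_gt_d9
    nlinarith
  · exact (Nat.one_le_div_iff (Ls_pos s)).2 hLN

end

/-- **The sum over all the frequencies.** -/
theorem freq_num (B : ℕ) (hB : 2 ≤ B) (l : ℝ) (hl : 0 ≤ l) (hl1 : l < 1) (A : ℕ) (η : ℝ) (hη : 0 < η) :
    ∃ δ ε : ℝ, 0 < δ ∧ δ ≤ η ∧ 0 < ε ∧ ε ≤ η ∧ ∀ᶠ N : ℕ in atTop,
      ∀ (PP : Finset ℕ) (P0 M : ℕ) (Q : ℝ), (∀ p ∈ PP, p.Prime) → 0 < P0 → Nat.Coprime M P0 →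
        (∀ p ∈ PP, Nat.Coprime M p) → B ∣ M → (∀ p ∈ PP, Nat.Coprime P0 p) →
        (P0 : ℝ) ≤ Real.exp (2 * (δ * N / Real.log N)) → Q ≤ Real.exp (ε * N) →
        ∑ t ∈ ((range P0 ×ˢ II PP).erase (0, 0)).filter (fun t => (qT PP t.2 : ℝ) ≤ Q),
          (qT PP t.2 : ℝ) ^ (-(1 / 4) : ℝ) * bk B l N (M * theta PP P0 t.1 t.2) ≤ 1 / (N : ℝ) ^ A := by
  set ν := 1 - l with hν
  have hν0 : 0 < ν := by rw [hν]; linarith
  have hν1 : ν ≤ 1 := by rw [hν]; linarith
  have hB0 : (0 : ℝ) < B := by exact_mod_cast (by omega : 0 < B)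
  have hB2 : (2 : ℝ) ≤ B := by exact_mod_cast hB
  -- the constants
  obtain ⟨δ, hδdef⟩ : ∃ δ, δ = min (min η 1) (ν / (11 * (A + 3))) := ⟨_, rfl⟩
  have hδ0 : 0 < δ := by
    rw [hδdef]; exact lt_min (lt_min hη one_pos) (by positivity)
  have hδη : δ ≤ η := by rw [hδdef]; exact (min_le_left _ _).trans (min_le_left _ _)
  have hδ1 : δ ≤ 1 := by rw [hδdef]; exact (min_le_left _ _).trans (min_le_right _ _)
  have hδν : δ * (11 * (A + 3)) ≤ ν := by
    have : δ ≤ ν / (11 * (A + 3)) := by rw [hδdef]; exact min_le_right _ _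
    rwa [le_div_iff₀ (by positivity)] at this
  obtain ⟨κ, hκ⟩ : ∃ κ : ℝ, κ = Real.log (176 * B) + 1 := ⟨_, rfl⟩
  have hκ1 : 1 ≤ κ := by
    rw [hκ]
    have : 0 ≤ Real.log (176 * B) := Real.log_nonneg (by linarith)
    linarith
  obtain ⟨ε, hεdef⟩ : ∃ ε, ε = min (min η (1 / 11)) (ν / (11 * κ)) := ⟨_, rfl⟩
  have hε0 : 0 < ε := by
    rw [hεdef]; exact lt_min (lt_min hη (by norm_num)) (by positivity)
  have hεη : ε ≤ η := by rw [hεdef]; exact (min_le_left _ _).trans (min_le_left _ _)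
  have hε11 : ε ≤ 1 / 11 := by rw [hεdef]; exact (min_le_left _ _).trans (min_le_right _ _)
  have hεν : ε * (11 * κ) ≤ ν := by
    have : ε ≤ ν / (11 * κ) := by rw [hεdef]; exact min_le_right _ _
    rwa [le_div_iff₀ (by positivity)] at this
  refine ⟨δ, ε, hδ0, hδη, hε0, hεη, ?_⟩
  have hcast : Tendsto (fun N : ℕ => (N : ℝ)) atTop atTop := tendsto_natCast_atTop_atTop
  have hlog : Tendsto (fun N : ℕ => Real.log N) atTop atTop := Real.tendsto_log_atTop.comp hcast
  have hsq : ∀ c : ℝ, ∀ᶠ N : ℕ in atTop, c * (Real.log N) ^ 2 ≤ N := by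
    intro c
    have e1 : (fun L : ℝ => (Real.log L) ^ (2:ℝ)) =o[atTop] (fun L : ℝ => L ^ (1 : ℝ)) :=
      isLittleO_log_rpow_rpow_atTop 2 (by norm_num)
    have e2 := e1.def (show (0:ℝ) < 1 / (|c| + 1) by positivity)
    filter_upwards [hcast.eventually e2, hlog.eventually_ge_atTop 0] with N h1 h2
    rw [Real.norm_eq_abs, Real.norm_eq_abs, Real.rpow_one, abs_of_nonneg (Real.rpow_nonneg h2 _),
      abs_of_nonneg (Nat.cast_nonneg N : (0 : ℝ) ≤ (N : ℝ))] at h1
    have e3 : (Real.log (N : ℝ)) ^ (2:ℝ) = (Real.log N) ^ 2 := by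
      rw [← Real.rpow_natCast]; norm_num
    rw [e3, div_mul_eq_mul_div, one_mul, le_div_iff₀ (by positivity)] at h1
    have h3 : c * (Real.log N) ^ 2 ≤ (|c| + 1) * (Real.log N) ^ 2 := by
      apply mul_le_mul_of_nonneg_right _ (sq_nonneg _)
      linarith [le_abs_self c]
    linarith
  filter_upwards [hlog.eventually_ge_atTop 1, hsq (1 / δ), hsq (8 * (A + 3) / δ),
    hcast.eventually_ge_atTop (240 * (B : ℝ)), eventually_ge_atTop 3] with N hT hN1 hN2 hN3 hN4
  intro PP P0 M Q hP hP0 hM0 hMp hBM hPp hP0D hQ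
  set T := Real.log N with hTdef
  have hT0 : 0 < T := by linarith
  have hN0 : (0 : ℝ) < N := by exact_mod_cast (by omega : 0 < N)
  obtain ⟨D, hD⟩ : ∃ D, D = δ * N / T := ⟨_, rfl⟩
  rw [← hD] at hP0D
  have hDT : D * T = δ * N := by rw [hD]; field_simp
  have hD1 : 1 ≤ D := by
    rw [hD, le_div_iff₀ hT0, one_mul]
    have h1 : T ^ 2 ≤ δ * N := by
      have := hN1
      rw [one_div, inv_mul_le_iff₀ hδ0] at this
      exact this
    nlinarith
  have hDN : D ≤ N := by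
    rw [hD, div_le_iff₀ hT0]
    nlinarith
  have hD8 : (A + 3) * T ≤ D / 8 := by
    have h1 : 8 * (A + 3) * T ^ 2 ≤ δ * N := by
      have := hN2
      rw [div_mul_eq_mul_div, div_le_iff₀ hδ0] at this
      linarith
    have h2 : 8 * ((A + 3) * T) * T ≤ D * T := by rw [hDT]; nlinarith
    have h3 := le_of_mul_le_mul_right h2 hT0
    linarith
  have hexpT : Real.exp T = N := by rw [hTdef, Real.exp_log hN0]
  -- the radii
  set R : ℕ → ℝ := fun j => Real.exp (2 ^ j * D) with hR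
  have hR0 : ∀ j, 0 < R j := fun j => Real.exp_pos _
  have hex : ∃ j : ℕ, ε * N ≤ 2 ^ j * D := by
    obtain ⟨j, hj⟩ := pow_unbounded_of_one_lt (ε * N) (by norm_num : (1 : ℝ) < 2)
    exact ⟨j, by nlinarith [pow_pos (by norm_num : (0 : ℝ) < 2) j]⟩
  classical
  set J := Nat.find hex with hJ
  have hJ1 : ε * N ≤ 2 ^ J * D := Nat.find_spec hex
  have hJ2 : ∀ j < J, (2 : ℝ) ^ j * D < ε * N := fun j hj => not_le.1 (Nat.find_min hex hj)
  have hJN : J ≤ N := by
    rcases Nat.eq_zero_or_pos J with h | h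
    · omega
    · have h1 := hJ2 (J - 1) (by omega)
      have h2 : (2 : ℝ) ^ (J - 1) < N := by
        have h3 : (2 : ℝ) ^ (J - 1) ≤ 2 ^ (J - 1) * D :=
          le_mul_of_one_le_right (by positivity) hD1
        have h4 : ε * N ≤ 1 * N := mul_le_mul_of_nonneg_right (by linarith) hN0.le
        linarith
      have h5 : 2 ^ (J - 1) < N := by exact_mod_cast h2
      have h6 := @Nat.lt_two_pow_self (J - 1)
      omega
  set S := ((range P0 ×ˢ II PP).erase (0, 0)).filter (fun t => (qT PP t.2 : ℝ) ≤ Q) with hS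
  have hbk : ∀ t ∈ S, 0 ≤ bk B l N (M * theta PP P0 t.1 t.2) := fun t _ => bk_nonneg hl _ _
  have hdy := dyadic S (fun t => (qT PP t.2 : ℝ)) (fun t => bk B l N (M * theta PP P0 t.1 t.2)) hbk
    (fun t _ => by exact_mod_cast one_le_qT hP t.2) R hR0 J (by
      intro t ht
      rw [hS, mem_filter] at ht
      refine ht.2.trans (hQ.trans ?_)
      exact Real.exp_le_exp.2 hJ1)
  refine hdy.trans ?_
  have hmono : ∀ r : ℝ, ∑ t ∈ S.filter (fun t => (qT PP t.2 : ℝ) ≤ r), bk B l N (M * theta PP P0 t.1 t.2) ≤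
      ∑ t ∈ ((range P0 ×ˢ II PP).erase (0, 0)).filter (fun t => (qT PP t.2 : ℝ) ≤ r),
        bk B l N (M * theta PP P0 t.1 t.2) := by
    intro r
    apply sum_le_sum_of_subset_of_nonneg
    · intro t ht
      rw [mem_filter] at ht ⊢
      rw [hS, mem_filter] at ht
      exact ⟨ht.1.1, ht.2⟩
    · intro t _ _
      exact bk_nonneg hl _ _
  -- the block lengths
  have hLs : ∀ s : ℝ, 1 ≤ s → s ≤ ε * N → Ls s ≤ N := by
    intro s hs hs2
    have h1 := Ls_le hs
    have h2 : 11 * s ≤ N := by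
      have : 11 * (ε * N) ≤ N := by nlinarith
      linarith
    exact_mod_cast h1.trans h2
  have hDε : D ≤ ε * N ∨ J = 0 := by
    rcases Nat.eq_zero_or_pos J with h | h
    · exact Or.inr h
    · left
      have := hJ2 0 h
      simp at this
      exact this.le
  have hLD : Ls D ≤ N := by
    have h1 := Ls_le hD1
    have h2 : 11 * D ≤ N := by
      have h3 : 11 * D * T ≤ N * T := by
        have : 11 * (D * T) = 11 * δ * N := by rw [hDT]; ring
        have h4 : 11 * δ ≤ T := by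
          have h5 : 11 * δ ≤ 1 := by
            have h6 : δ * (11 * 3) ≤ δ * (11 * (A + 3)) := by
              apply mul_le_mul_of_nonneg_left _ hδ0.le
              have : (0 : ℝ) ≤ A := Nat.cast_nonneg _
              linarith
            linarith
          linarith
        nlinarith
      exact le_of_mul_le_mul_right h3 hT0
    exact_mod_cast h1.trans h2
  -- the first sum
  have hNA : (0 : ℝ) < (N : ℝ) ^ A := pow_pos hN0 _
  have hfirst : ∑ t ∈ S.filter (fun t => (qT PP t.2 : ℝ) ≤ R 0), bk B l N (M * theta PP P0 t.1 t.2) ≤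
      1 / (N : ℝ) ^ A / 2 := by
    refine (hmono _).trans ?_
    have h1 := piece hP hB hl hl1.le hP0 hM0 hMp hBM hPp hD1 le_rfl hP0D (R := R 0) (by
      rw [hR]
      apply Real.exp_le_exp.2
      simp only [pow_zero, one_mul]
      linarith) (hR0 0).le hLD
    refine h1.trans ?_
    have h2 : l ^ (N / Ls D) ≤ Real.exp 1 * Real.exp (-((A + 3) * T)) := by
      refine (pow_le_exp hl _).trans ?_
      rw [← Real.exp_add]
      apply Real.exp_le_exp.2
      have h3 := Ks_ge hD1 N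
      have h4 : (A + 3) * T ≤ ν * (N / (11 * D)) := by
        rw [mul_div_assoc', le_div_iff₀ (by positivity)]
        have : (A + 3) * T * (11 * D) = δ * (11 * (A + 3)) * N := by
          calc (A + 3) * T * (11 * D) = 11 * (A + 3) * (D * T) := by ring
            _ = _ := by rw [hDT]; ring
        rw [this]
        exact mul_le_mul_of_nonneg_right hδν hN0.le
      have h5 : ν * ((N : ℝ) / (11 * D) - 1) ≤ ν * ((N / Ls D : ℕ) : ℝ) := mul_le_mul_of_nonneg_left h3 hν0.le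
      nlinarith
    have h6 : Real.exp (-((A + 3) * T)) = 1 / ((N : ℝ) ^ A * (N : ℝ) ^ 3) := by
      rw [Real.exp_neg, ← pow_add, ← hexpT, ← Real.exp_nat_mul, one_div]
      push_cast
      ring_nf
    have h7 : 2 * (B : ℝ) * l ^ (N / Ls D) * (Ls D) ≤ 1 / (N : ℝ) ^ A / 4 := by
      have h8 : (Ls D : ℝ) ≤ 11 * N := (Ls_le hD1).trans (by linarith)
      have h9 := Real.exp_one_lt_d9
      have h10 : l ^ (N / Ls D) ≤ 2.72 * (1 / ((N : ℝ) ^ A * (N : ℝ) ^ 3)) := by
        rw [h6] at h2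
        refine h2.trans ?_
        apply mul_le_mul_of_nonneg_right (by linarith) (by positivity)
      calc 2 * (B : ℝ) * l ^ (N / Ls D) * (Ls D)
          ≤ 2 * (B : ℝ) * (2.72 * (1 / ((N : ℝ) ^ A * (N : ℝ) ^ 3))) * (11 * N) := by
            apply mul_le_mul _ h8 (Nat.cast_nonneg _) (by positivity)
            exact mul_le_mul_of_nonneg_left h10 (by positivity)
        _ = (59.84 * B / (N : ℝ) ^ 2) * (1 / (N : ℝ) ^ A) := by
            field_simp
            ring
        _ ≤ (1 / 4) * (1 / (N : ℝ) ^ A) := by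
            apply mul_le_mul_of_nonneg_right _ (by positivity)
            rw [div_le_iff₀ (by positivity)]
            have h11 : (1 : ℝ) ≤ N := by exact_mod_cast (by omega : 1 ≤ N)
            nlinarith
        _ = _ := by ring
    have h12 : 2 * (B : ℝ) * l ^ (N / Ls D) * (Ls D) ≤ 1 := by
      refine h7.trans ?_
      have h13 : (1 : ℝ) ≤ (N : ℝ) ^ A := one_le_pow₀ (by exact_mod_cast (by omega : 1 ≤ N))
      rw [div_div, div_le_one (by positivity)]
      linarith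
    have h14 := one_add_pow_sub (2 * B * l ^ (N / Ls D)) (by positivity) (Ls D) h12
    linarith
  -- the blocks
  have hblock : ∀ j ∈ range J, (R j) ^ (-(1 / 4) : ℝ) *
      ∑ t ∈ S.filter (fun t => (qT PP t.2 : ℝ) ≤ R (j + 1)), bk B l N (M * theta PP P0 t.1 t.2) ≤
      1 / ((N : ℝ) ^ A * (N : ℝ) ^ 3) := by
    intro j hj
    have hj' := hJ2 j (mem_range.1 hj)
    obtain ⟨s, hs⟩ : ∃ s, s = (2 : ℝ) ^ j * D := ⟨_, rfl⟩
    rw [← hs] at hj'
    have hDs : D ≤ s := by
      rw [hs]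
      exact le_mul_of_one_le_left (by linarith) (one_le_pow₀ (by norm_num))
    have hs1 : 1 ≤ s := hD1.trans hDs
    have hs0 : 0 < s := by linarith
    have h1 := piece hP hB hl hl1.le hP0 hM0 hMp hBM hPp hD1 hDs hP0D (R := R (j + 1)) (by
      rw [hR]
      apply Real.exp_le_exp.2
      rw [hs, pow_succ]
      linarith) (hR0 _).le (hLs s hs1 hj'.le)
    have h2 : l ^ (N / Ls s) ≤ 1 / (176 * B) := by
      refine (pow_le_exp hl _).trans ?_
      have h3 := Ks_ge hs1 N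
      have h4 : 1 / (11 * ε) ≤ N / (11 * s) := by
        rw [div_le_div_iff₀ (by positivity) (by positivity)]
        nlinarith
      have h5 : κ ≤ ν * (1 / (11 * ε)) := by
        rw [mul_one_div, le_div_iff₀ (by positivity)]
        linarith
      have h6 : Real.log (176 * B) ≤ ν * ((N / Ls s : ℕ) : ℝ) := by
        have h7 : ν * (1 / (11 * ε)) ≤ ν * (N / (11 * s)) := mul_le_mul_of_nonneg_left h4 hν0.le
        have h8 : ν * ((N : ℝ) / (11 * s) - 1) ≤ ν * ((N / Ls s : ℕ) : ℝ) := mul_le_mul_of_nonneg_left h3 hν0.le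
        rw [hκ] at h5
        nlinarith
      rw [Real.exp_neg, one_div]
      apply inv_anti₀ (by positivity)
      rw [← Real.log_le_iff_le_exp (by positivity)]
      exact h6
    have h9 : (1 + 2 * B * l ^ (N / Ls s)) ^ (Ls s) ≤ Real.exp (s / 8) := by
      refine (one_add_pow _ (by positivity) _).trans ?_
      apply Real.exp_le_exp.2
      have h10 : 2 * (B : ℝ) * l ^ (N / Ls s) ≤ 1 / 88 := by
        calc 2 * (B : ℝ) * l ^ (N / Ls s) ≤ 2 * B * (1 / (176 * B)) := mul_le_mul_of_nonneg_left h2 (by positivity)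
          _ = 1 / 88 := by field_simp; norm_num
      calc 2 * (B : ℝ) * l ^ (N / Ls s) * (Ls s) ≤ 1 / 88 * (11 * s) :=
            mul_le_mul h10 (Ls_le hs1) (Nat.cast_nonneg _) (by norm_num)
        _ = s / 8 := by ring
    have h11 : (R j) ^ (-(1 / 4) : ℝ) = Real.exp (-(s / 4)) := by
      rw [hR]
      simp only
      rw [← hs, ← Real.exp_mul]
      congr 1
      ring
    rw [h11]
    calc Real.exp (-(s / 4)) * ∑ t ∈ S.filter (fun t => (qT PP t.2 : ℝ) ≤ R (j + 1)), bk B l N (M * theta PP P0 t.1 t.2)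
        ≤ Real.exp (-(s / 4)) * Real.exp (s / 8) := by
          apply mul_le_mul_of_nonneg_left _ (Real.exp_pos _).le
          refine (hmono _).trans (h1.trans ?_)
          linarith
      _ = Real.exp (-(s / 8)) := by rw [← Real.exp_add]; congr 1; ring
      _ ≤ Real.exp (-((A + 3) * T)) := Real.exp_le_exp.2 (by linarith)
      _ = _ := by
          rw [Real.exp_neg, ← pow_add, ← hexpT, ← Real.exp_nat_mul, one_div]
          push_cast
          ring_nf
  have hsum := sum_le_sum hblock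
  rw [sum_const, card_range, nsmul_eq_mul] at hsum
  have hJr : (J : ℝ) ≤ N := by exact_mod_cast hJN
  have h15 : (J : ℝ) * (1 / ((N : ℝ) ^ A * (N : ℝ) ^ 3)) ≤ 1 / (N : ℝ) ^ A / 2 := by
    calc (J : ℝ) * (1 / ((N : ℝ) ^ A * (N : ℝ) ^ 3)) ≤ N * (1 / ((N : ℝ) ^ A * (N : ℝ) ^ 3)) :=
          mul_le_mul_of_nonneg_right hJr (by positivity)
      _ = (1 / (N : ℝ) ^ 2) * (1 / (N : ℝ) ^ A) := by field_simp
      _ ≤ (1 / 2) * (1 / (N : ℝ) ^ A) := by
          apply mul_le_mul_of_nonneg_right _ (by positivity)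
          apply one_div_le_one_div_of_le (by norm_num)
          have : (3 : ℝ) ≤ N := by exact_mod_cast hN4
          nlinarith
      _ = _ := by ring
  linarith

end Pool.Agent.D0H92.RG
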