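import Pool.Agent.D0H92.RG.Wt
import Pool.Agent.D0H92.RG.Num
import Pool.Agent.D0H92.AG.Cov

set_option autoImplicit false
set_option linter.unusedSectionVars false

/-!
# Coverings by the members of sets with missing digits
-/

namespace Pool.Agent.D0H92.RG

open Finset Filter Pool.Agent.D0H92.AG Pool.Agent.H256R2.SC

/-- the real inequality behind the counting -/
lemma count_real {T s P M Z E sF e W R : ℝ} (hP : 0 < P) (hM : 0 < M) (hT : 0 ≤ T) (hZ : 1 ≤ Z)
    (h1 : |sF - s / P * E| ≤ T / P * (Z * R)) (hs : T ≤ M * s) (hE : Z / 2 ≤ E) (hs0 : 0 ≤ s)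
    (hF : sF ≤ W * (9 * e)) (hR : R ≤ 1 / (4 * M)) :
    T ≤ 36 * M * P * e * W := by
  have h2 := (abs_le.1 h1).1
  have h3 : T / P * (Z * R) ≤ T / P * (Z * (1 / (4 * M))) := by
    refine mul_le_mul_of_nonneg_left (mul_le_mul_of_nonneg_left hR (by linarith)) (by positivity)
  have h4 : s / P * (Z / 2) ≤ s / P * E := mul_le_mul_of_nonneg_left hE (by positivity)
  have h5 : (T / M) / P * (Z / 2) ≤ s / P * (Z / 2) := by
    refine mul_le_mul_of_nonneg_right (div_le_div_of_nonneg_right ?_ hP.le) (by linarith)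
    rw [div_le_iff₀ hM]
    linarith
  have h6 : T * Z / (4 * M * P) ≤ W * (9 * e) := by
    have e1 : (T / M) / P * (Z / 2) - T / P * (Z * (1 / (4 * M))) = T * Z / (4 * M * P) := by
      field_simp
      ring
    linarith
  rw [div_le_iff₀ (by positivity)] at h6
  have h7 : T ≤ T * Z := le_mul_of_one_le_right hT hZ
  linarith

/-- **Coverings.** -/
theorem digit_cover (B g : ℕ) (hB : 2 ≤ B) (hg : 1 ≤ g) (η : ℝ) (hη : 0 < η) :
    ∃ δ c s : ℝ, 0 < δ ∧ δ ≤ 1 ∧ 0 < c ∧ 0 < s ∧ ∀ᶠ N : ℕ in atTop, ∀ (A : Fin N → Finset ℕ),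
      (∀ j, ∀ a ∈ A j, a < B) → (∀ j, 2 ≤ (A j).card) → ∀ c₀ : ℤ, ∃ ρ : ℤ,
      ∀ (κ : Type) [Fintype κ] [DecidableEq κ] [Nonempty κ], (Fintype.card κ : ℝ) ≤ c * N →
        ∀ (res : ℕ → κ → ℤ) (r0 : ℤ),
        (∀ p : ℕ, p.Prime → s * (N : ℝ) ^ 2 < p → ∀ k l, k ≠ l → ¬ ((p : ℤ) ∣ res p k - res p l)) →
        ∃ W ⊆ Fintype.piFinset A,
          ((Fintype.piFinset A).card : ℝ) ≤ Real.exp (η * N) * W.card ∧
          ∀ d ∈ W, ((g * B.factorial : ℕ) : ℤ) ∣ val c₀ g B d - ρ ∧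
            ((P0 (g * B.factorial) ⌊δ * N / Real.log N⌋₊ : ℕ) : ℤ) ∣ val c₀ g B d - r0 ∧
            ∀ k, ∃ p : ℕ, p.Prime ∧ (p : ℝ) ≤ Real.exp (N / Real.log N) ∧ (p : ℤ) ∣ val c₀ g B d - res p k := by
  classical
  obtain ⟨c, hc, L₀, hw⟩ := weight
  obtain ⟨η', hη'⟩ : ∃ η', η' = min (η / 3) 1 := ⟨_, rfl⟩
  have hη'0 : 0 < η' := by rw [hη']; exact lt_min (by positivity) one_pos
  have hη'1 : η' ≤ 1 := by rw [hη']; exact min_le_right _ _
  have hη'2 : η' ≤ η / 3 := by rw [hη']; exact min_le_left _ _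
  obtain ⟨δ, ε, hδ0, hδη, hε0, hεη, hfreq⟩ :=
    freq_num B hB (lamB B) (lamB_nonneg B hB) (lamB_lt_one B hB) 24 η' hη'0
  refine ⟨δ, c * ε, ε ^ 2, hδ0, hδη.trans hη'1, by positivity, by positivity, ?_⟩
  obtain ⟨M, hM⟩ : ∃ M, M = g * B.factorial := ⟨_, rfl⟩
  rw [← hM]
  have hM0 : 0 < M := by rw [hM]; exact Nat.mul_pos hg (Nat.factorial_pos _)
  have hMr : (0 : ℝ) < M := by exact_mod_cast hM0
  have hcast : Tendsto (fun N : ℕ => (N : ℝ)) atTop atTop := tendsto_natCast_atTop_atTop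
  have hlog : Tendsto (fun N : ℕ => Real.log N) atTop atTop := Real.tendsto_log_atTop.comp hcast
  filter_upwards [hfreq, hcast.eventually_ge_atTop (L₀ / ε), hcast.eventually_ge_atTop (4 * M),
    hcast.eventually_ge_atTop (M / ε ^ 2), hcast.eventually_ge_atTop (1 / ε ^ 2),
    hcast.eventually_ge_atTop (Real.log (36 * M) / η'), hlog.eventually_ge_atTop 2,
    hlog.eventually_ge_atTop (-(2 * Real.log ε)), eventually_ge_atTop 1] with
    N h1 h2 h3 h4 h4' h5 h6 h6' h7 A hA hA2 c₀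
  have hN1 : (1 : ℝ) ≤ N := by exact_mod_cast h7
  have hN0 : (0 : ℝ) < N := by linarith
  set T := Real.log N with hT
  obtain ⟨L, hL⟩ : ∃ L, L = ε * N := ⟨_, rfl⟩
  have hLL : L₀ ≤ L := by
    rw [hL]
    rw [div_le_iff₀ hε0] at h2
    linarith
  have hLN : L ≤ N := by
    rw [hL]
    nlinarith
  obtain ⟨f1, f2, z, PP, hz0, hz1, hPP, hw⟩ := hw L hLL
  have hLpos : 0 < L := by linarith
  obtain ⟨ρ, hρ⟩ := exists_class c₀ g B M hM0 A
  refine ⟨ρ, fun κ _ _ _ hcard res r0 hres => ?_⟩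
  have hprime : ∀ p ∈ PP, p.Prime := fun p hp => (hPP p hp).1
  have hL2 : L ^ 2 = ε ^ 2 * (N : ℝ) ^ 2 := by rw [hL]; ring
  have hinj : ∀ p ∈ PP, ∀ k l, k ≠ l → ¬ ((p : ℤ) ∣ res p k - res p l) := by
    intro p hp
    refine hres p (hprime p hp) ?_
    rw [← hL2]
    exact (hPP p hp).2.1
  obtain ⟨F, Z, hZ1, hEE, hFle, hFcov, hFh, hFh0⟩ := hw κ (by rw [hL]; linarith) res hinj
  -- the moduli
  obtain ⟨Y, hY⟩ : ∃ Y, Y = ⌊δ * N / T⌋₊ := ⟨_, rfl⟩
  rw [← hY]
  obtain ⟨P, hP⟩ : ∃ P, P = P0 M Y := ⟨_, rfl⟩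
  rw [← hP]
  have hP0 : 0 < P := by rw [hP]; exact P0_pos _ _
  have hPr : (0 : ℝ) < P := by exact_mod_cast hP0
  have hYle : (Y : ℝ) ≤ δ * N / T := by rw [hY]; exact Nat.floor_le (by positivity)
  have hδN : δ * N / T ≤ N := by
    rw [div_le_iff₀ (by linarith)]
    have : δ ≤ 1 := hδη.trans hη'1
    nlinarith
  have hbig : ∀ p ∈ PP, (M : ℝ) < p ∧ (Y : ℝ) < p := by
    intro p hp
    have e1 := (hPP p hp).2.1
    rw [hL2] at e1
    rw [div_le_iff₀ (by positivity)] at h4 h4'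
    constructor
    · nlinarith
    · nlinarith
  have hMp : ∀ p ∈ PP, Nat.Coprime M p := by
    intro p hp
    refine Nat.Coprime.symm ((hprime p hp).coprime_iff_not_dvd.2 fun h => ?_)
    have e1 := Nat.le_of_dvd hM0 h
    have e2 : (M : ℝ) < p := (hbig p hp).1
    have e3 : M < p := by exact_mod_cast e2
    omega
  have hPp : ∀ p ∈ PP, Nat.Coprime P p := by
    intro p hp
    refine Nat.Coprime.symm ((hprime p hp).coprime_iff_not_dvd.2 ?_)
    rw [hP]
    refine not_dvd_P0 (hprime p hp) ?_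
    have e2 : (Y : ℝ) < p := (hbig p hp).2
    exact_mod_cast e2
  have hBM : B ∣ M := by
    rw [hM]
    exact (Nat.dvd_factorial (by omega) le_rfl).mul_left _
  have hP4 : (P : ℝ) ≤ Real.exp (2 * (δ * N / T)) := by
    have e1 : (P : ℝ) ≤ (4 : ℝ) ^ Y := by rw [hP]; exact_mod_cast P0_le M Y
    refine e1.trans ?_
    have e2 : (4 : ℝ) ≤ Real.exp 2 := by
      have := Real.exp_one_gt_d9
      have e3 : Real.exp 2 = Real.exp 1 * Real.exp 1 := by rw [← Real.exp_add]; norm_num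
      rw [e3]
      nlinarith
    calc (4 : ℝ) ^ Y ≤ Real.exp 2 ^ Y := pow_le_pow_left₀ (by norm_num) e2 Y
      _ = Real.exp (2 * Y) := by rw [← Real.exp_nat_mul]; ring_nf
      _ ≤ _ := Real.exp_le_exp.2 (by linarith)
  have hfr := h1 PP P M (Real.exp L) hprime hP0 (by rw [hP]; exact coprime_P0 fun _ _ h => h) hMp hBM hPp hP4
    (by rw [hL])
  have htr := trans_four hprime hinj ((Fintype.piFinset A).filter (fun d => (M : ℤ) ∣ val c₀ g B d - ρ))
    (val c₀ g B) P hP0 r0 F ((Fintype.piFinset A).card : ℝ) (fun θ => bk B (lamB B) N (M * θ)) (by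
      intro θ
      rw [hM]
      exact norm_sum_class c₀ g B hg hB A hA hA2 ρ θ)
  -- the error term
  have herr : ∑ t ∈ (range P ×ˢ II PP).erase (0, 0), ‖Fh PP res F t.2‖ *
      bk B (lamB B) N (M * theta PP P t.1 t.2) ≤ Z * (1 / (N : ℝ) ^ 2) := by
    have e1 : ∀ t ∈ (range P ×ˢ II PP).erase (0, 0), t.2 ∈ II PP := by
      intro t ht
      rw [mem_erase, mem_product] at ht
      exact ht.2.2
    have e2 : ∑ t ∈ (range P ×ˢ II PP).erase (0, 0), ‖Fh PP res F t.2‖ * bk B (lamB B) N (M * theta PP P t.1 t.2) ≤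
        ∑ t ∈ ((range P ×ˢ II PP).erase (0, 0)).filter (fun t => (qT PP t.2 : ℝ) ≤ Real.exp L),
          L ^ 22 * Z * ((qT PP t.2 : ℝ) ^ (-(1 / 4) : ℝ) * bk B (lamB B) N (M * theta PP P t.1 t.2)) := by
      rw [sum_filter]
      refine sum_le_sum fun t ht => ?_
      split_ifs with hq
      · rw [← mul_assoc]
        exact mul_le_mul_of_nonneg_right (hFh t.2 (e1 t ht)) (bk_nonneg (lamB_nonneg B hB) _ _)
      · rw [hFh0 t.2 (e1 t ht) (not_le.1 hq)]
        simp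
    refine e2.trans ?_
    rw [← mul_sum]
    have e3 : L ^ 22 * Z * (1 / (N : ℝ) ^ 24) ≤ Z * (1 / (N : ℝ) ^ 2) := by
      have e4 : L ^ 22 ≤ (N : ℝ) ^ 22 := pow_le_pow_left₀ hLpos.le hLN 22
      calc L ^ 22 * Z * (1 / (N : ℝ) ^ 24) ≤ (N : ℝ) ^ 22 * Z * (1 / (N : ℝ) ^ 24) := by
            refine mul_le_mul_of_nonneg_right (mul_le_mul_of_nonneg_right e4 (by linarith)) (by positivity)
        _ = Z * (1 / (N : ℝ) ^ 2) := by field_simp
    refine le_trans ?_ e3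
    exact mul_le_mul_of_nonneg_left hfr (mul_nonneg (by positivity) (by linarith))
  have htr' := htr.trans (mul_le_mul_of_nonneg_left herr (by positivity))
  -- the members
  set S := (Fintype.piFinset A).filter (fun d => (M : ℤ) ∣ val c₀ g B d - ρ) with hS
  set W := (S.filter (fun d => (P : ℤ) ∣ val c₀ g B d - r0)).filter
    (fun d => 0 < F (colr PP res (val c₀ g B d))) with hWdef
  have hWF : ∑ d ∈ S.filter (fun d => (P : ℤ) ∣ val c₀ g B d - r0), F (colr PP res (val c₀ g B d)) ≤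
      W.card * (9 * Real.exp (L / 10)) := by
    have e1 : (W.card : ℝ) * (9 * Real.exp (L / 10)) =
        ∑ d ∈ S.filter (fun d => (P : ℤ) ∣ val c₀ g B d - r0),
          if 0 < F (colr PP res (val c₀ g B d)) then 9 * Real.exp (L / 10) else 0 := by
      rw [← nsmul_eq_mul, ← sum_const, hWdef]
      exact sum_filter _ _
    rw [e1]
    refine sum_le_sum fun d _ => ?_
    split_ifs with hd
    · exact hFle _
    · exact not_lt.1 hd
  have hcnt := count_real (R := 1 / (N : ℝ) ^ 2) hPr hMr (Nat.cast_nonneg _) hZ1 htr' hρ hEE (Nat.cast_nonneg _)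
    hWF (one_div_le_one_div_of_le (by positivity) (by nlinarith))
  refine ⟨W, (filter_subset _ _).trans ((filter_subset _ _).trans (filter_subset _ _)), ?_, ?_⟩
  · refine hcnt.trans (mul_le_mul_of_nonneg_right ?_ (Nat.cast_nonneg _))
    have e1 : 36 * (M : ℝ) ≤ Real.exp (η' * N) := by
      rw [← Real.log_le_iff_le_exp (by positivity)]
      rw [div_le_iff₀ hη'0] at h5
      linarith
    have e2 : (P : ℝ) ≤ Real.exp (η' * N) := by
      refine hP4.trans (Real.exp_le_exp.2 ?_)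
      have : δ * N / T ≤ δ * N / 2 := div_le_div_of_nonneg_left (by positivity) (by norm_num) h6
      nlinarith
    have e3 : Real.exp (L / 10) ≤ Real.exp (η' * N) := by
      refine Real.exp_le_exp.2 ?_
      rw [hL]
      nlinarith
    calc 36 * (M : ℝ) * P * Real.exp (L / 10) ≤ Real.exp (η' * N) * Real.exp (η' * N) * Real.exp (η' * N) := by
          refine mul_le_mul (mul_le_mul e1 e2 hPr.le (Real.exp_pos _).le) e3 (Real.exp_pos _).le (by positivity)
      _ = Real.exp (3 * (η' * N)) := by rw [← Real.exp_add, ← Real.exp_add]; ring_nf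
      _ ≤ Real.exp (η * N) := Real.exp_le_exp.2 (by nlinarith)
  · intro d hd
    rw [hWdef, mem_filter, mem_filter, hS, mem_filter] at hd
    obtain ⟨⟨⟨-, hd1⟩, hd2⟩, hd3⟩ := hd
    refine ⟨hd1, hd2, fun k => ?_⟩
    obtain ⟨i, hi⟩ := hFcov _ hd3 k
    rw [colr_eq hinj] at hi
    refine ⟨emb PP i, hprime _ (emb_mem PP i), ?_, hi⟩
    refine (hPP _ (emb_mem PP i)).2.2.trans ?_
    rw [← Real.log_le_iff_le_exp hz0]
    refine hz1.trans ?_
    -- the logarithm of `L`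
    have e1 : T / 2 ≤ Real.log L := by
      rw [hL, Real.log_mul hε0.ne' hN0.ne', ← hT]
      linarith
    rw [div_le_div_iff₀ (by positivity) (by linarith)]
    nlinarith

end Pool.Agent.D0H92.RG
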