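import Pool.Agent.D0H92.RG.Trans

set_option autoImplicit false
set_option linter.unusedSectionVars false

/-!
# The frequencies are separated
-/

namespace Pool.Agent.D0H92.RG

open Finset Pool.Agent.D0H92.AG Pool.Agent.H256R2.SC

/-- `x` is an integer -/
def IsI (x : ℝ) : Prop := ∃ n : ℤ, x = n

lemma IsI.add {x y : ℝ} (hx : IsI x) (hy : IsI y) : IsI (x + y) := by
  obtain ⟨n, rfl⟩ := hx
  obtain ⟨m, rfl⟩ := hy
  exact ⟨n + m, by push_cast; ring⟩

lemma IsI.sub {x y : ℝ} (hx : IsI x) (hy : IsI y) : IsI (x - y) := by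
  obtain ⟨n, rfl⟩ := hx
  obtain ⟨m, rfl⟩ := hy
  exact ⟨n - m, by push_cast; ring⟩

lemma IsI.nat_mul {x : ℝ} (hx : IsI x) (k : ℕ) : IsI (k * x) := by
  obtain ⟨n, rfl⟩ := hx
  exact ⟨k * n, by push_cast; ring⟩

lemma IsI.sum {ι : Type} (s : Finset ι) (f : ι → ℝ) (h : ∀ i ∈ s, IsI (f i)) : IsI (∑ i ∈ s, f i) := by
  classical
  induction s using Finset.induction_on with
  | empty => exact ⟨0, by simp⟩
  | insert i s hi ih =>
    rw [sum_insert hi]
    exact (h i (mem_insert_self _ _)).add (ih fun j hj => h j (mem_insert_of_mem hj))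

lemma IsI.of_dvd {w m : ℕ} (hm : 0 < m) (h : m ∣ w) (b : ℕ) : IsI (w * ((b : ℝ) / m)) := by
  obtain ⟨k, rfl⟩ := h
  have hm0 : (m : ℝ) ≠ 0 := by exact_mod_cast hm.ne'
  exact ⟨k * b, by push_cast; field_simp⟩

/-- uniqueness of a numerator -/
lemma eq_of_isI {m c x x' : ℕ} (hc : Nat.Coprime c m) (hx : x < m) (hx' : x' < m)
    (h : IsI (c * ((x : ℝ) / m) - c * ((x' : ℝ) / m))) : x = x' := by
  obtain ⟨n, hn⟩ := h
  have hm0 : (m : ℝ) ≠ 0 := by exact_mod_cast (by omega : m ≠ 0)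
  have h1 : ((c : ℤ) * x - c * x' : ℤ) = n * m := by
    have h2 : ((c : ℝ) * x - c * x') = n * m := by
      field_simp at hn
      linarith
    exact_mod_cast h2
  have h3 : (m : ℤ) ∣ c * ((x : ℤ) - x') := ⟨n, by linear_combination h1⟩
  have h4 : IsCoprime (m : ℤ) (c : ℤ) := Nat.isCoprime_iff_coprime.2 hc.symm
  have h5 := h4.dvd_of_dvd_mul_left h3
  have h6 : (x : ℤ) ≡ x' [ZMOD m] := ((Int.modEq_iff_dvd).2 h5).symm
  unfold Int.ModEq at h6
  rw [Int.emod_eq_of_lt (by omega) (by omega), Int.emod_eq_of_lt (by omega) (by omega)] at h6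
  exact_mod_cast h6

section

variable {PP : Finset ℕ} (hP : ∀ p ∈ PP, p.Prime)

include hP in
lemma theta_den {P0 : ℕ} (hP0 : 0 < P0) (b : ℕ) (a : Fin PP.card → ℕ) (w : ℕ) (h0 : P0 ∣ w)
    (h : ∀ i, a i ≠ 0 → emb PP i ∣ w) : IsI (w * theta PP P0 b a) := by
  unfold theta
  rw [mul_add, mul_sum]
  refine (IsI.of_dvd hP0 h0 b).add (IsI.sum _ _ fun i _ => ?_)
  by_cases hi : a i = 0
  · rw [hi]; exact ⟨0, by simp⟩
  · exact IsI.of_dvd (emb_pos hP i) (h i hi) (a i)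

include hP in
lemma theta_int {P0 M : ℕ} (hP0 : 0 < P0) (hM0 : Nat.Coprime M P0) (hMp : ∀ p ∈ PP, Nat.Coprime M p)
    (hPp : ∀ p ∈ PP, Nat.Coprime P0 p) {b b' : ℕ} {a a' : Fin PP.card → ℕ} (hb : b < P0) (hb' : b' < P0)
    (ha : a ∈ II PP) (ha' : a' ∈ II PP) (h : IsI (M * (theta PP P0 b a - theta PP P0 b' a'))) :
    b = b' ∧ a = a' := by
  classical
  have hai : ∀ i, a i < emb PP i := fun i => by
    unfold II at ha
    exact mem_range.1 (Fintype.mem_piFinset.1 ha i)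
  have hai' : ∀ i, a' i < emb PP i := fun i => by
    unfold II at ha'
    exact mem_range.1 (Fintype.mem_piFinset.1 ha' i)
  refine ⟨?_, ?_⟩
  · set c := ∏ i, emb PP i with hc
    have hcd : ∀ i, emb PP i ∣ c := fun i => dvd_prod_of_mem _ (mem_univ i)
    apply eq_of_isI (m := P0) (c := c * M) _ hb hb'
    · have h1 := h.nat_mul c
      have h2 : IsI (∑ i, (c * M : ℕ) * ((a i : ℝ) / (emb PP i : ℕ))) :=
        IsI.sum _ _ fun i _ => IsI.of_dvd (emb_pos hP i) ((hcd i).mul_right M) _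
      have h3 : IsI (∑ i, (c * M : ℕ) * ((a' i : ℝ) / (emb PP i : ℕ))) :=
        IsI.sum _ _ fun i _ => IsI.of_dvd (emb_pos hP i) ((hcd i).mul_right M) _
      have h4 := (h1.sub h2).add h3
      have e : ((c * M : ℕ) : ℝ) * ((b : ℝ) / P0) - ((c * M : ℕ) : ℝ) * ((b' : ℝ) / P0) =
          c * (M * (theta PP P0 b a - theta PP P0 b' a')) - (∑ i, ((c * M : ℕ) : ℝ) * ((a i : ℝ) / (emb PP i : ℕ))) +
            ∑ i, ((c * M : ℕ) : ℝ) * ((a' i : ℝ) / (emb PP i : ℕ)) := by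
        unfold theta
        rw [← mul_sum, ← mul_sum]
        push_cast
        ring
      rw [e]
      exact h4
    · apply Nat.Coprime.mul_left _ hM0
      rw [hc]
      exact Nat.Coprime.prod_left fun i _ => (hPp _ (emb_mem PP i)).symm
  · funext i
    set c := P0 * ∏ j ∈ univ.erase i, emb PP j with hc
    have hcd : ∀ j, j ≠ i → emb PP j ∣ c := fun j hj =>
      (dvd_prod_of_mem _ (mem_erase.2 ⟨hj, mem_univ j⟩)).mul_left P0
    have hc0 : P0 ∣ c := dvd_mul_right _ _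
    apply eq_of_isI (m := emb PP i) (c := c * M) _ (hai i) (hai' i)
    · have h1 := h.nat_mul c
      have h2 : ∀ x : Fin PP.card → ℕ, IsI (∑ j ∈ univ.erase i, ((c * M : ℕ) : ℝ) * ((x j : ℝ) / (emb PP j : ℕ))) :=
        fun x => IsI.sum _ _ fun j hj =>
          IsI.of_dvd (emb_pos hP j) ((hcd j (ne_of_mem_erase hj)).mul_right M) _
      have h3 : ∀ x : ℕ, IsI (((c * M : ℕ) : ℝ) * ((x : ℝ) / P0)) := fun x =>
        IsI.of_dvd hP0 (hc0.mul_right M) x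
      have h4 := (((h1.sub (h2 a)).add (h2 a')).sub (h3 b)).add (h3 b')
      have e1 : ∀ x : Fin PP.card → ℕ, ∑ j, (x j : ℝ) / (emb PP j : ℕ) =
          (x i : ℝ) / (emb PP i : ℕ) + ∑ j ∈ univ.erase i, (x j : ℝ) / (emb PP j : ℕ) := fun x =>
        (add_sum_erase univ (fun j => (x j : ℝ) / (emb PP j : ℕ)) (mem_univ i)).symm
      have e : ((c * M : ℕ) : ℝ) * ((a i : ℝ) / (emb PP i : ℕ)) - ((c * M : ℕ) : ℝ) * ((a' i : ℝ) / (emb PP i : ℕ)) =
          c * (M * (theta PP P0 b a - theta PP P0 b' a')) -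
            (∑ j ∈ univ.erase i, ((c * M : ℕ) : ℝ) * ((a j : ℝ) / (emb PP j : ℕ))) +
            (∑ j ∈ univ.erase i, ((c * M : ℕ) : ℝ) * ((a' j : ℝ) / (emb PP j : ℕ))) -
            ((c * M : ℕ) : ℝ) * ((b : ℝ) / P0) + ((c * M : ℕ) : ℝ) * ((b' : ℝ) / P0) := by
        unfold theta
        rw [← mul_sum, ← mul_sum, e1 a, e1 a']
        push_cast
        ring
      rw [e]
      exact h4
    · apply Nat.Coprime.mul_left _ (hMp _ (emb_mem PP i))
      rw [hc]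
      apply Nat.Coprime.mul_left (hPp _ (emb_mem PP i))
      exact Nat.Coprime.prod_left fun j hj => emb_coprime hP (ne_of_mem_erase hj)

/-- the product of the primes which divide the denominator -/
noncomputable def qT (PP : Finset ℕ) (a : Fin PP.card → ℕ) : ℕ := ∏ i with a i ≠ 0, emb PP i

include hP in
lemma one_le_qT (a : Fin PP.card → ℕ) : 1 ≤ qT PP a :=
  Nat.one_le_iff_ne_zero.2 (prod_ne_zero_iff.2 fun i _ => (emb_pos hP i).ne')

include hP in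
lemma Fr_theta {B P0 M W : ℕ} (hP0 : 0 < P0) (hM0 : Nat.Coprime M P0) (hMp : ∀ p ∈ PP, Nat.Coprime M p)
    (hBM : B ∣ M) (hPp : ∀ p ∈ PP, Nat.Coprime P0 p) {b b' : ℕ} {a a' : Fin PP.card → ℕ} (hb : b < P0)
    (hb' : b' < P0) (ha : a ∈ II PP) (ha' : a' ∈ II PP) (hne : ¬ (b = b' ∧ a = a'))
    (hW : P0 * (qT PP a * qT PP a') ≤ W) :
    Fr B W (M * theta PP P0 b a - M * theta PP P0 b' a') := by
  classical
  have hq0 : 0 < qT PP a * qT PP a' := Nat.mul_pos (one_le_qT hP a) (one_le_qT hP a')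
  have hqc : ∀ x : Fin PP.card → ℕ, ∀ m : ℕ, (∀ p ∈ PP, Nat.Coprime p m) → Nat.Coprime (qT PP x) m := by
    intro x m hm
    unfold qT
    exact Nat.Coprime.prod_left fun i _ => hm _ (emb_mem PP i)
  -- a square free denominator
  have hlcm : ∀ x y : Fin PP.card → ℕ, ∀ i, x i ≠ 0 → emb PP i ∣ P0 * (qT PP x * qT PP y) := by
    intro x y i hi
    have : emb PP i ∣ qT PP x := by
      unfold qT
      exact dvd_prod_of_mem _ (mem_filter.2 ⟨mem_univ i, hi⟩)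
    exact (this.mul_right _).mul_left _
  set w := P0 * (qT PP a * qT PP a') with hw
  have hw0 : 0 < w := Nat.mul_pos hP0 hq0
  have hwr : (w : ℝ) ≠ 0 := by exact_mod_cast hw0.ne'
  obtain ⟨u, hu⟩ := theta_den hP hP0 b a w (dvd_mul_right _ _) (hlcm a a')
  obtain ⟨u', hu'⟩ := theta_den hP hP0 b' a' w (dvd_mul_right _ _) (by
    rw [hw, mul_comm (qT PP a)]; exact hlcm a' a)
  have hcop : Nat.Coprime w B := by
    have h1 : Nat.Coprime w M := by
      rw [hw]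
      apply Nat.Coprime.mul_left hM0.symm
      exact Nat.Coprime.mul_left (hqc a M fun p hp => (hMp p hp).symm) (hqc a' M fun p hp => (hMp p hp).symm)
    exact Nat.Coprime.coprime_dvd_right hBM h1
  have he : (M : ℝ) * theta PP P0 b a - M * theta PP P0 b' a' = ((M * (u - u') : ℤ) : ℝ) / w := by
    rw [eq_div_iff hwr]
    push_cast
    rw [← hu, ← hu']
    ring
  refine ⟨w, hw0, hW, hcop, M * (u - u'), he, ?_⟩
  rintro ⟨n, hn⟩
  apply hne
  apply theta_int hP hP0 hM0 hMp hPp hb hb' ha ha'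
  refine ⟨n, ?_⟩
  rw [mul_sub, he, hn]
  push_cast
  field_simp

include hP in
/-- **The sum over the frequencies with small denominators.** -/
theorem freq_sum {B P0 M N : ℕ} (hB : 2 ≤ B) {l : ℝ} (hl : 0 ≤ l) (hl1 : l ≤ 1) (hP0 : 0 < P0)
    (hM0 : Nat.Coprime M P0) (hMp : ∀ p ∈ PP, Nat.Coprime M p) (hBM : B ∣ M) (hPp : ∀ p ∈ PP, Nat.Coprime P0 p)
    (R : ℝ) (L K : ℕ) (hL : P0 * R ^ 2 < (B : ℝ) ^ L) (hK : 1 ≤ K) (hN : K * L ≤ N) :
    ∑ t ∈ ((range P0 ×ˢ II PP).erase (0, 0)).filter (fun t => (qT PP t.2 : ℝ) ≤ R),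
      bk B l N (M * theta PP P0 t.1 t.2) ≤ (1 + 2 * B * l ^ K) ^ L - 1 := by
  classical
  set S := ((range P0 ×ˢ II PP).erase (0, 0)).filter (fun t => (qT PP t.2 : ℝ) ≤ R) with hS
  set W := ⌊(P0 : ℝ) * R ^ 2⌋₊ with hWdef
  have hW : (W : ℝ) < (B : ℝ) ^ L := (Nat.floor_le (by positivity)).trans_lt hL
  have hmem : ∀ t ∈ S, t.1 < P0 ∧ t.2 ∈ II PP ∧ t ≠ (0, 0) ∧ (qT PP t.2 : ℝ) ≤ R := by
    intro t ht
    rw [hS, mem_filter, mem_erase, mem_product, mem_range] at ht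
    exact ⟨ht.1.2.1, ht.1.2.2, ht.1.1, ht.2⟩
  have h0II : (0 : Fin PP.card → ℕ) ∈ II PP := by
    unfold II
    rw [Fintype.mem_piFinset]
    intro i
    rw [mem_range]
    exact emb_pos hP i
  have hq1 : ∀ x : Fin PP.card → ℕ, (1 : ℝ) ≤ qT PP x := fun x => by exact_mod_cast one_le_qT hP x
  have hle : ∀ x y : Fin PP.card → ℕ, (qT PP x : ℝ) ≤ R → (qT PP y : ℝ) ≤ R → P0 * (qT PP x * qT PP y) ≤ W := by
    intro x y hx hy
    apply Nat.le_floor
    push_cast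
    apply mul_le_mul_of_nonneg_left _ (Nat.cast_nonneg _)
    rw [sq]
    exact mul_le_mul hx hy (Nat.cast_nonneg _) (by linarith [hq1 x])
  refine sum_bk B hB hl hl1 S (fun t => (M : ℝ) * theta PP P0 t.1 t.2) W ?_ ?_ L K N hW hK hN
  · intro t ht
    obtain ⟨h1, h2, h3, h4⟩ := hmem t ht
    have h5 : (qT PP (0 : Fin PP.card → ℕ) : ℝ) ≤ R := by
      have : qT PP (0 : Fin PP.card → ℕ) = 1 := by
        unfold qT
        simp
      rw [this]
      exact (by simpa using hq1 t.2 : ((1 : ℕ) : ℝ) ≤ qT PP t.2).trans h4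
    have h6 := Fr_theta hP (B := B) (W := W) hP0 hM0 hMp hBM hPp h1 hP0 h2 h0II (b' := 0) (a' := 0)
      (fun h => h3 (Prod.ext h.1 h.2)) (hle _ _ h4 h5)
    have h7 : theta PP P0 0 0 = 0 := by unfold theta; simp
    rw [h7, mul_zero, sub_zero] at h6
    exact h6
  · intro t ht t' ht' hne
    obtain ⟨h1, h2, -, h4⟩ := hmem t ht
    obtain ⟨h1', h2', -, h4'⟩ := hmem t' ht'
    exact Fr_theta hP hP0 hM0 hMp hBM hPp h1 h1' h2 h2' (fun h => hne (Prod.ext h.1 h.2)) (hle _ _ h4 h4')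

end

/-- a sum with a weight which decreases with the size -/
lemma dyadic {σ : Type} (S : Finset σ) (q f : σ → ℝ) (hf : ∀ t ∈ S, 0 ≤ f t) (hq : ∀ t ∈ S, 1 ≤ q t)
    (R : ℕ → ℝ) (hR : ∀ j, 0 < R j) (J : ℕ) (hJ : ∀ t ∈ S, q t ≤ R J) :
    ∑ t ∈ S, (q t) ^ (-(1 / 4) : ℝ) * f t ≤ ∑ t ∈ S.filter (fun t => q t ≤ R 0), f t +
      ∑ j ∈ range J, (R j) ^ (-(1 / 4) : ℝ) * ∑ t ∈ S.filter (fun t => q t ≤ R (j + 1)), f t := by
  classical
  have h1 : ∑ t ∈ S.filter (fun t => q t ≤ R 0), f t +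
      ∑ j ∈ range J, (R j) ^ (-(1 / 4) : ℝ) * ∑ t ∈ S.filter (fun t => q t ≤ R (j + 1)), f t =
      ∑ t ∈ S, ((if q t ≤ R 0 then 1 else 0) +
        ∑ j ∈ range J, (if q t ≤ R (j + 1) then (R j) ^ (-(1 / 4) : ℝ) else 0)) * f t := by
    simp_rw [add_mul, sum_add_distrib, sum_filter, mul_sum]
    congr 1
    · exact sum_congr rfl fun t _ => by split_ifs <;> ring
    · rw [sum_comm]
      refine sum_congr rfl fun t _ => ?_
      rw [Finset.sum_mul]
      exact sum_congr rfl fun j _ => by split_ifs <;> ring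
  rw [h1]
  refine sum_le_sum fun t ht => ?_
  apply mul_le_mul_of_nonneg_right _ (hf t ht)
  have hq1 := hq t ht
  have hnn : ∀ j, 0 ≤ (if q t ≤ R (j + 1) then (R j) ^ (-(1 / 4) : ℝ) else 0) := by
    intro j
    split_ifs
    · exact Real.rpow_nonneg (hR j).le _
    · exact le_rfl
  by_cases h0 : q t ≤ R 0
  · rw [if_pos h0]
    have h2 : (q t) ^ (-(1 / 4) : ℝ) ≤ 1 := Real.rpow_le_one_of_one_le_of_nonpos hq1 (by norm_num)
    have h3 : 0 ≤ ∑ j ∈ range J, (if q t ≤ R (j + 1) then (R j) ^ (-(1 / 4) : ℝ) else 0) :=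
      sum_nonneg fun j _ => hnn j
    linarith
  · rw [if_neg h0, zero_add]
    -- the least `j` with `q t ≤ R j`
    have hex : ∃ j, q t ≤ R j := ⟨J, hJ t ht⟩
    set m := Nat.find hex with hm
    have hm1 : q t ≤ R m := Nat.find_spec hex
    have hmJ : m ≤ J := Nat.find_min' hex (hJ t ht)
    have hm0 : m ≠ 0 := by
      intro h
      rw [h] at hm1
      exact h0 hm1
    obtain ⟨j, hj⟩ : ∃ j, m = j + 1 := ⟨m - 1, by omega⟩
    have hj1 : ¬ q t ≤ R j := Nat.find_min hex (by omega)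
    push Not at hj1
    calc (q t) ^ (-(1 / 4) : ℝ) ≤ (R j) ^ (-(1 / 4) : ℝ) :=
          Real.rpow_le_rpow_of_nonpos (hR j) hj1.le (by norm_num)
      _ = (if q t ≤ R (j + 1) then (R j) ^ (-(1 / 4) : ℝ) else 0) := by rw [if_pos (hj ▸ hm1)]
      _ ≤ _ := single_le_sum (f := fun j => (if q t ≤ R (j + 1) then (R j) ^ (-(1 / 4) : ℝ) else 0))
          (fun j _ => hnn j) (mem_range.2 (by omega))

end Pool.Agent.D0H92.RG
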