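import Pool.Agent.D0H92.RG.Surv

set_option autoImplicit false

/-!
# The choice of the classes modulo the small primes
-/

namespace Pool.Agent.D0H92.RG

open Finset Filter

/-- the function `t (log t)^2 log log log t / (log log t)^2` -/
noncomputable def Rr (t : ℝ) : ℝ :=
  t * Real.log t ^ 2 * Real.log (Real.log (Real.log t)) / (Real.log (Real.log t)) ^ 2

lemma log_half4 {u : ℝ} (hu : 4 ≤ u) (T : ℝ) (hT : 0 < T) (h : u = Real.log T) : u / 2 ≤ Real.log (T / 2) := by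
  rw [Real.log_div hT.ne' (by norm_num), ← h]
  have := Real.log_two_lt_d9
  linarith

/-- the real inequalities behind the choice -/
lemma par4_real (C δ c s κ N T u v y a la lla L E : ℝ) (hC : 0 < C) (hδ : 0 < δ) (hδ1 : δ ≤ 1) (hc : 0 < c)
    (hκ : 0 < κ) (hN : 0 < N) (hT : 8 ≤ T)
    (hu : 4 ≤ u) (hv : 4 ≤ v) (hvu : v ≤ u) (h1 : κ ≤ c / (64 * C)) (h2 : 128 * κ ≤ δ * T)
    (hy : δ * N / (2 * T) ≤ y) (ha : T / 2 ≤ a) (hla : la ≤ u) (hla0 : 0 ≤ la) (hlla : v / 2 ≤ lla)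
    (hL : L ≤ 2 * (κ * (N * T ^ 2 * v / u ^ 2)) + E) (hL0 : 0 ≤ L) (hE : E ≤ 2 * δ * N / T)
    (huT : 64 * C * u ^ 2 ≤ c * T ^ 2) (hs1 : 4 * κ * T ^ 2 ≤ s * N) (hs2 : 4 ≤ s * N) :
    L ≤ y * a ^ 4 ∧ C * L * la ^ 2 / (a ^ 2 * lla) ≤ c / 2 * N ∧ L ≤ s * N ^ 2 := by
  have hT0 : 0 < T := by linarith
  have hu0 : 0 < u := by linarith
  have hv0 : 0 < v := by linarith
  have ha0 : 0 < a := by linarith
  have h3 : N * T ^ 2 * v / u ^ 2 ≤ N * T ^ 2 := by
    rw [div_le_iff₀ (by positivity)]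
    apply mul_le_mul_of_nonneg_left _ (by positivity)
    nlinarith
  have h4 : κ * (N * T ^ 2 * v / u ^ 2) ≤ κ * (N * T ^ 2) := mul_le_mul_of_nonneg_left h3 hκ.le
  refine ⟨?_, ?_, ?_⟩
  · have e1 : δ * N / (2 * T) * (T / 2) ^ 4 ≤ y * a ^ 4 := by
      have h0 : 0 ≤ δ * N / (2 * T) := by positivity
      exact mul_le_mul hy (pow_le_pow_left₀ (by positivity) ha 4) (by positivity) (h0.trans hy)
    have e2 : δ * N / (2 * T) * (T / 2) ^ 4 = δ * N * T ^ 3 / 32 := by field_simp; norm_num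
    have e3 : κ * (N * T ^ 2) ≤ δ * N * T ^ 3 / 128 := by
      have : 128 * κ * (N * T ^ 2) ≤ δ * T * (N * T ^ 2) := mul_le_mul_of_nonneg_right h2 (by positivity)
      nlinarith
    have e4 : 2 * δ * N / T ≤ δ * N * T ^ 3 / 64 := by
      rw [div_le_div_iff₀ hT0 (by norm_num)]
      have h5 : 128 ≤ T ^ 3 * T := by
        have h6 : (8 : ℝ) ^ 3 ≤ T ^ 3 := pow_le_pow_left₀ (by norm_num) hT 3
        nlinarith
      have h6 : 0 < δ * N := by positivity
      nlinarith
    linarith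
  · have e1 : C * L * la ^ 2 / (a ^ 2 * lla) ≤ C * L * (8 * u ^ 2 / (T ^ 2 * v)) := by
      rw [mul_div_assoc]
      refine mul_le_mul_of_nonneg_left ?_ (by positivity)
      have h3 : la ^ 2 ≤ u ^ 2 := pow_le_pow_left₀ hla0 hla 2
      have h4 : T ^ 2 * v / 8 ≤ a ^ 2 * lla := by
        calc T ^ 2 * v / 8 = (T / 2) ^ 2 * (v / 2) := by ring
          _ ≤ a ^ 2 * lla := mul_le_mul (pow_le_pow_left₀ (by positivity) ha 2) hlla (by positivity) (by positivity)
      calc la ^ 2 / (a ^ 2 * lla) ≤ u ^ 2 / (T ^ 2 * v / 8) :=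
            div_le_div₀ (by positivity) h3 (by positivity) h4
        _ = 8 * u ^ 2 / (T ^ 2 * v) := by field_simp
    refine e1.trans ?_
    have e2 : C * L * (8 * u ^ 2 / (T ^ 2 * v)) ≤
        C * (2 * (κ * (N * T ^ 2 * v / u ^ 2)) + E) * (8 * u ^ 2 / (T ^ 2 * v)) := by
      refine mul_le_mul_of_nonneg_right (mul_le_mul_of_nonneg_left hL hC.le) (by positivity)
    refine e2.trans ?_
    have e3 : C * (2 * (κ * (N * T ^ 2 * v / u ^ 2)) + E) * (8 * u ^ 2 / (T ^ 2 * v)) =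
        16 * C * κ * N + E * (8 * C * u ^ 2 / (T ^ 2 * v)) := by
      field_simp
      ring
    rw [e3]
    have e4 : 16 * C * κ * N ≤ c / 4 * N := by
      rw [le_div_iff₀ (by positivity)] at h1
      have : κ * (64 * C) * N ≤ c * N := mul_le_mul_of_nonneg_right h1 hN.le
      linarith
    have e5 : E * (8 * C * u ^ 2 / (T ^ 2 * v)) ≤ c / 4 * N := by
      have h3 : 8 * C * u ^ 2 / (T ^ 2 * v) ≤ c / 32 := by
        rw [div_le_div_iff₀ (by positivity) (by norm_num)]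
        have : c * T ^ 2 * 4 ≤ c * T ^ 2 * v := mul_le_mul_of_nonneg_left hv (by positivity)
        nlinarith
      have h4 : (0 : ℝ) ≤ 8 * C * u ^ 2 / (T ^ 2 * v) := by positivity
      have h5 : 0 ≤ 2 * δ * N / T := by positivity
      have h6 : 2 * δ * N / T ≤ 2 * N := by
        rw [div_le_iff₀ hT0]
        nlinarith
      calc E * (8 * C * u ^ 2 / (T ^ 2 * v)) ≤ (2 * δ * N / T) * (8 * C * u ^ 2 / (T ^ 2 * v)) :=
            mul_le_mul_of_nonneg_right hE h4
        _ ≤ (2 * N) * (c / 32) := mul_le_mul h6 h3 h4 (by positivity)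
        _ ≤ c / 4 * N := by
            have : 0 < c * N := by positivity
            nlinarith
    linarith
  · have h6 : 2 * δ * N / T ≤ 2 * N := by
      rw [div_le_iff₀ hT0]
      nlinarith
    nlinarith

open Classical in
/-- **The classes.** -/
theorem par4 (δ c s : ℝ) (hδ : 0 < δ) (hδ1 : δ ≤ 1) (hc : 0 < c) (hs : 0 < s) (D : ℕ) : ∃ κ : ℝ, 0 < κ ∧
    ∀ᶠ N : ℕ in atTop, ∃ (b : ℕ → ℕ) (L : ℕ), 2 * ⌊κ * Rr N⌋₊ + D + 1 ≤ L ∧ (L : ℝ) ≤ s * (N : ℝ) ^ 2 ∧
      (((Icc 1 L).filter fun k => ∀ q : ℕ, q.Prime → q ≤ ⌊δ * N / Real.log N⌋₊ → ¬ k ≡ b q [MOD q]).card : ℝ) ≤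
        c / 2 * N := by
  obtain ⟨C, hC, y₀, hS⟩ := survivors4
  obtain ⟨κ, hκdef⟩ : ∃ κ : ℝ, κ = c / (64 * C) := ⟨_, rfl⟩
  have hκ : 0 < κ := by rw [hκdef]; positivity
  refine ⟨κ, hκ, ?_⟩
  have hcast : Tendsto (fun N : ℕ => (N : ℝ)) atTop atTop := tendsto_natCast_atTop_atTop
  have hlog : Tendsto (fun N : ℕ => Real.log N) atTop atTop := Real.tendsto_log_atTop.comp hcast
  have hlog2 : Tendsto (fun N : ℕ => Real.log (Real.log N)) atTop atTop := Real.tendsto_log_atTop.comp hlog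
  have hlog3 : Tendsto (fun N : ℕ => Real.log (Real.log (Real.log N))) atTop atTop :=
    Real.tendsto_log_atTop.comp hlog2
  have hdiv : Tendsto (fun N : ℕ => (N : ℝ) / Real.log N) atTop atTop := by
    have h1 : Tendsto (fun x : ℝ => x / Real.log x) atTop atTop := by
      have := Real.isLittleO_log_id_atTop
      have h2 := this.tendsto_div_nhds_zero
      have h3 : Tendsto (fun x : ℝ => (Real.log x / x)⁻¹) atTop atTop := by
        apply Tendsto.inv_tendsto_nhdsGT_zero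
        rw [tendsto_nhdsWithin_iff]
        refine ⟨h2, ?_⟩
        filter_upwards [eventually_gt_atTop (1 : ℝ)] with x hx
        exact div_pos (Real.log_pos hx) (by linarith)
      refine h3.congr' ?_
      filter_upwards with x
      rw [inv_div]
    exact h1.comp hcast
  have hsmall : ∀ ε : ℝ, 0 < ε → ∀ᶠ N : ℕ in atTop, Real.log (Real.log N) ≤ ε * Real.log N := by
    intro ε hε
    have h := (Real.isLittleO_log_id_atTop.def hε)
    filter_upwards [hlog.eventually h, hlog2.eventually_ge_atTop 0, hlog.eventually_ge_atTop 0] with N h3 h4 h5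
    rw [id, Real.norm_eq_abs, Real.norm_eq_abs, abs_of_nonneg h4, abs_of_nonneg h5] at h3
    exact h3
  have hsq : ∀ c : ℝ, ∀ᶠ N : ℕ in atTop, c * (Real.log N) ^ 2 ≤ N := by
    intro c
    have e1 : (fun L : ℝ => (Real.log L) ^ (2:ℝ)) =o[atTop] (fun L : ℝ => L ^ (1 : ℝ)) :=
      isLittleO_log_rpow_rpow_atTop 2 (by norm_num)
    have e2 := e1.def (show (0:ℝ) < 1 / (|c| + 1) by positivity)
    filter_upwards [hcast.eventually e2, hlog.eventually_ge_atTop 0] with N h1 h2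
    rw [Real.norm_eq_abs, Real.norm_eq_abs, Real.rpow_one, abs_of_nonneg (Real.rpow_nonneg h2 _),
      abs_of_nonneg (Nat.cast_nonneg N : (0 : ℝ) ≤ (N : ℝ))] at h1
    have e3 : (Real.log (N : ℝ)) ^ (2:ℝ) = (Real.log N) ^ 2 := by
      rw [← Real.rpow_natCast]; norm_num
    rw [e3, div_mul_eq_mul_div, one_mul, le_div_iff₀ (by positivity)] at h1
    have h3 : c * (Real.log N) ^ 2 ≤ (|c| + 1) * (Real.log N) ^ 2 := by
      apply mul_le_mul_of_nonneg_right _ (sq_nonneg _)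
      linarith [le_abs_self c]
    linarith
  filter_upwards [hlog.eventually_ge_atTop 8, hlog2.eventually_ge_atTop 4, hlog3.eventually_ge_atTop 4,
    hdiv.eventually_ge_atTop (2 * (y₀ + D + 4) / δ), hdiv.eventually_ge_atTop (2 / δ),
    hsmall (1 / 4) (by norm_num), hsmall (Real.sqrt (c / (64 * C))) (Real.sqrt_pos.2 (by positivity)),
    hlog.eventually_ge_atTop (-(4 * Real.log (δ / 2))), hdiv.eventually_ge_atTop ((D + 1) / δ),
    hlog.eventually_ge_atTop (128 * κ / δ), hsq (4 * κ / s), hcast.eventually_ge_atTop (4 / s),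
    eventually_ge_atTop 1] with
    N hT hu hv hN1 hN1' hs1 hs2 hs3 hN2 hT2 hsN hsN' hN0'
  set T := Real.log N with hTdef
  set u := Real.log T with hudef
  set v := Real.log u with hvdef
  have hT0 : 0 < T := by linarith
  have hu0 : 0 < u := by linarith
  have hN0 : (0 : ℝ) < N := by exact_mod_cast (by omega : 0 < N)
  have hvu : v ≤ u := by
    have := Real.log_le_sub_one_of_pos hu0
    linarith
  set Y := ⌊δ * N / T⌋₊ with hYdef
  have hY1 : (Y : ℝ) ≤ δ * N / T := Nat.floor_le (by positivity)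
  have hY2 : δ * N / T < Y + 1 := Nat.lt_floor_add_one _
  have hY3 : 2 * (y₀ + D + 4) ≤ δ * N / T := by
    have := (div_le_iff₀ hδ).1 hN1
    calc 2 * (y₀ + D + 4) ≤ (N : ℝ) / T * δ := this
      _ = _ := by ring
  have hY3' : 2 ≤ δ * N / T := by
    have := (div_le_iff₀ hδ).1 hN1'
    calc 2 ≤ (N : ℝ) / T * δ := this
      _ = _ := by ring
  have hY4 : (D : ℝ) + 1 ≤ δ * N / T := by
    have := (div_le_iff₀ hδ).1 hN2
    calc (D : ℝ) + 1 ≤ (N : ℝ) / T * δ := this
      _ = _ := by ring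
  have hY5 : δ * N / (2 * T) ≤ Y := by
    have : δ * N / (2 * T) = δ * N / T / 2 := by field_simp
    rw [this]
    linarith
  have hYpos : (0 : ℝ) < Y := lt_of_lt_of_le (by positivity) hY5
  have hY6 : y₀ ≤ Y := by
    have : δ * N / (2 * T) = δ * N / T / 2 := by field_simp
    have hD0 : (0 : ℝ) ≤ D := Nat.cast_nonneg D
    linarith
  -- the logarithm of `Y`
  have ha1 : T / 2 ≤ Real.log Y := by
    have h3 : Real.log (δ * N / (2 * T)) ≤ Real.log Y := Real.log_le_log (by positivity) hY5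
    have h4 : Real.log (δ * N / (2 * T)) = Real.log (δ / 2) + T - u := by
      have : δ * N / (2 * T) = δ / 2 * N / T := by field_simp
      rw [this, Real.log_div (by positivity) hT0.ne', Real.log_mul (by positivity) hN0.ne']
    linarith
  have ha0 : 0 < Real.log Y := by linarith
  set L := 2 * ⌊κ * Rr N⌋₊ + D + 1 + Y with hLdef
  have hLY : (Y : ℝ) ≤ L := by exact_mod_cast (by omega : Y ≤ L)
  have hRr : Rr N = N * T ^ 2 * v / u ^ 2 := rfl
  have hH : (⌊κ * Rr N⌋₊ : ℝ) ≤ κ * (N * T ^ 2 * v / u ^ 2) := by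
    rw [← hRr]
    apply Nat.floor_le
    rw [hRr]
    positivity
  have hLle : (L : ℝ) ≤ 2 * (κ * (N * T ^ 2 * v / u ^ 2)) + (D + 1 + Y) := by
    rw [hLdef]
    push_cast
    linarith
  have hE : ((D : ℝ) + 1 + Y) ≤ 2 * δ * N / T := by
    have : 2 * δ * N / T = δ * N / T + δ * N / T := by ring
    rw [this]
    linarith
  have huT : 64 * C * u ^ 2 ≤ c * T ^ 2 := by
    have h4 := pow_le_pow_left₀ hu0.le hs2 2
    rw [mul_pow, Real.sq_sqrt (by positivity)] at h4
    calc 64 * C * u ^ 2 ≤ 64 * C * (c / (64 * C) * T ^ 2) := mul_le_mul_of_nonneg_left h4 (by positivity)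
      _ = c * T ^ 2 := by field_simp
  have hδN : (Y : ℝ) ≤ N := by
    refine hY1.trans ?_
    rw [div_le_iff₀ hT0]
    nlinarith
  have ha2 : Real.log Y ≤ T := Real.log_le_log hYpos hδN
  have hla : Real.log (Real.log Y) ≤ u := Real.log_le_log ha0 ha2
  have hla' : u / 2 ≤ Real.log (Real.log Y) :=
    (log_half4 hu T hT0 hudef).trans (Real.log_le_log (by positivity) ha1)
  have hlla : v / 2 ≤ Real.log (Real.log (Real.log Y)) :=
    (log_half4 hv u hu0 hvdef).trans (Real.log_le_log (by positivity) hla')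
  obtain ⟨r1, r2, r3⟩ := par4_real C δ c s κ N T u v Y (Real.log Y) (Real.log (Real.log Y))
    (Real.log (Real.log (Real.log Y))) L (D + 1 + Y) hC hδ hδ1 hc hκ hN0 hT hu hv hvu (le_of_eq hκdef) (by
      rw [div_le_iff₀ hδ] at hT2
      linarith) hY5 ha1 hla
    (by linarith) hlla hLle (by positivity) hE huT (by
      rw [div_mul_eq_mul_div, div_le_iff₀ hs] at hsN
      linarith) (by
      rw [div_le_iff₀ hs] at hsN'
      linarith)
  obtain ⟨b, -, hb⟩ := hS Y hY6 L hLY r1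
  refine ⟨b, L, by omega, r3, ?_⟩
  refine le_trans (le_of_eq ?_) (hb.trans r2)
  congr 1
  congr 1
  ext k
  rw [mem_filter, mem_filter]
  simp only [Nat.cast_le]

end Pool.Agent.D0H92.RG
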