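import Pool.Agent.D0H92.RG.Dc
import Pool.Agent.D0H92.RG.Par4
import Pool.Agent.D0H92.AG.Fin

set_option autoImplicit false
set_option linter.unusedSectionVars false

/-!
# Prime-free intervals around the members of sets with missing digits
-/

namespace Pool.Agent.D0H92.RG

open Finset Filter Pool.Agent.D0H92.AG

lemma digits_inj (B : ℕ) (hB : 0 < B) : ∀ {N : ℕ} (d d' : Fin N → ℕ), (∀ j, d j < B) → (∀ j, d' j < B) →
    ∑ j : Fin N, B ^ (j : ℕ) * d j = ∑ j : Fin N, B ^ (j : ℕ) * d' j → d = d' := by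
  intro N
  induction N with
  | zero => intro d d' _ _ _; exact Subsingleton.elim _ _
  | succ N ih =>
    intro d d' hd hd' h
    rw [Fin.sum_univ_succ, Fin.sum_univ_succ] at h
    have e : ∀ x : Fin (N + 1) → ℕ, ∑ i : Fin N, B ^ ((i.succ : Fin (N + 1)) : ℕ) * x i.succ =
        B * ∑ i : Fin N, B ^ (i : ℕ) * x i.succ := by
      intro x
      rw [mul_sum]
      refine sum_congr rfl fun i _ => ?_
      rw [Fin.val_succ, pow_succ]
      ring
    rw [e, e] at h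
    simp only [Fin.val_zero, pow_zero, one_mul] at h
    have h0 : d 0 = d' 0 := by
      have h1 : (d 0 + B * ∑ i : Fin N, B ^ (i : ℕ) * d i.succ) % B =
          (d' 0 + B * ∑ i : Fin N, B ^ (i : ℕ) * d' i.succ) % B := by rw [h]
      rwa [Nat.add_mul_mod_self_left, Nat.add_mul_mod_self_left, Nat.mod_eq_of_lt (hd 0),
        Nat.mod_eq_of_lt (hd' 0)] at h1
    have h2 : ∑ i : Fin N, B ^ (i : ℕ) * d i.succ = ∑ i : Fin N, B ^ (i : ℕ) * d' i.succ := by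
      rw [h0] at h
      exact Nat.eq_of_mul_eq_mul_left hB (Nat.add_left_cancel h)
    have h3 := ih (fun i => d i.succ) (fun i => d' i.succ) (fun i => hd _) (fun i => hd' _) h2
    funext i
    refine Fin.cases h0 (fun i => ?_) i
    exact congrFun h3 i

lemma val_inj (c : ℤ) (g B : ℕ) (hg : 1 ≤ g) (hB : 0 < B) {N : ℕ} (A : Fin N → Finset ℕ)
    (hA : ∀ j, ∀ a ∈ A j, a < B) : Set.InjOn (val c g B) (Fintype.piFinset A : Set (Fin N → ℕ)) := by
  intro d hd d' hd' h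
  rw [mem_coe, Fintype.mem_piFinset] at hd hd'
  unfold val at h
  have h1 : (g : ℤ) * ∑ j : Fin N, (B : ℤ) ^ (j : ℕ) * d j = g * ∑ j : Fin N, (B : ℤ) ^ (j : ℕ) * d' j := by
    linarith
  have h2 := mul_left_cancel₀ (by exact_mod_cast (by omega : g ≠ 0)) h1
  have h3 : ∑ j : Fin N, B ^ (j : ℕ) * d j = ∑ j : Fin N, B ^ (j : ℕ) * d' j := by exact_mod_cast h2
  exact digits_inj B hB d d' (fun j => hA j _ (hd j)) (fun j => hA j _ (hd' j)) h3

/-- the prime factor of an integer in the window -/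
lemma window {M Y H L : ℕ} {b : ℕ → ℕ} {t ρ r0 v m : ℤ} {w : ℝ} {KK : Finset ℕ} (hL : 2 * H + M + 1 ≤ L)
    (ht1 : -(H : ℤ) - M ≤ t) (ht2 : t ≤ -(H : ℤ) - 1)
    (ht3 : ∀ p, p.Prime → p ∣ M → (p : ℤ) ∣ ρ + b p + t)
    (hr0 : ∀ q ∈ PP M Y, (q : ℤ) ∣ r0 - -((b q : ℤ) + t))
    (hKK : ∀ x ∈ Icc 1 L, (∀ q : ℕ, q.Prime → q ≤ Y → ¬ x ≡ b q [MOD q]) → x ∈ KK)
    (hvM : (M : ℤ) ∣ v - ρ) (hvP : ((P0 M Y : ℕ) : ℤ) ∣ v - r0)
    (hcov : ∀ k ∈ KK, ∃ p : ℕ, p.Prime ∧ (p : ℝ) ≤ w ∧ (p : ℤ) ∣ v - -(t + (k : ℤ)))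
    (hYw : (Y : ℝ) ≤ w) (hm : |m - v| ≤ H) : ∃ q : ℕ, q.Prime ∧ (q : ℝ) ≤ w ∧ (q : ℤ) ∣ m := by
  rw [abs_le] at hm
  obtain ⟨x, hx⟩ : ∃ x : ℕ, (x : ℤ) = m - v - t := ⟨(m - v - t).toNat, Int.toNat_of_nonneg (by omega)⟩
  have hxI : x ∈ Icc 1 L := by
    rw [mem_Icc]
    omega
  by_cases hs : ∀ q : ℕ, q.Prime → q ≤ Y → ¬ x ≡ b q [MOD q]
  · obtain ⟨p, hp1, hp2, hp3⟩ := hcov x (hKK x hxI hs)
    refine ⟨p, hp1, hp2, ?_⟩
    have h3 : m = v - -(t + (x : ℤ)) := by linear_combination -hx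
    rw [h3]
    exact hp3
  · push Not at hs
    obtain ⟨q, hq, hqY, hxq⟩ := hs
    refine ⟨q, hq, le_trans (by exact_mod_cast hqY) hYw, ?_⟩
    have h1 : (q : ℤ) ∣ (x : ℤ) - b q := (Nat.modEq_iff_dvd.1 hxq.symm)
    by_cases hqM : q ∣ M
    · have h2 := ht3 q hq hqM
      have h3 : (q : ℤ) ∣ v - ρ := (Int.natCast_dvd_natCast.2 hqM).trans hvM
      have h4 : m = (x - b q) + (ρ + b q + t) + (v - ρ) := by linear_combination -hx
      rw [h4]
      exact dvd_add (dvd_add h1 h2) h3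
    · have hqP : q ∈ PP M Y := mem_PP.2 ⟨hqY, hq, hqM⟩
      have h2 := hr0 q hqP
      have h3 : (q : ℤ) ∣ v - r0 := by
        refine Dvd.dvd.trans ?_ hvP
        unfold P0
        exact_mod_cast (dvd_prod_of_mem (fun p => p) hqP)
      have h4 : m = (x - b q) + (r0 - -((b q : ℤ) + t)) + (v - r0) := by linear_combination -hx
      rw [h4]
      exact dvd_add (dvd_add h1 h2) h3

/-- the number of members -/
lemma final_count {T η Nr W S1 s : ℝ} (hη : 0 < η) (hη1 : η ≤ 1) (hN : 0 ≤ Nr) (hT : Real.exp (0.69 * Nr) ≤ T)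
    (hW : T ≤ Real.exp (η / 2 * Nr) * W) (hS1 : S1 ≤ s) (hs : s ≤ Real.exp (0.19 * Nr) / 2)
    (h2 : 2 ≤ Real.exp (0.19 * η * Nr)) : T ^ (1 - η) ≤ W - S1 := by
  have hT0 : 0 < T := (Real.exp_pos _).trans_le hT
  have h1 : T * Real.exp (-(η / 2 * Nr)) ≤ W := by
    rw [Real.exp_neg, mul_inv_le_iff₀ (Real.exp_pos _)]
    linarith
  have h3 : T ^ (1 - η) ≤ T * Real.exp (-(η / 2 * Nr)) / 2 := by
    have e1 : T ^ (1 - η) = T * T ^ (-η) := by
      rw [sub_eq_add_neg, Real.rpow_add hT0, Real.rpow_one]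
    rw [e1, mul_div_assoc]
    refine mul_le_mul_of_nonneg_left ?_ hT0.le
    have e2 : T ^ (-η) ≤ Real.exp (0.69 * Nr) ^ (-η) :=
      Real.rpow_le_rpow_of_nonpos (Real.exp_pos _) hT (by linarith)
    refine e2.trans ?_
    rw [← Real.exp_mul, le_div_iff₀ (by norm_num)]
    calc Real.exp (0.69 * Nr * -η) * 2 ≤ Real.exp (0.69 * Nr * -η) * Real.exp (0.19 * η * Nr) :=
          mul_le_mul_of_nonneg_left h2 (Real.exp_pos _).le
      _ = Real.exp (-(η / 2 * Nr)) := by rw [← Real.exp_add]; congr 1; ring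
  have h4 : Real.exp (0.19 * Nr) ≤ T * Real.exp (-(η / 2 * Nr)) := by
    calc Real.exp (0.19 * Nr) ≤ Real.exp (0.69 * Nr) * Real.exp (-(η / 2 * Nr)) := by
          rw [← Real.exp_add]
          refine Real.exp_le_exp.2 ?_
          nlinarith
      _ ≤ _ := mul_le_mul_of_nonneg_right hT (Real.exp_pos _).le
  linarith

lemma ev_small (s η : ℝ) (hs : 0 < s) (hη : 0 < η) : ∀ᶠ N : ℕ in atTop,
    2 * (Real.exp (N / 200) + s * (N : ℝ) ^ 2) + 1 ≤ Real.exp (0.19 * N) / 2 ∧ 2 ≤ Real.exp (0.19 * η * N) := by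
  have hcast : Tendsto (fun N : ℕ => (N : ℝ)) atTop atTop := tendsto_natCast_atTop_atTop
  have h1 : Tendsto (fun N : ℕ => (N : ℝ) / 10) atTop atTop := hcast.atTop_div_const (by norm_num)
  have h2 := (Real.tendsto_exp_div_pow_atTop 2).comp h1
  filter_upwards [h2.eventually_ge_atTop (100 * (4 * (3 + 2 * s))), eventually_ge_atTop 1,
    hcast.eventually_ge_atTop (1 / (0.19 * η))] with N h3 h4 h5
  have hN1 : (1 : ℝ) ≤ N := by exact_mod_cast h4
  have hN2 : (1 : ℝ) ≤ (N : ℝ) ^ 2 := one_le_pow₀ hN1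
  constructor
  · simp only [Function.comp] at h3
    rw [le_div_iff₀ (by positivity)] at h3
    have h6 : 4 * (3 + 2 * s) * (N : ℝ) ^ 2 ≤ Real.exp (N / 10) := by
      refine le_trans (le_of_eq ?_) h3
      ring
    have h7 : (1 : ℝ) ≤ Real.exp (N / 200) := Real.one_le_exp (by positivity)
    have h8 : 2 * (Real.exp (N / 200) + s * (N : ℝ) ^ 2) + 1 ≤ (3 + 2 * s) * (N : ℝ) ^ 2 * Real.exp (N / 200) := by
      obtain ⟨E, hE⟩ : ∃ E, E = Real.exp ((N : ℝ) / 200) := ⟨_, rfl⟩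
      obtain ⟨n, hn⟩ : ∃ n, n = (N : ℝ) ^ 2 := ⟨_, rfl⟩
      rw [← hE] at h7 ⊢
      rw [← hn] at hN2 ⊢
      have e1 : E ≤ n * E := le_mul_of_one_le_left (by linarith) hN2
      have e2 : s * n ≤ s * n * E := le_mul_of_one_le_right (by positivity) h7
      nlinarith
    calc 2 * (Real.exp (N / 200) + s * (N : ℝ) ^ 2) + 1 ≤ (3 + 2 * s) * (N : ℝ) ^ 2 * Real.exp (N / 200) := h8
      _ ≤ Real.exp (N / 10) / 4 * Real.exp (N / 200) := by
          refine mul_le_mul_of_nonneg_right ?_ (Real.exp_pos _).le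
          linarith
      _ = Real.exp (N / 10 + N / 200) / 4 := by rw [Real.exp_add]; ring
      _ ≤ Real.exp (0.19 * N) / 2 := by
          have : Real.exp ((N : ℝ) / 10 + N / 200) ≤ Real.exp (0.19 * N) := Real.exp_le_exp.2 (by linarith)
          have h9 := Real.exp_pos ((N : ℝ) / 10 + N / 200)
          linarith
  · rw [div_le_iff₀ (by positivity)] at h5
    have := Real.add_one_le_exp (0.19 * η * N)
    linarith

/-- **Sets with missing digits.** -/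
theorem digit_gap (B g : ℕ) (hB : 2 ≤ B) (hg : 1 ≤ g) (η : ℝ) (hη : 0 < η) : ∃ κ : ℝ, 0 < κ ∧
    ∀ᶠ N : ℕ in atTop, ∀ A : Fin N → Finset ℕ, (∀ j, ∀ a ∈ A j, a < B) → (∀ j, 2 ≤ (A j).card) → ∀ c₀ : ℤ,
      ∃ W ⊆ Fintype.piFinset A, ((Fintype.piFinset A).card : ℝ) ^ (1 - η) ≤ W.card ∧
        ∀ d ∈ W, GapAt (κ * Rr N) (Real.exp (N / Real.log N)) (val c₀ g B d) := by
  classical
  obtain ⟨η', hη'⟩ : ∃ η', η' = min η 1 := ⟨_, rfl⟩
  have hη'0 : 0 < η' := by rw [hη']; exact lt_min hη one_pos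
  have hη'1 : η' ≤ 1 := by rw [hη']; exact min_le_right _ _
  have hη'2 : η' ≤ η := by rw [hη']; exact min_le_left _ _
  obtain ⟨δ, c, s, hδ, hδ1, hc, hs, hcov⟩ := digit_cover B g hB hg (η' / 2) (by positivity)
  obtain ⟨M, hM⟩ : ∃ M, M = g * B.factorial := ⟨_, rfl⟩
  rw [← hM] at hcov
  have hM0 : 1 ≤ M := by rw [hM]; exact Nat.mul_pos hg (Nat.factorial_pos _)
  obtain ⟨κ, hκ, hpar⟩ := par4 δ c s hδ hδ1 hc hs M
  refine ⟨κ, hκ, ?_⟩
  have hcast : Tendsto (fun N : ℕ => (N : ℝ)) atTop atTop := tendsto_natCast_atTop_atTop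
  have hlog : Tendsto (fun N : ℕ => Real.log N) atTop atTop := Real.tendsto_log_atTop.comp hcast
  filter_upwards [hcov, hpar, hlog.eventually_ge_atTop 200, hcast.eventually_ge_atTop (2 / c),
    ev_small s η' hs hη'0, eventually_ge_atTop 1] with N h1 h2 hT hNc hsm hN1 A hA hA2 c₀
  obtain ⟨b, L, hL1, hL2, hsurv⟩ := h2
  obtain ⟨ρ, h1⟩ := h1 A hA hA2 c₀
  set T := Real.log N with hTdef
  set Y := ⌊δ * N / T⌋₊ with hYdef
  set H := ⌊κ * Rr N⌋₊ with hHdef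
  have hN0 : (0 : ℝ) < N := by exact_mod_cast (by omega : 0 < N)
  have hT0 : 0 < T := by linarith
  have hYle : (Y : ℝ) ≤ Real.exp (N / T) := by
    have e1 : (Y : ℝ) ≤ δ * N / T := Nat.floor_le (by positivity)
    have e2 : δ * N / T ≤ N / T := by
      refine div_le_div_of_nonneg_right ?_ hT0.le
      nlinarith
    have e3 := Real.add_one_le_exp ((N : ℝ) / T)
    linarith
  obtain ⟨t, ht1, ht2, ht3⟩ := exists_shift M hM0 ρ b H
  obtain ⟨r0, hr0⟩ := crt (PP M Y) id (fun p hp => (mem_PP.1 hp).2.1) (fun _ _ _ _ h => h)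
    (fun q => -((b q : ℤ) + t))
  set KK := insert 1 ((Icc 1 L).filter (fun k => ∀ q : ℕ, q.Prime → q ≤ Y → ¬ k ≡ b q [MOD q])) with hKK
  have hKKL : ∀ k ∈ KK, 1 ≤ k ∧ k ≤ L := by
    intro k hk
    rw [hKK, mem_insert, mem_filter, mem_Icc] at hk
    omega
  have hcard : (Fintype.card {k // k ∈ KK} : ℝ) ≤ c * N := by
    rw [Fintype.card_coe]
    have e1 : KK.card ≤ ((Icc 1 L).filter (fun k => ∀ q : ℕ, q.Prime → q ≤ Y → ¬ k ≡ b q [MOD q])).card + 1 :=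
      card_insert_le _ _
    have e2 : (KK.card : ℝ) ≤ c / 2 * N + 1 := by
      have : (KK.card : ℝ) ≤ (((Icc 1 L).filter (fun k => ∀ q : ℕ, q.Prime → q ≤ Y → ¬ k ≡ b q [MOD q])).card : ℝ) + 1 := by
        exact_mod_cast e1
      linarith
    rw [div_le_iff₀ hc] at hNc
    linarith
  have : Nonempty {k // k ∈ KK} := ⟨⟨1, mem_insert_self _ _⟩⟩
  obtain ⟨W, hWsub, hWcard, hW⟩ := h1 {k // k ∈ KK} hcard (fun _ k => -(t + ((k : ℕ) : ℤ))) r0 (by
    intro p _ hp k l hkl hdvd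
    have e1 : -(t + ((k : ℕ) : ℤ)) - -(t + ((l : ℕ) : ℤ)) = ((l : ℕ) : ℤ) - ((k : ℕ) : ℤ) := by ring
    rw [e1] at hdvd
    have e2 : ((l : ℕ) : ℤ) - ((k : ℕ) : ℤ) ≠ 0 := by
      intro h
      apply hkl
      apply Subtype.ext
      have : ((l : ℕ) : ℤ) = ((k : ℕ) : ℤ) := by linarith
      exact_mod_cast this.symm
    have e3 := Int.natAbs_le_of_dvd_ne_zero hdvd e2
    have e4 := hKKL _ k.2
    have e5 := hKKL _ l.2
    have e6 : p ≤ L := by
      simp only [Int.natAbs_natCast] at e3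
      omega
    have e7 : (p : ℝ) ≤ L := by exact_mod_cast e6
    linarith)
  -- the small members
  obtain ⟨X, hX⟩ : ∃ X : ℝ, X = Real.exp (N / T) + κ * Rr N := ⟨_, rfl⟩
  set S1 := W.filter (fun d => (|(val c₀ g B d : ℤ)| : ℝ) ≤ X) with hS1
  have hKR : κ * Rr N ≤ s * (N : ℝ) ^ 2 := by
    have e1 : κ * Rr N < H + 1 := Nat.lt_floor_add_one _
    have e2 : ((H : ℝ) + 1) ≤ L := by exact_mod_cast (by omega : H + 1 ≤ L)
    linarith
  have hS1card : (S1.card : ℝ) ≤ 2 * (Real.exp (N / 200) + s * (N : ℝ) ^ 2) + 1 := by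
    have hX2 : X ≤ Real.exp (N / 200) + s * (N : ℝ) ^ 2 := by
      rw [hX]
      have : Real.exp (N / T) ≤ Real.exp (N / 200) :=
        Real.exp_le_exp.2 (div_le_div_of_nonneg_left hN0.le (by norm_num) hT)
      linarith
    rcases lt_or_ge X 0 with hX0 | hX0
    · have e1 : S1 = ∅ := by
        rw [hS1, filter_eq_empty_iff]
        intro d _ h
        have : (0 : ℝ) ≤ (|(val c₀ g B d : ℤ)| : ℝ) := abs_nonneg _
        linarith
      rw [e1]
      simp only [card_empty, Nat.cast_zero]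
      positivity
    · have h5 : S1.card ≤ (Icc (-(⌊X⌋₊ : ℤ)) (⌊X⌋₊ : ℤ)).card := by
        refine card_le_card_of_injOn (val c₀ g B) ?_
          ((val_inj c₀ g B hg (by omega) A hA).mono (by
            intro d hd
            rw [mem_coe] at hd ⊢
            exact hWsub (mem_of_mem_filter d hd)))
        intro d hd
        rw [mem_coe, hS1, mem_filter] at hd
        rw [mem_coe, mem_Icc, ← abs_le]
        have e1 : |val c₀ g B d| ≤ ⌊X⌋ := Int.le_floor.2 (by push_cast; exact hd.2)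
        rwa [← Int.natCast_floor_eq_floor hX0] at e1
      rw [Int.card_Icc] at h5
      have h6 : ((⌊X⌋₊ : ℤ) + 1 - -(⌊X⌋₊ : ℤ)).toNat = 2 * ⌊X⌋₊ + 1 := by
        have : (⌊X⌋₊ : ℤ) + 1 - -(⌊X⌋₊ : ℤ) = ((2 * ⌊X⌋₊ + 1 : ℕ) : ℤ) := by push_cast; ring
        rw [this, Int.toNat_natCast]
      rw [h6] at h5
      have h7 : (S1.card : ℝ) ≤ 2 * (⌊X⌋₊ : ℝ) + 1 := by exact_mod_cast h5
      have h8 : (⌊X⌋₊ : ℝ) ≤ X := Nat.floor_le hX0
      linarith
  refine ⟨W \ S1, sdiff_subset.trans hWsub, ?_, ?_⟩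
  · -- the count
    have hTc : (2 : ℝ) ^ N ≤ (Fintype.piFinset A).card := by
      rw [Fintype.card_piFinset]
      have e1 : ∏ _j : Fin N, 2 ≤ ∏ j, (A j).card := prod_le_prod' fun j _ => hA2 j
      rw [prod_const, card_univ, Fintype.card_fin] at e1
      exact_mod_cast e1
    have hT69 : Real.exp (0.69 * N) ≤ (Fintype.piFinset A).card := by
      refine le_trans ?_ hTc
      have e1 : (2 : ℝ) ^ N = Real.exp (Real.log 2 * N) := by
        rw [← Real.rpow_natCast, Real.rpow_def_of_pos (by norm_num)]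
      rw [e1]
      have := Real.log_two_gt_d9
      exact Real.exp_le_exp.2 (mul_le_mul_of_nonneg_right (by linarith) hN0.le)
    have hfin := final_count hη'0 hη'1 hN0.le hT69 hWcard hS1card hsm.1 hsm.2
    have e7 : (W.card : ℝ) ≤ (W \ S1).card + S1.card := by
      exact_mod_cast card_le_card_sdiff_add_card
    have hT1 : (1 : ℝ) ≤ (Fintype.piFinset A).card := by
      refine le_trans ?_ hTc
      exact one_le_pow₀ (by norm_num)
    calc ((Fintype.piFinset A).card : ℝ) ^ (1 - η) ≤ ((Fintype.piFinset A).card : ℝ) ^ (1 - η') :=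
          Real.rpow_le_rpow_of_exponent_le hT1 (by linarith)
      _ ≤ W.card - S1.card := hfin
      _ ≤ _ := by linarith
  · intro d hd
    rw [Finset.mem_sdiff] at hd
    obtain ⟨hd1, hd2⟩ := hd
    have hd3 : X < |((val c₀ g B d : ℤ) : ℝ)| := by
      by_contra hcon
      exact hd2 (by rw [hS1, mem_filter]; exact ⟨hd1, not_lt.1 hcon⟩)
    obtain ⟨w1, w2, w3⟩ := hW d hd1
    intro m hm
    have hR0 : 0 ≤ κ * Rr N := (abs_nonneg _).trans hm
    have hm' : |m - val c₀ g B d| ≤ (H : ℤ) := by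
      have h5 : ((|m - val c₀ g B d| : ℤ) : ℝ) ≤ κ * Rr N := by push_cast; exact hm
      have h6 : |m - val c₀ g B d| ≤ ⌊κ * Rr N⌋ := Int.le_floor.2 h5
      rwa [← Int.natCast_floor_eq_floor hR0] at h6
    obtain ⟨q, hq1, hq2, hq3⟩ := window (KK := KK) (w := Real.exp (N / T)) hL1 ht1 ht2 ht3 hr0 (by
      intro x hx hx2
      rw [hKK]
      exact mem_insert_of_mem (mem_filter.2 ⟨hx, hx2⟩)) w1 w2 (fun k hk => w3 ⟨k, hk⟩) hYle hm'
    refine ⟨?_, q, hq1, hq2, hq3⟩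
    intro hmp
    have h5 : q = m.natAbs := (Nat.prime_dvd_prime_iff_eq hq1 hmp).1 (Int.natCast_dvd.1 hq3)
    have h6 : |(m : ℝ)| ≤ Real.exp (N / T) := by
      have e1 : |(m : ℝ)| = ((m.natAbs : ℕ) : ℝ) := by rw [Nat.cast_natAbs, Int.cast_abs]
      rw [e1, ← h5]
      exact hq2
    have h8 : ((val c₀ g B d : ℤ) : ℝ) = m - (m - val c₀ g B d) := by ring
    have h9 : |((val c₀ g B d : ℤ) : ℝ)| ≤ |(m : ℝ)| + |(m : ℝ) - val c₀ g B d| := by
      conv_lhs => rw [h8]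
      exact abs_sub _ _
    rw [hX] at hd3
    linarith

end Pool.Agent.D0H92.RG
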