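import Pool.Agent.D0H92.AG.Auto

set_option autoImplicit false

/-!
# The number of the accepted words and the numbers of the loops
-/

namespace Pool.Agent.D0H92.RG

open Finset Pool.Agent.D0H92.AG

variable {σ : Type}

open Classical in
/-- the words of length `m` which lead from `s` to a state in `G` inside `T` -/
noncomputable def Wd (b : ℕ) (δ : σ → ℕ → σ) (G : σ → Prop) (m : ℕ) (s : σ) (T : Finset σ) : Finset ℕ :=
  (range (b ^ m)).filter fun v => (∀ i ≤ m, run b δ i s v ∈ T) ∧ G (run b δ m s v)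

open Classical in
/-- the loops of length `l` at `s` -/
noncomputable def Lp (b : ℕ) (δ : σ → ℕ → σ) (l : ℕ) (s : σ) : Finset ℕ :=
  (range (b ^ l)).filter fun v => run b δ l s v = s

open Classical in
lemma wd_sub (b : ℕ) (hb : 1 ≤ b) (δ : σ → ℕ → σ) (G : σ → Prop) (m : ℕ) (s : σ) (T : Finset σ) :
    Wd b δ G m s T ⊆ Lp b δ m s ∪ (range m).biUnion fun t =>
      ((Lp b δ t s) ×ˢ ((range b).biUnion fun d =>
        (Wd b δ G (m - t - 1) (δ s d) (T.erase s)).image fun w => d + b * w)).image fun p => p.1 + b ^ t * p.2 := by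
  intro v hv
  unfold Wd at hv
  rw [mem_filter, mem_range] at hv
  obtain ⟨hv1, hv2, hv3⟩ := hv
  set t := Nat.findGreatest (fun i => run b δ i s v = s) m with ht
  have htm : t ≤ m := Nat.findGreatest_le m
  have ht1 : run b δ t s v = s :=
    Nat.findGreatest_spec (P := fun i => run b δ i s v = s) (Nat.zero_le m) (run_zero b δ s v)
  have ht2 : ∀ i, t < i → i ≤ m → run b δ i s v ≠ s := fun i h1 h2 =>
    Nat.findGreatest_is_greatest (P := fun i => run b δ i s v = s) h1 h2
  rw [mem_union]
  rcases htm.lt_or_eq with hlt | heq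
  · right
    rw [mem_biUnion]
    refine ⟨t, mem_range.2 hlt, ?_⟩
    rw [mem_image]
    refine ⟨(v % b ^ t, v / b ^ t), ?_, Nat.mod_add_div v (b ^ t)⟩
    rw [mem_product]
    refine ⟨?_, ?_⟩
    · unfold Lp
      rw [mem_filter, mem_range]
      exact ⟨Nat.mod_lt _ (by positivity), by rw [run_mod]; exact ht1⟩
    · change v / b ^ t ∈ _
      rw [mem_biUnion]
      refine ⟨v / b ^ t % b, mem_range.2 (Nat.mod_lt _ (by omega)), ?_⟩
      rw [mem_image]
      refine ⟨v / b ^ t / b, ?_, Nat.mod_add_div _ _⟩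
      have key : ∀ i, run b δ i (δ s (v / b ^ t % b)) (v / b ^ t / b) = run b δ (t + (i + 1)) s v := by
        intro i
        rw [run_split, ht1, run_succ]
      unfold Wd
      rw [mem_filter, mem_range]
      refine ⟨?_, ?_, ?_⟩
      · rw [Nat.div_div_eq_div_mul, ← pow_succ]
        apply Nat.div_lt_of_lt_mul
        rw [← pow_add]
        have : t + 1 + (m - t - 1) = m := by omega
        rw [this]
        exact hv1
      · intro i hi
        rw [key, mem_erase]
        exact ⟨ht2 _ (by omega) (by omega), hv2 _ (by omega)⟩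
      · rw [key]
        have : t + (m - t - 1 + 1) = m := by omega
        rw [this]
        exact hv3
  · left
    unfold Lp
    rw [mem_filter, mem_range]
    exact ⟨hv1, by rw [heq] at ht1; exact ht1⟩

/-- **The number of the words.** -/
theorem wd_card (b : ℕ) (hb : 1 ≤ b) (δ : σ → ℕ → σ) (G : σ → Prop) (Λ : ℝ) (hΛ : 1 ≤ Λ) (Acc : σ → Prop)
    (hAcc : ∀ s d, Acc s → d < b → Acc (δ s d))
    (hLp : ∀ s l, Acc s → (∃ m w, w < b ^ m ∧ G (run b δ m s w)) → ((Lp b δ l s).card : ℝ) ≤ Λ ^ l) :
    ∀ k : ℕ, ∀ T : Finset σ, T.card = k → ∀ m s, Acc s →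
      ((Wd b δ G m s T).card : ℝ) ≤ (((m : ℝ) + 1) * b) ^ k * Λ ^ m := by
  classical
  have hb0 : (1 : ℝ) ≤ b := by exact_mod_cast hb
  have hΛ0 : 0 < Λ := by linarith
  intro k
  induction k with
  | zero =>
    intro T hT m s _
    have hT0 : T = ∅ := card_eq_zero.1 hT
    have h1 : Wd b δ G m s T = ∅ := by
      unfold Wd
      rw [filter_eq_empty_iff]
      rintro v _ ⟨h2, -⟩
      have := h2 0 (Nat.zero_le _)
      rw [hT0] at this
      exact absurd this (notMem_empty _)
    rw [h1]
    simp only [card_empty, Nat.cast_zero]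
    positivity
  | succ k ih =>
    intro T hT m s hs
    rcases (Wd b δ G m s T).eq_empty_or_nonempty with h0 | ⟨v, hv⟩
    · rw [h0]
      simp only [card_empty, Nat.cast_zero]
      positivity
    have hv' := hv
    unfold Wd at hv'
    rw [mem_filter, mem_range] at hv'
    obtain ⟨hv1, hv2, hv3⟩ := hv'
    have hsT : s ∈ T := hv2 0 (Nat.zero_le _)
    have hco : ∃ m w, w < b ^ m ∧ G (run b δ m s w) := ⟨m, v, hv1, hv3⟩
    have hTe : (T.erase s).card = k := by rw [card_erase_of_mem hsT, hT]; rfl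
    have hsub := card_le_card (wd_sub b hb δ G m s T)
    have h1 : ((Wd b δ G m s T).card : ℝ) ≤ (Lp b δ m s).card +
        ∑ t ∈ range m, ((Lp b δ t s).card : ℝ) * ∑ d ∈ range b, ((Wd b δ G (m - t - 1) (δ s d) (T.erase s)).card : ℝ) := by
      have h2 := hsub.trans ((card_union_le _ _).trans (Nat.add_le_add_left card_biUnion_le _))
      have h3 : ∀ t ∈ range m, (((Lp b δ t s) ×ˢ ((range b).biUnion fun d =>
          (Wd b δ G (m - t - 1) (δ s d) (T.erase s)).image fun w => d + b * w)).image
          fun p => p.1 + b ^ t * p.2).card ≤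
          (Lp b δ t s).card * ∑ d ∈ range b, (Wd b δ G (m - t - 1) (δ s d) (T.erase s)).card := by
        intro t _
        refine card_image_le.trans ?_
        rw [card_product]
        refine Nat.mul_le_mul_left _ (card_biUnion_le.trans ?_)
        exact sum_le_sum fun d _ => card_image_le
      have h4 := h2.trans (Nat.add_le_add_left (sum_le_sum h3) _)
      exact_mod_cast h4
    have h5 : ∀ t ∈ range m, ((Lp b δ t s).card : ℝ) *
        ∑ d ∈ range b, ((Wd b δ G (m - t - 1) (δ s d) (T.erase s)).card : ℝ) ≤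
        b * (((m : ℝ) + 1) * b) ^ k * Λ ^ m := by
      intro t ht
      rw [mem_range] at ht
      have h6 : ∑ d ∈ range b, ((Wd b δ G (m - t - 1) (δ s d) (T.erase s)).card : ℝ) ≤
          b * ((((m : ℝ) + 1) * b) ^ k * Λ ^ (m - t - 1)) := by
        calc ∑ d ∈ range b, ((Wd b δ G (m - t - 1) (δ s d) (T.erase s)).card : ℝ)
            ≤ ∑ _d ∈ range b, (((m : ℝ) + 1) * b) ^ k * Λ ^ (m - t - 1) := by
              refine sum_le_sum fun d hd => ?_
              refine (ih (T.erase s) hTe (m - t - 1) (δ s d) (hAcc s d hs (mem_range.1 hd))).trans ?_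
              refine mul_le_mul_of_nonneg_right ?_ (by positivity)
              refine pow_le_pow_left₀ (by positivity) ?_ k
              refine mul_le_mul_of_nonneg_right ?_ (by linarith)
              have : ((m - t - 1 : ℕ) : ℝ) ≤ m := by exact_mod_cast (by omega : m - t - 1 ≤ m)
              linarith
          _ = _ := by rw [sum_const, card_range, nsmul_eq_mul]
      calc ((Lp b δ t s).card : ℝ) * ∑ d ∈ range b, ((Wd b δ G (m - t - 1) (δ s d) (T.erase s)).card : ℝ)
          ≤ Λ ^ t * (b * ((((m : ℝ) + 1) * b) ^ k * Λ ^ (m - t - 1))) :=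
            mul_le_mul (hLp s t hs hco) h6 (sum_nonneg fun _ _ => Nat.cast_nonneg _) (by positivity)
        _ = b * (((m : ℝ) + 1) * b) ^ k * (Λ ^ t * Λ ^ (m - t - 1)) := by ring
        _ ≤ b * (((m : ℝ) + 1) * b) ^ k * Λ ^ m := by
            refine mul_le_mul_of_nonneg_left ?_ (by positivity)
            rw [← pow_add]
            exact pow_le_pow_right₀ hΛ (by omega)
    have h7 := sum_le_sum h5
    rw [sum_const, card_range, nsmul_eq_mul] at h7
    have h8 : ((Lp b δ m s).card : ℝ) ≤ Λ ^ m := hLp s m hs hco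
    have h9 : (1 : ℝ) ≤ (((m : ℝ) + 1) * b) ^ k := by
      refine one_le_pow₀ ?_
      have : (0 : ℝ) ≤ m := Nat.cast_nonneg m
      nlinarith
    calc ((Wd b δ G m s T).card : ℝ) ≤ Λ ^ m + m * (b * (((m : ℝ) + 1) * b) ^ k * Λ ^ m) := by linarith
      _ ≤ (((m : ℝ) + 1) * b) ^ (k + 1) * Λ ^ m := by
          rw [pow_succ]
          have h10 : (1 : ℝ) ≤ (((m : ℝ) + 1) * b) ^ k * b := by nlinarith
          have h11 : 0 < Λ ^ m := by positivity
          nlinarith

end Pool.Agent.D0H92.RG
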