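import Mathlib

set_option autoImplicit false

/-!
# Numerical inequalities of the covering sieve

They are those of the proof of `Pool.Agent.H256R2.SC.covering` (helper256 and co-authors), as separate lemmas.
-/

namespace Pool.Agent.D0H92.RG

lemma tail_num {L l c₂ u z K : ℝ} (hL : 1000 ≤ L) (hl : l = Real.log L) (hl10 : 10 ≤ l) (hc₂ : 0 < c₂) (hu0 : 0 ≤ u)
    (hu8 : u ≤ L / 8) (huc : u ≤ c₂ / 6400 * L) (hz : 0 < z) (hz1 : Real.log z ≤ L / (1000 * l))
    (hz2 : L / (2000 * l) ≤ Real.log z) (hK0 : 0 ≤ K) (hK : K ≤ 16 / c₂) :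
    (u + 1) * ((2 / L) ^ 2 + Real.exp (2 * u * K / Real.log z -
      Real.log (Real.exp (L / 40) / z) / Real.log z)) ≤ 1 / 8 := by
  have hLpos : 0 < L := by linarith
  have hl0 : 0 < l := by linarith
  have hlzpos : 0 < Real.log z := lt_of_lt_of_le (by positivity) hz2
  have h1 : 2 * u * K / Real.log z ≤ 10 * l := by
    rw [div_le_iff₀ hlzpos]
    have e1 : 2 * u * K ≤ 2 * (c₂ / 6400 * L) * (16 / c₂) := by
      apply mul_le_mul (by linarith) hK hK0 (by positivity)
    have e2 : 2 * (c₂ / 6400 * L) * (16 / c₂) = L / 200 := by field_simp; norm_num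
    have e3 : L / 200 = 10 * l * (L / (2000 * l)) := by field_simp; norm_num
    have e4 : 10 * l * (L / (2000 * l)) ≤ 10 * l * Real.log z :=
      mul_le_mul_of_nonneg_left hz2 (by positivity)
    linarith
  have h2 : 25 * l - 1 ≤ Real.log (Real.exp (L / 40) / z) / Real.log z := by
    rw [Real.log_div (Real.exp_pos _).ne' hz.ne', Real.log_exp, sub_div, div_self hlzpos.ne']
    have : 25 * l ≤ L / 40 / Real.log z := by
      rw [le_div_iff₀ hlzpos]
      calc 25 * l * Real.log z ≤ 25 * l * (L / (1000 * l)) :=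
            mul_le_mul_of_nonneg_left hz1 (by positivity)
        _ = L / 40 := by field_simp; norm_num
    linarith
  have h3 : Real.exp (2 * u * K / Real.log z - Real.log (Real.exp (L / 40) / z) / Real.log z) ≤ 1 / L ^ 2 := by
    have e1 : (1:ℝ) / L ^ 2 = Real.exp (-(2 * l)) := by
      have e0 : L = Real.exp l := by rw [hl, Real.exp_log hLpos]
      rw [Real.exp_neg, e0, ← Real.exp_nat_mul, one_div]
      push_cast
      rfl
    rw [e1]
    apply Real.exp_le_exp.mpr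
    linarith
  have h4 : (u + 1) * ((2 / L) ^ 2 + Real.exp (2 * u * K / Real.log z -
      Real.log (Real.exp (L / 40) / z) / Real.log z)) ≤ L * (5 / L ^ 2) := by
    apply mul_le_mul (by linarith) _ (by positivity) hLpos.le
    have : (2 / L) ^ 2 = 4 / L ^ 2 := by field_simp; norm_num
    rw [this]
    have e : (5:ℝ) / L ^ 2 = 4 / L ^ 2 + 1 / L ^ 2 := by ring
    rw [e]
    linarith
  have h5 : L * (5 / L ^ 2) = 5 / L := by field_simp
  have h6 : 5 / L ≤ 1 / 8 := by rw [div_le_div_iff₀ hLpos (by norm_num)]; linarith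
  linarith

lemma mom_num {L l CM u G : ℝ} {J : ℕ} (hL : 1000 ≤ L) (hl : l = Real.log L) (hl10 : 10 ≤ l) (hu0 : 0 ≤ u)
    (hu8 : u ≤ L / 8) (hG : G ≤ l + CM) (hCM : 20 * CM ≤ l) (hJ : 22 * l ≤ (J : ℝ)) :
    u * (1 / (3:ℝ)) ^ J * Real.exp ((2 + 6 * 3) * G) ≤ 1 / 8 := by
  have hLpos : 0 < L := by linarith
  have hLexp : L = Real.exp l := by rw [hl, Real.exp_log hLpos]
  have h1 : (1 / (3:ℝ)) ^ J ≤ Real.exp (-(22 * l)) := by
    have e1 : (1 / (3:ℝ)) = Real.exp (-(Real.log 3)) := by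
      rw [Real.exp_neg, Real.exp_log (by norm_num)]; norm_num
    rw [e1, ← Real.exp_nat_mul]
    apply Real.exp_le_exp.mpr
    have e2 : (1:ℝ) ≤ Real.log 3 := by
      rw [Real.le_log_iff_exp_le (by norm_num)]
      have := Real.exp_one_lt_d9
      linarith
    have e3 : 22 * l ≤ J * Real.log 3 := by nlinarith
    linarith
  have h2 : Real.exp ((2 + 6 * 3) * G) ≤ Real.exp (21 * l) := by
    apply Real.exp_le_exp.mpr
    linarith
  have h3 : (1 / (3:ℝ)) ^ J * Real.exp ((2 + 6 * 3) * G) ≤ 1 / L := by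
    calc (1 / (3:ℝ)) ^ J * Real.exp ((2 + 6 * 3) * G)
        ≤ Real.exp (-(22 * l)) * Real.exp (21 * l) :=
          mul_le_mul h1 h2 (Real.exp_pos _).le (Real.exp_pos _).le
      _ = Real.exp (-l) := by rw [← Real.exp_add]; congr 1; ring
      _ = 1 / L := by rw [Real.exp_neg, ← hLexp, one_div]
  calc u * (1 / (3:ℝ)) ^ J * Real.exp ((2 + 6 * 3) * G)
      = u * ((1 / (3:ℝ)) ^ J * Real.exp ((2 + 6 * 3) * G)) := by ring
    _ ≤ (L / 8) * (1 / L) := mul_le_mul hu8 h3 (by positivity) (by positivity)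
    _ = 1 / 8 := by field_simp

lemma level_num {L l z : ℝ} {J : ℕ} (hL : 1000 ≤ L) (hl10 : 10 ≤ l) (hz : 0 < z)
    (hz1 : Real.log z ≤ L / (1000 * l)) (hzpos : 0 < Real.log z) (hJ : (J : ℝ) ≤ 23 * l) :
    Real.exp (L / 40) ^ 2 * z ^ J ≤ Real.exp L := by
  have hzexp : z = Real.exp (Real.log z) := (Real.exp_log hz).symm
  have hzJ : z ^ J ≤ Real.exp (23 * L / 1000) := by
    rw [hzexp, ← Real.exp_nat_mul]
    apply Real.exp_le_exp.mpr
    calc (J:ℝ) * Real.log z ≤ (23 * l) * (L / (1000 * l)) :=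
          mul_le_mul hJ hz1 hzpos.le (by positivity)
      _ = 23 * L / 1000 := by field_simp
  calc Real.exp (L / 40) ^ 2 * z ^ J ≤ Real.exp (L / 40) ^ 2 * Real.exp (23 * L / 1000) :=
        mul_le_mul_of_nonneg_left hzJ (by positivity)
    _ = Real.exp (L / 20 + 23 * L / 1000) := by
        rw [← Real.exp_nat_mul, ← Real.exp_add]
        congr 1
        push_cast
        ring
    _ ≤ Real.exp L := Real.exp_le_exp.mpr (by linarith)

/-- the weight of one prime -/
lemma weight_num {L u p : ℝ} (hL : 1000 ≤ L) (hu0 : 0 ≤ u) (hu8 : u ≤ L / 8) (hp : L ^ 2 < p) :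
    48 * (u * (1 / p)) ≤ p ^ (-(1 / 4) : ℝ) := by
  have hL0 : 0 < L := by linarith
  have hp0 : 0 < p := lt_trans (by positivity) hp
  have h1 : 6 * L ≤ p ^ (3 / 4 : ℝ) := by
    have h2 : (L ^ 2) ^ (3 / 4 : ℝ) ≤ p ^ (3 / 4 : ℝ) := Real.rpow_le_rpow (by positivity) hp.le (by norm_num)
    have h3 : (L ^ 2) ^ (3 / 4 : ℝ) = L * L ^ (1 / 2 : ℝ) := by
      rw [← Real.rpow_natCast, ← Real.rpow_mul hL0.le]
      conv_rhs => rw [← Real.rpow_one L]
      rw [← Real.rpow_mul hL0.le, ← Real.rpow_add hL0]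
      norm_num
    have h4 : 6 ≤ L ^ (1 / 2 : ℝ) := by
      rw [← Real.sqrt_eq_rpow]
      apply Real.le_sqrt_of_sq_le
      norm_num
      linarith
    nlinarith
  have h5 : p ^ (-(1 / 4) : ℝ) * p = p ^ (3 / 4 : ℝ) := by
    conv_lhs => rw [← Real.rpow_one p]
    rw [← Real.rpow_mul hp0.le, ← Real.rpow_add hp0]
    norm_num
  have h6 : 48 * (u * (1 / p)) = (48 * u) / p := by ring
  rw [h6, div_le_iff₀ hp0, h5]
  linarith

end Pool.Agent.D0H92.RG
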