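import Pool.Agent.H256R2.SC.V1
import Pool.Agent.H256R2.SC.V2
import Pool.Agent.H256R2.SC.J
import Pool.Agent.H256R2.SC.S
import Pool.Agent.H256R2.SC.L

set_option autoImplicit false
set_option linter.unusedSectionVars false

/-!
# The profile of the covering sieve

The parameters are those of `Pool.Agent.H256R2.SC.covering` (helper256 and co-authors).
-/

namespace Pool.Agent.D0H92.RG

open Finset Filter Pool.Agent.H256R2.SC

open scoped Classical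

lemma asum_bounds {c₂ C₀ L l : ℝ} (hc₂ : 0 < c₂) (hC1 : 1 ≤ C₀) (hC : c₂ * C₀ = 2 + c₂) (hl : 10 ≤ l)
    {A xl yl j2 : ℝ} (hj2 : 1 ≤ j2) (hxl : xl = j2 * (2 * C₀ * l)) (hyl : yl = 2 * l)
    (hA : c₂ * xl / yl - 1 ≤ A) : 1 ≤ A ∧ c₂ / (4 * l) * (j2 * (2 * C₀ * l)) ≤ A := by
  have hl0 : 0 < l := by linarith
  have h3 : c₂ * xl / yl = c₂ * (j2 * C₀) := by
    rw [hxl, hyl]
    field_simp
  rw [h3] at hA
  have h6 : 2 ≤ c₂ * (j2 * C₀) := by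
    calc (2:ℝ) ≤ c₂ * C₀ := by linarith
      _ = c₂ * (1 * C₀) := by ring
      _ ≤ c₂ * (j2 * C₀) := by
        apply mul_le_mul_of_nonneg_left _ hc₂.le
        exact mul_le_mul_of_nonneg_right hj2 (by linarith)
  refine ⟨by linarith, ?_⟩
  have h7 : c₂ / (4 * l) * (j2 * (2 * C₀ * l)) = c₂ * (j2 * C₀) / 2 := by
    field_simp
    ring
  rw [h7]
  linarith

/-- the sum of the reciprocals of the sieving primes -/
lemma sum_recip (CM₀ : ℝ) (hM₀ : ∀ N : ℕ, 3 ≤ N →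
      |∑ p ∈ (Finset.Icc 1 N).filter Nat.Prime, (1 : ℝ) / p - Real.log (Real.log N)| ≤ CM₀)
    (L z y₁ : ℝ) (Bad : Finset ℕ) (hz : 3 ≤ z) (hzL : Real.log z ≤ L) :
    ∑ i : Fin (PS y₁ z Bad).card, 1 / ((emb (PS y₁ z Bad) i : ℕ) : ℝ) ≤ Real.log L + max CM₀ 0 := by
  set PP := PS y₁ z Bad with hPP
  have hzpos : 0 < z := by linarith
  have h1 : ∑ i, 1 / ((emb PP i : ℕ) : ℝ) = ∑ p ∈ PP, 1 / (p:ℝ) := by
    have : PP = univ.map (emb PP) := by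
      ext p
      rw [Finset.mem_map]
      constructor
      · intro hp
        obtain ⟨i, hi⟩ := emb_surj PP hp
        exact ⟨i, Finset.mem_univ _, hi⟩
      · rintro ⟨i, _, rfl⟩
        exact emb_mem PP i
    conv_rhs => rw [this]
    rw [Finset.sum_map]
  have hz3 : 3 ≤ ⌊z⌋₊ := Nat.le_floor (by push_cast; exact hz)
  have h2 := (abs_le.mp (hM₀ ⌊z⌋₊ hz3)).2
  have h3 : ∑ p ∈ PP, 1 / (p:ℝ) ≤ ∑ p ∈ (Finset.Icc 1 ⌊z⌋₊).filter Nat.Prime, (1 : ℝ) / p := by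
    apply Finset.sum_le_sum_of_subset_of_nonneg
    · intro p hp
      rw [hPP] at hp
      unfold PS at hp
      rw [Finset.mem_filter] at hp ⊢
      exact ⟨hp.1, hp.2.1⟩
    · intro p _ _
      positivity
  have h4 : Real.log (Real.log (⌊z⌋₊ : ℝ)) ≤ Real.log L := by
    have e1 : (3:ℝ) ≤ (⌊z⌋₊ : ℝ) := by exact_mod_cast hz3
    have e2 : Real.log (⌊z⌋₊ : ℝ) ≤ L := (Real.log_le_log (by linarith) (Nat.floor_le hzpos.le)).trans hzL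
    exact Real.log_le_log (Real.log_pos (by linarith)) e2
  rw [h1]
  have := le_max_left CM₀ 0
  linarith

/-- **The profile.** -/
theorem profile : ∃ c₂ CM : ℝ, 0 < c₂ ∧ 0 ≤ CM ∧ ∃ L₀ : ℝ, ∀ L : ℝ, L₀ ≤ L →
    (10 ≤ Real.log L ∧ 20 * CM ≤ Real.log L ∧ L ≤ Real.exp (L / 100) ∧ 1000 ≤ L ∧ Real.log L ≤ L) ∧
    ∀ Bad : Finset ℕ, (Bad.card : ℝ) ≤ L → ∃ (z : ℝ) (h : Finset (Fin (PS (L ^ 2) z Bad).card) → ℝ) (K : ℝ),
      Real.log z ≤ L / (1000 * Real.log L) ∧ L / (2000 * Real.log L) ≤ Real.log z ∧ 0 < z ∧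
      Hyp (fun i => ((emb (PS (L ^ 2) z Bad) i : ℕ) : ℝ)) (fun i => 1 / ((emb (PS (L ^ 2) z Bad) i : ℕ) : ℝ)) h z K ∧
      K ≤ 16 / c₂ ∧
      ∑ i : Fin (PS (L ^ 2) z Bad).card, 1 / ((emb (PS (L ^ 2) z Bad) i : ℕ) : ℝ) ≤ Real.log L + CM := by
  obtain ⟨c₂, hc₂, hAl⟩ := A_lower
  obtain ⟨CM₀, hM₀⟩ := Pool.Agent.Helper256.KM.mertens_inv
  obtain ⟨C₀, hC₀⟩ : ∃ C₀ : ℝ, C₀ = 2 / c₂ + 1 := ⟨_, rfl⟩
  have hC1 : 1 ≤ C₀ := by
    rw [hC₀]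
    have : 0 < 2 / c₂ := by positivity
    linarith
  have hC2 : c₂ * C₀ = 2 + c₂ := by
    rw [hC₀]
    field_simp
  obtain ⟨L₀, hL₀⟩ := ev_facts C₀ (max CM₀ 0)
  refine ⟨c₂, max CM₀ 0, hc₂, le_max_right _ _, L₀, fun L hLL => ?_⟩
  obtain ⟨f1, f2, f3, f4, f5, f6⟩ := hL₀ L hLL
  refine ⟨⟨f1, f2, f4, f5, f6⟩, fun Bad hBad => ?_⟩
  obtain ⟨m, hm1, hm2, hm3⟩ := scales C₀ L hC1 f1 f3 f5
  obtain ⟨l, hl⟩ : ∃ l, l = Real.log L := ⟨_, rfl⟩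
  rw [← hl] at f1 hm1 hm2 hm3 ⊢
  have hl0 : 0 < l := by linarith
  have hLpos : 0 < L := by linarith
  obtain ⟨z₀, hz₀⟩ : ∃ z₀, z₀ = Real.exp (2 * C₀ * l) := ⟨_, rfl⟩
  obtain ⟨z, hz⟩ : ∃ z : ℝ, z = z₀ ^ (2 ^ m) := ⟨_, rfl⟩
  have hlogz0 : Real.log z₀ = 2 * C₀ * l := by rw [hz₀, Real.log_exp]
  have hz01 : 1 < z₀ := by
    rw [hz₀]
    have : 0 < 2 * C₀ * l := by positivity
    exact Real.one_lt_exp_iff.mpr this
  have hz00 : 0 < z₀ := by linarith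
  have hlogzj : ∀ j : ℕ, Real.log (z₀ ^ (2 ^ j)) = (2:ℝ) ^ j * (2 * C₀ * l) := by
    intro j
    rw [Real.log_pow, hlogz0]
    push_cast
    ring
  have hlogz : Real.log z = (2:ℝ) ^ m * (2 * C₀ * l) := by rw [hz]; exact hlogzj m
  have hzpos : 0 < z := by rw [hz]; exact pow_pos hz00 _
  have hlz1 : Real.log z ≤ L / (1000 * l) := by rw [hlogz]; exact hm1
  have hlz2 : L / (2000 * l) ≤ Real.log z := by rw [hlogz]; exact hm2
  have hlzL : Real.log z ≤ L := by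
    refine hlz1.trans (div_le_self hLpos.le ?_)
    linarith
  have hlogy : Real.log (L ^ 2) = 2 * l := by rw [Real.log_pow, ← hl]; push_cast; ring
  have hy1 : 3 ≤ L ^ 2 := by nlinarith
  have hBy : 2 * (Bad.card : ℝ) ≤ L ^ 2 := by nlinarith
  have hz3 : 3 ≤ z := by
    have e1 : (2:ℝ) ≤ Real.log z := by
      rw [hlogz]
      have e2 : (1:ℝ) ≤ 2 ^ m := one_le_pow₀ (by norm_num)
      have e3 : 20 ≤ 2 * C₀ * l := by nlinarith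
      nlinarith
    have e4 : Real.exp 2 ≤ z := by
      rw [← Real.exp_log hzpos]; exact Real.exp_le_exp.mpr e1
    have e5 : (3:ℝ) ≤ Real.exp 2 := by
      have := Real.add_one_le_exp (2:ℝ); linarith
    linarith
  have hmem : ∀ i, L ^ 2 < ((emb (PS (L ^ 2) z Bad) i : ℕ) : ℝ) := by
    intro i
    have := emb_mem (PS (L ^ 2) z Bad) i
    unfold PS at this
    exact (Finset.mem_filter.mp this).2.2.1
  have hP1 : ∀ i, (1 : ℝ) < ((emb (PS (L ^ 2) z Bad) i : ℕ) : ℝ) := fun i => by linarith [hmem i]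
  have hg0 : ∀ i, 0 < 1 / ((emb (PS (L ^ 2) z Bad) i : ℕ) : ℝ) := fun i =>
    div_pos one_pos (by linarith [hP1 i])
  have hA : ∀ j < m + 1, 1 ≤ Asum (fun i => ((emb (PS (L ^ 2) z Bad) i : ℕ) : ℝ))
      (fun i => 1 / ((emb (PS (L ^ 2) z Bad) i : ℕ) : ℝ)) (z₀ ^ (2 ^ j)) ∧
      c₂ / (4 * l) * (2 ^ j * Real.log z₀) ≤ Asum (fun i => ((emb (PS (L ^ 2) z Bad) i : ℕ) : ℝ))
      (fun i => 1 / ((emb (PS (L ^ 2) z Bad) i : ℕ) : ℝ)) (z₀ ^ (2 ^ j)) := by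
    intro j hj
    have h1 := Asum_enum (PS (L ^ 2) z Bad) (z₀ ^ (2 ^ j))
    have h2j : (1:ℝ) ≤ 2 ^ j := one_le_pow₀ (by norm_num)
    have hyx : L ^ 2 ≤ z₀ ^ (2 ^ j) := by
      rw [← Real.log_le_log_iff (by positivity) (pow_pos hz00 _), hlogzj j, hlogy]
      have : 2 * l ≤ 1 * (2 * C₀ * l) := by nlinarith
      have e : 1 * (2 * C₀ * l) ≤ 2 ^ j * (2 * C₀ * l) :=
        mul_le_mul_of_nonneg_right h2j (by positivity)
      linarith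
    have hxz : z₀ ^ (2 ^ j) ≤ z := by
      rw [hz]
      exact pow_le_pow_right₀ hz01.le (Nat.pow_le_pow_right (by norm_num) (by omega))
    have h2 := hAl (L ^ 2) z (z₀ ^ (2 ^ j)) Bad hy1 hyx hxz hBy
    rw [← h1] at h2
    have h3 := asum_bounds hc₂ hC1 hC2 f1 h2j (hlogzj j) hlogy h2 (L := L)
    rw [hlogz0]
    exact h3
  obtain ⟨h, H⟩ := exists_h _ _ hP1 hg0 (m + 1) (by omega) z₀ (c₂ / (4 * l)) hz01 (by positivity) hA
  have hzz : z₀ ^ (2 ^ (m + 1 - 1)) = z := by rw [hz, Nat.add_sub_cancel]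
  rw [hzz] at H
  refine ⟨z, h, _, hlz1, hlz2, hzpos, H, ?_, ?_⟩
  · rw [div_le_div_iff₀ (by positivity) hc₂]
    have h1 : c₂ / 4 ≤ c₂ / (4 * l) * ((m + 1 : ℕ) : ℝ) := by
      push_cast
      calc c₂ / 4 = c₂ / (4 * l) * l := by field_simp
        _ ≤ c₂ / (4 * l) * (m + 1) := mul_le_mul_of_nonneg_left hm3 (by positivity)
    nlinarith
  · rw [hl]
    exact sum_recip CM₀ hM₀ L z (L ^ 2) Bad hz3 hlzL

end Pool.Agent.D0H92.RG
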