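import Pool.Agent.D0H92.RG.Core
import Pool.Agent.D0H92.RG.Prof
import Pool.Agent.D0H92.RG.Par2
import Pool.Agent.D0H92.RG.Freq

set_option autoImplicit false
set_option linter.unusedSectionVars false

/-!
# The weight
-/

namespace Pool.Agent.D0H92.RG

open Finset Filter Pool.Agent.H256R2.SC

section
variable {κ : Type} [Fintype κ] [DecidableEq κ]

/-- the sizes of the supports -/
lemma supp_num {n : ℕ} {p : Fin n → ℝ} {L : ℝ} (hL : 1000 ≤ L) (hp : ∀ i, L ^ 2 < p i) (D : Col n κ)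
    (hD : qq p D ≤ Real.exp (L / 40)) : 2 * ∑ i with D i ≠ none, 1 / p i ≤ 2 / L := by
  have hLpos : 0 < L := by linarith
  have hp3 : ∀ i, 3 ≤ p i := fun i => by nlinarith [hp i]
  have h1 : Real.exp ((supp D).card : ℝ) ≤ qq p D := by
    unfold qq
    rw [prod_nu1]
    have : Real.exp ((supp D).card : ℝ) = ∏ i ∈ supp D, Real.exp 1 := by
      rw [Finset.prod_const, ← Real.exp_nat_mul, mul_one]
    rw [this]
    apply Finset.prod_le_prod
    · intro i _; exact (Real.exp_pos _).le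
    · intro i _
      have := Real.exp_one_lt_d9
      linarith [hp3 i]
  have h2 := Real.exp_le_exp.mp (h1.trans hD)
  have h3 : ∑ i with D i ≠ none, 1 / p i ≤ (supp D).card * (1 / L ^ 2) := by
    have : ∑ i ∈ supp D, 1 / p i ≤ ∑ i ∈ supp D, (1 / L ^ 2) :=
      Finset.sum_le_sum (fun i _ => one_div_le_one_div_of_le (by positivity) (hp i).le)
    rw [Finset.sum_const, nsmul_eq_mul] at this
    exact this
  have h4 : ((supp D).card : ℝ) * (1 / L ^ 2) ≤ L / 40 * (1 / L ^ 2) :=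
    mul_le_mul_of_nonneg_right h2 (by positivity)
  have h5 : L / 40 * (1 / L ^ 2) = 1 / (40 * L) := by field_simp
  have h6 : 1 / (40 * L) ≤ 1 / L := by
    apply one_div_le_one_div_of_le hLpos
    linarith
  have h7 : 2 / L = 2 * (1 / L) := by ring
  rw [h7]
  linarith

lemma sq_num {n : ℕ} {p : Fin n → ℝ} {L l CM u : ℝ} (hL : 1000 ≤ L) (hlL : l ≤ L) (hl0 : 10 ≤ l) (hCM : 20 * CM ≤ l)
    (hp : ∀ i, L ^ 2 < p i) (hG : ∑ i, 1 / p i ≤ l + CM) (hu0 : 0 ≤ u) (hu8 : u ≤ L / 8) :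
    2 * u * ∑ i, 1 / (p i) ^ 2 ≤ 1 := by
  have hLpos : 0 < L := by linarith
  have hp0 : ∀ i, 0 < p i := fun i => lt_trans (by positivity) (hp i)
  have h1 : ∑ i, 1 / (p i) ^ 2 ≤ (1 / L ^ 2) * ∑ i, 1 / p i := by
    rw [Finset.mul_sum]
    apply Finset.sum_le_sum
    intro i _
    have : 1 / (p i) ^ 2 = (1 / p i) * (1 / p i) := by ring
    rw [this]
    exact mul_le_mul_of_nonneg_right (one_div_le_one_div_of_le (by positivity) (hp i).le)
      (one_div_pos.2 (hp0 i)).le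
  have h2 : (1 / L ^ 2) * ∑ i, 1 / p i ≤ (1 / L ^ 2) * (2 * L) := by
    apply mul_le_mul_of_nonneg_left _ (by positivity)
    linarith
  have h3 : (1 / L ^ 2) * (2 * L) = 2 / L := by field_simp
  have h4 : 2 * u * ∑ i, 1 / (p i) ^ 2 ≤ 2 * (L / 8) * (2 / L) := by
    apply mul_le_mul _ (by linarith) (Finset.sum_nonneg (fun i _ => by positivity))
      (by positivity)
    linarith
  have e : 2 * (L / 8) * (2 / L) = 1 / 2 := by field_simp; norm_num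
  linarith

/-- the factor of the Fourier coefficients -/
lemma fac_num {L l CM u G : ℝ} (hL : 1000 ≤ L) (hl : l = Real.log L) (hu0 : 0 ≤ u)
    (hu8 : u ≤ L / 8) (hG : G ≤ l + CM) (hCM : 20 * CM ≤ l) :
    3 * u * Real.exp (20 * G) ≤ L ^ 22 := by
  have hLpos : 0 < L := by linarith
  have hLexp : L = Real.exp l := by rw [hl, Real.exp_log hLpos]
  have h1 : Real.exp (20 * G) ≤ L ^ 21 := by
    have : L ^ 21 = Real.exp (21 * l) := by
      conv_lhs => rw [hLexp]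
      rw [← Real.exp_nat_mul]
      norm_num
    rw [this]
    exact Real.exp_le_exp.2 (by linarith)
  calc 3 * u * Real.exp (20 * G) ≤ L * L ^ 21 :=
        mul_le_mul (by linarith) h1 (Real.exp_pos _).le hLpos.le
    _ = L ^ 22 := by ring

lemma qT_rpow {PP : Finset ℕ} (a : Fin PP.card → ℕ) :
    (qT PP a : ℝ) ^ (-(1 / 4) : ℝ) = ∏ i with a i ≠ 0, ((emb PP i : ℕ) : ℝ) ^ (-(1 / 4) : ℝ) := by
  unfold qT
  push_cast
  rw [Real.finset_prod_rpow]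
  intro i _
  exact Nat.cast_nonneg _

end

/-- **The weight**, with explicit hypotheses. -/
theorem weight_core {κ : Type} [Fintype κ] [DecidableEq κ] [Nonempty κ] {PP : Finset ℕ} {res : ℕ → κ → ℤ}
    {L l c₂ CM z K : ℝ} {h : Finset (Fin PP.card) → ℝ} (hL : 1000 ≤ L) (hl : l = Real.log L) (hl10 : 10 ≤ l)
    (hlL : l ≤ L) (hc₂ : 0 < c₂) (hCM : 20 * CM ≤ l) (hz : 0 < z) (hz1 : Real.log z ≤ L / (1000 * l))
    (hz2 : L / (2000 * l) ≤ Real.log z) (hPP : ∀ p ∈ PP, p.Prime ∧ L ^ 2 < (p : ℝ) ∧ (p : ℝ) ≤ z)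
    (hinj : ∀ p ∈ PP, ∀ k l, k ≠ l → ¬ ((p : ℤ) ∣ res p k - res p l))
    (H : Hyp (fun i => ((emb PP i : ℕ) : ℝ)) (fun i => 1 / ((emb PP i : ℕ) : ℝ)) h z K) (hK : K ≤ 16 / c₂)
    (hG : ∑ i : Fin PP.card, 1 / ((emb PP i : ℕ) : ℝ) ≤ l + CM)
    (hu8 : (Fintype.card κ : ℝ) ≤ L / 8) (huc : (Fintype.card κ : ℝ) ≤ c₂ / 6400 * L) :
    ∃ (F : Col PP.card κ → ℝ) (Z : ℝ), 1 ≤ Z ∧ Z / 2 ≤ EE (fun i => 1 / ((emb PP i : ℕ) : ℝ)) F ∧
      (∀ x, F x ≤ 9 * Real.exp (L / 10)) ∧ (∀ x, 0 < F x → ∀ k, ∃ i, x i = some k) ∧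
      (∀ a ∈ II PP, ‖Fh PP res F a‖ ≤ L ^ 22 * Z * (qT PP a : ℝ) ^ (-(1 / 4) : ℝ)) ∧
      (∀ a ∈ II PP, Real.exp L < qT PP a → Fh PP res F a = 0) := by
  have hLpos : 0 < L := by linarith
  have hl0 : 0 < l := by linarith
  have hu0 : (0 : ℝ) ≤ (Fintype.card κ : ℝ) := Nat.cast_nonneg _
  have hlzpos : 0 < Real.log z := lt_of_lt_of_le (by positivity) hz2
  have hpy : ∀ i : Fin PP.card, L ^ 2 < ((emb PP i : ℕ) : ℝ) := fun i => (hPP _ (emb_mem PP i)).2.1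
  have hpz : ∀ i : Fin PP.card, ((emb PP i : ℕ) : ℝ) ≤ z := fun i => (hPP _ (emb_mem PP i)).2.2
  have hgy : ∀ i : Fin PP.card, 1 / ((emb PP i : ℕ) : ℝ) ≤ 1 / L ^ 2 := fun i =>
    one_div_le_one_div_of_le (by positivity) (hpy i).le
  have hL2 : 1 / L ^ 2 ≤ 1 / 9 := one_div_le_one_div_of_le (by norm_num) (by nlinarith)
  have hug : ∀ i : Fin PP.card, (Fintype.card κ : ℝ) * (1 / ((emb PP i : ℕ) : ℝ)) ≤ 1 / 2 := by
    intro i
    have h1 : (Fintype.card κ : ℝ) * (1 / ((emb PP i : ℕ) : ℝ)) ≤ (L / 8) * (1 / L ^ 2) :=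
      mul_le_mul hu8 (hgy i) (H.g0 i).le (by positivity)
    have h2 : (L / 8) * (1 / L ^ 2) = 1 / (8 * L) := by field_simp
    have h3 : 1 / (8 * L) ≤ 1 / 2 := one_div_le_one_div_of_le (by norm_num) (by linarith)
    linarith
  -- parameters
  obtain ⟨Q, hQ⟩ : ∃ Q, Q = Real.exp (L / 40) := ⟨_, rfl⟩
  obtain ⟨J, hJ⟩ : ∃ J : ℕ, J = 2 * ⌈11 * l⌉₊ := ⟨_, rfl⟩
  have hJ1 : 22 * l ≤ (J:ℝ) := by
    have := Nat.le_ceil (11 * l)
    rw [hJ]; push_cast; linarith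
  have hJ2 : (J:ℝ) ≤ 23 * l := by
    have := Nat.ceil_lt_add_one (show 0 ≤ 11 * l by positivity)
    rw [hJ]; push_cast; linarith
  have hJe : Even J := ⟨⌈11 * l⌉₊, by rw [hJ]; ring⟩
  have hQ1 : 1 ≤ Q := by rw [hQ]; exact Real.one_le_exp (by positivity)
  have hlev := levels (κ := κ) H Q J hQ1 hpz (fun i => (hgy i).trans (hL2.trans (by norm_num)))
    (sq_num hL hlL hl10 hCM hpy hG hu0 hu8)
  obtain ⟨hVL, Bd, hFL⟩ := hlev
  have hprime : ∀ p ∈ PP, p.Prime := fun p hp => (hPP p hp).1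
  refine ⟨FF (fun i => ((emb PP i : ℕ) : ℝ)) (fun i => 1 / ((emb PP i : ℕ) : ℝ)) h Q J,
    Zs κ (fun i => 1 / ((emb PP i : ℕ) : ℝ)) h, Zs_ge_one H, ?_, ?_, ?_, ?_, ?_⟩
  · refine model_lower H Q (2 / L) 3 J hJe (by norm_num) hQ1 ?_ ?_ ?_ ?_ ?_ ?_
    · intro i
      have := hgy i
      linarith
    · intro i
      have := hug i
      linarith
    · intro D hD
      rw [hQ] at hD
      exact supp_num hL hpy D hD
    · have : (Fintype.card κ : ℝ) * (2 / L) ≤ (L / 8) * (2 / L) := mul_le_mul_of_nonneg_right hu8 (by positivity)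
      have e : (L / 8) * (2 / L) = 1 / 4 := by field_simp; norm_num
      linarith
    · rw [hQ]
      exact tail_num hL hl hl10 hc₂ hu0 hu8 huc hz hz1 hz2 H.K0 hK
    · exact mom_num hL hl hl10 hu0 hu8 hG hCM hJ1
  · intro x
    have h1 := FF_le (p := fun i => ((emb PP i : ℕ) : ℝ)) (g := fun i => 1 / ((emb PP i : ℕ) : ℝ)) (h := h)
      J hJe Q (fun x => Lv_bound hVL x) x
    have h2 : 9 * Q ^ 4 = 9 * Real.exp (L / 10) := by
      rw [hQ, ← Real.exp_nat_mul]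
      congr 2
      push_cast
      ring
    rw [← h2]
    exact h1
  · intro x hx k
    exact cov_of_pos J hJe Q x hx k
  · intro a ha
    have h1 := Fh_bound hprime hinj H Q J hJe (fun i => by have := hgy i; linarith) hug a ha
    refine h1.trans ?_
    have hZ0 : 0 ≤ Zs κ (fun i : Fin PP.card => 1 / ((emb PP i : ℕ) : ℝ)) h := by
      have := Zs_ge_one (κ := κ) H
      linarith
    have h2 : ∏ i with a i ≠ 0, 48 * ((Fintype.card κ : ℝ) * (1 / ((emb PP i : ℕ) : ℝ))) ≤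
        (qT PP a : ℝ) ^ (-(1 / 4) : ℝ) := by
      rw [qT_rpow]
      refine prod_le_prod (fun i _ => ?_) fun i _ => weight_num hL hu0 hu8 (hpy i)
      have := (H.g0 i).le
      exact mul_nonneg (by norm_num) (mul_nonneg hu0 this)
    have h3 := fac_num hL hl hu0 hu8 hG hCM
    have h4 : 3 * (Fintype.card κ : ℝ) * (Real.exp (20 * ∑ i : Fin PP.card, 1 / ((emb PP i : ℕ) : ℝ)) *
        Zs κ (fun i => 1 / ((emb PP i : ℕ) : ℝ)) h) ≤ L ^ 22 * Zs κ (fun i => 1 / ((emb PP i : ℕ) : ℝ)) h := by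
      rw [← mul_assoc]
      exact mul_le_mul_of_nonneg_right h3 hZ0
    refine mul_le_mul h4 h2 ?_ (mul_nonneg (by positivity) hZ0)
    refine prod_nonneg fun i _ => ?_
    have := (H.g0 i).le
    exact mul_nonneg (by norm_num) (mul_nonneg hu0 this)
  · intro a ha hbig
    refine Fh_zero hprime hFL a ha ?_
    have h1 := level_num (J := J) hL hl10 hz hz1 hlzpos hJ2
    rw [← hQ] at h1
    refine h1.trans_lt ?_
    have h2 : (qT PP a : ℝ) = ∏ i with a i ≠ 0, ((emb PP i : ℕ) : ℝ) := by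
      unfold qT
      push_cast
      rfl
    rw [← h2]
    exact hbig

/-- **The weight.** -/
theorem weight : ∃ c : ℝ, 0 < c ∧ ∃ L₀ : ℝ, ∀ L : ℝ, L₀ ≤ L → 1000 ≤ L ∧ 10 ≤ Real.log L ∧
    ∃ (z : ℝ) (PP : Finset ℕ), 0 < z ∧ Real.log z ≤ L / (1000 * Real.log L) ∧
      (∀ p ∈ PP, p.Prime ∧ L ^ 2 < (p : ℝ) ∧ (p : ℝ) ≤ z) ∧
      ∀ (κ : Type) [Fintype κ] [DecidableEq κ] [Nonempty κ], (Fintype.card κ : ℝ) ≤ c * L →
      ∀ res : ℕ → κ → ℤ, (∀ p ∈ PP, ∀ k l, k ≠ l → ¬ ((p : ℤ) ∣ res p k - res p l)) →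
      ∃ (F : Col PP.card κ → ℝ) (Z : ℝ), 1 ≤ Z ∧ Z / 2 ≤ EE (fun i => 1 / ((emb PP i : ℕ) : ℝ)) F ∧
        (∀ x, F x ≤ 9 * Real.exp (L / 10)) ∧ (∀ x, 0 < F x → ∀ k, ∃ i, x i = some k) ∧
        (∀ a ∈ II PP, ‖Fh PP res F a‖ ≤ L ^ 22 * Z * (qT PP a : ℝ) ^ (-(1 / 4) : ℝ)) ∧
        (∀ a ∈ II PP, Real.exp L < qT PP a → Fh PP res F a = 0) := by
  obtain ⟨c₂, CM, hc₂, hCM, L₀, hprof⟩ := profile
  refine ⟨min (1 / 8) (c₂ / 6400), lt_min (by norm_num) (by positivity), L₀, fun L hL => ?_⟩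
  obtain ⟨⟨f1, f2, f3, f4, f5⟩, hprof⟩ := hprof L hL
  obtain ⟨z, h, K, hz1, hz2, hz0, H, hK, hG⟩ := hprof ∅ (by simp; linarith)
  have hLpos : 0 < L := by linarith
  refine ⟨f4, f1, z, PS (L ^ 2) z ∅, hz0, hz1, ?_, ?_⟩
  · intro p hp
    unfold PS at hp
    rw [Finset.mem_filter, Finset.mem_Icc] at hp
    refine ⟨hp.2.1, hp.2.2.1, ?_⟩
    calc (p:ℝ) ≤ (⌊z⌋₊ : ℝ) := by exact_mod_cast hp.1.2
      _ ≤ z := Nat.floor_le hz0.le
  · intro κ _ _ _ hcard res hinj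
    have h1 : min (1 / 8) (c₂ / 6400) * L ≤ L / 8 := by
      have := mul_le_mul_of_nonneg_right (min_le_left (1 / 8 : ℝ) (c₂ / 6400)) hLpos.le
      linarith
    have h2 : min (1 / 8) (c₂ / 6400) * L ≤ c₂ / 6400 * L :=
      mul_le_mul_of_nonneg_right (min_le_right _ _) hLpos.le
    refine weight_core f4 rfl f1 f5 hc₂ f2 hz0 hz1 hz2 ?_ hinj H hK hG (hcard.trans h1) (hcard.trans h2)
    intro p hp
    unfold PS at hp
    rw [Finset.mem_filter, Finset.mem_Icc] at hp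
    refine ⟨hp.2.1, hp.2.2.1, ?_⟩
    calc (p:ℝ) ≤ (⌊z⌋₊ : ℝ) := by exact_mod_cast hp.1.2
      _ ≤ z := Nat.floor_le hz0.le

end Pool.Agent.D0H92.RG
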